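import Pool.Agent.TH766.MC.Pairs

/-!
The irreducible case.
-/

set_option autoImplicit false

open FF Module Pool.Agent.W603.LV Pool.Agent.W602.GT Pool.Agent.W602.Cov Pool.Agent.W602.Cov.G
open Pool.Agent.W168.CG.PGR Pool.Agent.TH152.AC

namespace Pool.Agent.TH766.MC

variable {n q : ℕ} {ℓ : Fin q → Form n} {K : Type} [Field K] [Algebra ℂ K]

theorem not_splits_two (hr : ¬ Reducible ℓ) : ¬ Splits ℓ (1 + 1) := by
  rintro ⟨e, g, hg, hs⟩
  obtain ⟨a0, ha0⟩ := hg 0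
  obtain ⟨a1, ha1⟩ := hg 1
  refine hr ⟨Submodule.span ℂ (e '' {a | g a = 0}), Submodule.span ℂ (e '' {a | g a = 0}ᶜ),
    span_ne_bot e (a := a0) ha0, span_ne_bot e (a := a1) (fun h => ?_), isCompl_span e _,
    fun i => ?_⟩
  · have h1 : g a1 = 0 := h
    rw [ha1] at h1
    exact absurd h1 (by decide)
  · obtain ⟨j, hj⟩ := hs i
    by_cases hj0 : j = 0
    · right
      refine vanish_span e fun a ha => hj a fun h => ha ?_
      rw [hj0] at h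
      exact h
    · left
      refine vanish_span e fun a ha => hj a fun h => hj0 ?_
      rw [← h]
      exact ha

theorem comps_one : Comps ℓ (fun _ => (0 : Fin 1)) :=
  ⟨Pi.basisFun ℂ _, fun _ => 0, fun _ => ⟨0, Subsingleton.elim _ _⟩, fun _ _ ha =>
    absurd (Subsingleton.elim _ _) ha⟩

theorem big_irr (hn : 1 ≤ n) (hℓ : ∀ i, ℓ i ≠ 0) (hr : ¬ Reducible ℓ)
    {x : Fin (n + 1) → K} (hx0 : x 0 ≠ 0)
    (hbas : IsTranscendenceBasis ℂ (fun j : Fin n => x j.succ / x 0)) (X : Set (Place ℂ K))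
    (δ : Place ℂ K → ℝ) (hδ : ∀ P ∈ X, 0 ≤ δ P) {s : ℝ}
    (hs : (n : ℝ) + 2 < s ∨ (Many ℓ ∧ (n : ℝ) + 1 < s))
    (h : ∀ P ∈ X, Divisorial n P → ∀ (a : ℤ) (v : Fin q → ℕ),
      (∀ φ : Form n, lf φ x = 0 ∨ a ≤ P.ord (lf φ x)) →
      (∃ φ : Form n, lf φ x ≠ 0 ∧ P.ord (lf φ x) = a) →
      (∀ i, P.ord (lf (ℓ i) x) = a + v i) → v ≠ 0 → ∃ i, s * (1 - δ P) ≤ v i) :
    ∃ N : ℕ, 0 < N ∧ ∃ ω : Fin (n + 1) → (Fin n → Derivation ℂ K K) → K,
      (∀ j, PairSec n X δ N (ω j)) ∧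
      ∃ D, ω 0 D ≠ 0 ∧ AlgebraicIndependent ℂ (fun i : Fin n => ω i.succ D / ω 0 D) := by
  have hspan := Pool.Agent.W392.CG.span_top hn ℓ hr
  obtain ⟨R, hR, hRs⟩ : ∃ R : ℕ, Bound ℓ 1 R ∧ (R : ℝ) < s := by
    rcases hs with hs | ⟨hm, hs⟩
    · exact ⟨n + 2, Or.inl (by omega), by push_cast; exact hs⟩
    · exact ⟨n + 1, Or.inr ⟨rfl, hm, rfl⟩, by push_cast; exact hs⟩
  refine pairs_kod hn hℓ comps_one (not_splits_two hr) hspan hR hx0 hbas X δ hδ hRs ?_ rfl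
  intro P hPX hPd a v h1 h2 hv hv0
  obtain ⟨i, hi⟩ := h P hPX hPd a v h1 h2 hv hv0
  obtain ⟨i', hi'⟩ : ∃ i', v i' = 0 := by
    by_contra hcon
    push Not at hcon
    obtain ⟨φ, hφ, hφa⟩ := h2
    have h3 := ge_span P (a + 1) (Set.range ℓ) x (by
      rintro _ ⟨i, rfl⟩
      right
      rw [hv i]
      have := hcon i
      omega) φ (by rw [hspan]; trivial)
    rcases h3 with h3 | h3
    · exact hφ h3
    · omega
  refine ⟨i, i', rfl, ?_⟩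
  rw [hi', Nat.cast_zero, sub_zero]
  exact hi

end Pool.Agent.TH766.MC
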