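import Pool.Agent.TH766.MC.A1
import Pool.Agent.W602.Cov.HDefs

/-!
Multiplicities at the places of the complement of some hyperplanes in an abelian cover.
-/

set_option autoImplicit false

open FF Module IntermediateField Pool.Agent.W603.LV Pool.Agent.W602.GT Pool.Agent.W602.Cov
open Pool.Agent.W602.Cov.Cover Pool.Agent.W602.Cov.G
open Pool.Agent.W168.CG.PGR Pool.Agent.TH152.AC

namespace Pool.Agent.TH766.MC

variable {n q r c : ℕ}

/-- a common zero of the forms in `F` at which the forms in `U` do not vanish -/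
theorem exists_point {ℓ : Fin q → Form n} (F : Set (Fin q)) (U : Finset (Fin q))
    (hspan : Submodule.span ℂ (ℓ '' F) ≠ ⊤)
    (hU : ∀ i ∈ U, ℓ i ∉ Submodule.span ℂ (ℓ '' F)) :
    ∃ x : Fin (n + 1) → ℂ, x ≠ 0 ∧ (∀ i ∈ F, ℓ i x = 0) ∧ ∀ i ∈ U, ℓ i x ≠ 0 := by
  classical
  set W := Submodule.span ℂ (ℓ '' F) with hW
  have hco : W.dualCoannihilator.dualAnnihilator = W := Subspace.dualCoannihilator_dualAnnihilator_eq
  obtain ⟨y, hy, h0⟩ := Pool.Agent.W392.CG.exists_zero W hspan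
  have hyW : y ∈ W.dualCoannihilator := by
    rw [Submodule.mem_dualCoannihilator]
    exact fun φ hφ => h0 φ hφ
  obtain ⟨j, hj⟩ := Function.ne_iff.1 hy
  have key : ∀ i : Option U, ∃ x ∈ W.dualCoannihilator,
      (i.elim (LinearMap.proj j : Form n) fun i => ℓ i) x ≠ 0 := by
    intro i
    rcases i with _ | i
    · exact ⟨y, hyW, hj⟩
    · by_contra hcon
      push Not at hcon
      apply hU i.1 i.2
      rw [← hco, Submodule.mem_dualAnnihilator]
      exact hcon
  obtain ⟨x, hx, hx0⟩ := Module.Dual.exists_forall_mem_ne_zero_of_forall_exists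
    W.dualCoannihilator (fun i : Option U => i.elim (LinearMap.proj j : Form n) fun i => ℓ i) key
  refine ⟨x, ?_, fun i hi => ?_, fun i hi => hx0 (some ⟨i, hi⟩)⟩
  · rintro rfl
    exact hx0 none (map_zero _)
  · rw [Submodule.mem_dualCoannihilator] at hx
    exact hx _ (Submodule.subset_span ⟨i, hi, rfl⟩)

/-- the proof is that of `Pool.Agent.W924.CG.GCD.main` -/
theorem prim_of_freeU (X : Cover n q r) {U : Finset (Fin q)} (hF : X.FreeU U) : Prim X := by
  obtain ⟨x0, hx0, -, hxU⟩ := exists_point (ℓ := X.ℓ) ∅ U (by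
    rw [Set.image_empty, Submodule.span_empty]
    intro h
    have h1 := finrank_form n
    rw [← finrank_top, ← h, finrank_bot] at h1
    omega) (fun i _ h => by
    rw [Set.image_empty, Submodule.span_empty, Submodule.mem_bot] at h
    exact X.hℓ i h)
  obtain ⟨y, hy⟩ : ∃ y : Fin r → ℂ, ∀ k, y k ^ X.m k = ∏ i, X.ℓ i x0 ^ X.e k i := by
    have : ∀ k, ∃ z : ℂ, z ^ X.m k = ∏ i, X.ℓ i x0 ^ X.e k i := fun k =>
      IsAlgClosed.exists_pow_nat_eq _ (X.hm k)
    choose y hy using this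
    exact ⟨y, hy⟩
  have hv : (x0, y) ∈ X.PtsU U := ⟨⟨hx0, hy⟩, hxU⟩
  set I : Ideal ℤ := Ideal.span (insert (X.d : ℤ) (Set.range fun k => (X.w k : ℤ))) with hI
  obtain ⟨g, hg⟩ := (IsPrincipalIdealRing.principal I).principal
  have hg' : I = Ideal.span {(g.natAbs : ℤ)} := by
    rw [hg]
    rw [Ideal.submodule_span_eq, Int.span_natAbs]
  have hd : (g.natAbs : ℤ) ∣ X.d := by
    rw [← Ideal.mem_span_singleton, ← hg']
    exact Ideal.subset_span (Set.mem_insert _ _)
  have hw : ∀ k, (g.natAbs : ℤ) ∣ X.w k := by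
    intro k
    rw [← Ideal.mem_span_singleton, ← hg']
    exact Ideal.subset_span (Set.mem_insert_of_mem _ ⟨k, rfl⟩)
  have hd' : g.natAbs ∣ X.d := by exact_mod_cast hd
  have hw' : ∀ k, g.natAbs ∣ X.w k := fun k => by exact_mod_cast hw k
  have hg0 : g.natAbs ≠ 0 := by
    intro h0
    rw [h0] at hd'
    exact X.hd.ne' (Nat.eq_zero_of_zero_dvd hd')
  have hprim := Complex.isPrimitiveRoot_exp g.natAbs hg0
  have ht : Complex.exp (2 * Real.pi * Complex.I / g.natAbs) = 1 := by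
    refine hF _ hv _ ?_ ?_
    · exact (hprim.pow_eq_one_iff_dvd _).2 hd'
    · intro k
      rw [(hprim.pow_eq_one_iff_dvd _).2 (hw' k), one_mul]
  have hg1 : g.natAbs = 1 := by
    rw [ht] at hprim
    exact hprim.unique IsPrimitiveRoot.one
  have h1 : (1 : ℤ) ∈ I := by
    rw [hg', hg1]
    exact Ideal.mem_span_singleton_self _
  rw [hI, Ideal.span, Submodule.mem_span_insert] at h1
  obtain ⟨α, z, hz, h1⟩ := h1
  rw [Submodule.mem_span_range_iff_exists_fun] at hz
  obtain ⟨β, hβ⟩ := hz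
  refine ⟨α, β, ?_⟩
  rw [h1, ← hβ]
  simp

/-- The multiplicities of the hyperplanes at the places of the function field are compatible with
the equations (the proof is that of `Pool.Agent.W33.CG.FRE.main`). -/
theorem compatU (X : Cover n q r) {U : Finset (Fin q)} (hfree : X.FreeU U) {K : Type} [Field K]
    [Algebra ℂ K] {x : Fin (n + 1) → K} {y : Fin r → K} (hK : X.FunctionField K x y)
    (hne : ∀ i, lf (X.ℓ i) x ≠ 0) (P : Place ℂ K) (a : ℤ) (v : Fin q → ℕ)
    (hord : ∀ i, P.ord (lf (X.ℓ i) x) = a + v i)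
    (hspan : Submodule.span ℂ (X.ℓ '' {i | v i ≠ 0}) ≠ ⊤)
    (hU : ∀ i ∈ U, X.ℓ i ∉ Submodule.span ℂ (X.ℓ '' {i | v i ≠ 0})) :
    (∃ x : Fin (n + 1) → ℂ, x ≠ 0 ∧ (∀ i, v i ≠ 0 → X.ℓ i x = 0) ∧ ∀ i ∈ U, X.ℓ i x ≠ 0) ∧
      ∀ k, X.m k ∣ ∑ i, X.e k i * v i := by
  obtain ⟨xb, hxb0, hxb, hxbU⟩ := exists_point {i | v i ≠ 0} U hspan hU
  have hd0 : (X.d : ℤ) ≠ 0 := by exact_mod_cast X.hd.ne'
  have key : ∀ k, (X.d : ℤ) * ∑ i, (X.e k i : ℤ) * (v i : ℤ) =
      (X.m k : ℤ) * ((X.d : ℤ) * P.ord (y k) - a * (X.w k : ℤ)) := by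
    intro k
    have h1 := Pool.Agent.W337.CG.main n q r X K x y hK k
    have h2 := congrArg P.ord h1
    rw [P.ord_pow, ord_prod' P Finset.univ _ (fun i _ => pow_ne_zero _ (hne i))] at h2
    have h3 : ∀ i, P.ord (lf (X.ℓ i) x ^ X.e k i) = (X.e k i : ℤ) * (a + (v i : ℤ)) := by
      intro i
      rw [P.ord_pow, hord i]
    rw [Finset.sum_congr rfl (fun i _ => h3 i)] at h2
    have h4 : ∑ i, (X.e k i : ℤ) * (a + (v i : ℤ)) =
        a * ∑ i, (X.e k i : ℤ) + ∑ i, (X.e k i : ℤ) * (v i : ℤ) := by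
      rw [Finset.mul_sum, ← Finset.sum_add_distrib]
      apply Finset.sum_congr rfl
      intro i _
      ring
    have h5 : (X.m k : ℤ) * (X.w k : ℤ) = (X.d : ℤ) * ∑ i, (X.e k i : ℤ) := by
      exact_mod_cast X.hom k
    rw [h4] at h2
    linear_combination (-(X.d : ℤ)) * h2 + a * h5
  have hda : (X.d : ℤ) ∣ a := by
    by_contra hnd
    set z : ℂ := Complex.exp ((2 * (Real.pi : ℂ) * Complex.I) * ((a : ℂ) / (X.d : ℂ))) with hz
    have hdC : (X.d : ℂ) ≠ 0 := by exact_mod_cast X.hd.ne'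
    have hzd : z ^ X.d = 1 := by
      rw [hz, ← Complex.exp_nat_mul, Complex.exp_eq_one_iff]
      refine ⟨a, ?_⟩
      have h3 : (X.d : ℂ) * ((2 * (Real.pi : ℂ) * Complex.I) * ((a : ℂ) / (X.d : ℂ))) =
          (2 * (Real.pi : ℂ) * Complex.I) * ((X.d : ℂ) * ((a : ℂ) / (X.d : ℂ))) := by ring
      rw [h3, mul_div_cancel₀ _ hdC]
      ring
    have hz1 : z ≠ 1 := by
      intro h1
      rw [hz, Complex.exp_eq_one_iff] at h1
      obtain ⟨N, hN⟩ := h1
      apply hnd
      refine ⟨N, ?_⟩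
      have h2 : (a : ℂ) = (X.d : ℂ) * (N : ℂ) := by
        have hpi : (2 * (Real.pi : ℂ) * Complex.I) ≠ 0 := Complex.two_pi_I_ne_zero
        have h3 : (2 * (Real.pi : ℂ) * Complex.I) * ((a : ℂ) / (X.d : ℂ)) =
            (2 * (Real.pi : ℂ) * Complex.I) * (N : ℂ) := by
          rw [hN]
          ring
        have h4 := mul_left_cancel₀ hpi h3
        rw [div_eq_iff hdC] at h4
        rw [h4]
        ring
      exact_mod_cast h2
    have hzw : ∀ k, (X.d : ℤ) ∣ a * (X.w k : ℤ) → z ^ X.w k = 1 := by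
      rintro k ⟨N, hN⟩
      rw [hz, ← Complex.exp_nat_mul, Complex.exp_eq_one_iff]
      refine ⟨N, ?_⟩
      have h2 : (a : ℂ) * (X.w k : ℂ) = (X.d : ℂ) * (N : ℂ) := by exact_mod_cast hN
      have h3 : (X.w k : ℂ) * ((2 * (Real.pi : ℂ) * Complex.I) * ((a : ℂ) / (X.d : ℂ))) =
          (2 * (Real.pi : ℂ) * Complex.I) * (((a : ℂ) * (X.w k : ℂ)) / (X.d : ℂ)) := by ring
      rw [h3, h2, mul_div_cancel_left₀ _ hdC]
      ring
    have hyb : ∀ k, ∃ t : ℂ, t ^ X.m k = ∏ i, X.ℓ i xb ^ X.e k i ∧ z ^ X.w k * t = t := by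
      intro k
      by_cases hk : (X.d : ℤ) ∣ a * (X.w k : ℤ)
      · obtain ⟨t, ht⟩ := IsAlgClosed.exists_pow_nat_eq (∏ i, X.ℓ i xb ^ X.e k i) (X.hm k)
        exact ⟨t, ht, by rw [hzw k hk, one_mul]⟩
      · have hsum : ∑ i, (X.e k i : ℤ) * (v i : ℤ) ≠ 0 := by
          intro h0
          have hk' := key k
          rw [h0, mul_zero] at hk'
          have hm0 : (X.m k : ℤ) ≠ 0 := by exact_mod_cast (X.hm k).ne'
          have h6 := (mul_eq_zero.mp hk'.symm).resolve_left hm0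
          apply hk
          exact ⟨P.ord (y k), by linarith⟩
        obtain ⟨i, _, hi⟩ := Finset.exists_ne_zero_of_sum_ne_zero hsum
        have hei : X.e k i ≠ 0 := by
          intro h0
          apply hi
          rw [h0]
          simp
        have hvi : v i ≠ 0 := by
          intro h0
          apply hi
          rw [h0]
          simp
        refine ⟨0, ?_, by rw [mul_zero]⟩
        rw [zero_pow (X.hm k).ne']
        symm
        apply Finset.prod_eq_zero (Finset.mem_univ i)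
        rw [hxb i hvi, zero_pow hei]
    choose yb hyb1 hyb2 using hyb
    exact hz1 (hfree (xb, yb) ⟨⟨hxb0, hyb1⟩, hxbU⟩ z hzd hyb2)
  obtain ⟨a', ha'⟩ := hda
  refine ⟨⟨xb, hxb0, hxb, hxbU⟩, ?_⟩
  intro k
  have h7 : (∑ i, (X.e k i : ℤ) * (v i : ℤ)) =
      (X.m k : ℤ) * (P.ord (y k) - a' * (X.w k : ℤ)) := by
    have hk := key k
    apply mul_left_cancel₀ hd0
    rw [hk, ha']
    ring
  have h8 : (X.m k : ℤ) ∣ ((∑ i, X.e k i * v i : ℕ) : ℤ) := by
    push_cast
    exact ⟨_, h7⟩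
  exact_mod_cast h8

/-- The multiplicities of the cover over the complement of the hyperplanes in `U`: whenever the
multiplicities `v i` of the hyperplanes are compatible with the equations of `X`, over a point of
projective space which is not on the hyperplanes in `U`, some `v i` is at least `m`. -/
def MultU (X : Cover n q r) (U : Finset (Fin q)) (m : ℕ) : Prop :=
  ∀ v : Fin q → ℕ, v ≠ 0 → (∃ x : Fin (n + 1) → ℂ, x ≠ 0 ∧ (∀ i, v i ≠ 0 → X.ℓ i x = 0) ∧
    ∀ i ∈ U, X.ℓ i x ≠ 0) → (∀ k, X.m k ∣ ∑ i, X.e k i * v i) → ∃ i, m ≤ v i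

theorem MultU.mono {X : Cover n q r} {U : Finset (Fin q)} {m m' : ℕ} (h : MultU X U m)
    (hm : m' ≤ m) : MultU X U m' := fun v h1 h2 h3 => by
  obtain ⟨i, hi⟩ := h v h1 h2 h3
  exact ⟨i, hm.trans hi⟩

/-- the multiplicities at the places of the complement -/
theorem good_of_multU {γ : Fin q → Fin c} (X : Cover n q r) {U : Finset (Fin q)}
    (hfree : X.FreeU U) {K : Type} [Field K]
    [Algebra ℂ K] {x : Fin (n + 1) → K} {y : Fin r → K} (hK : X.FunctionField K x y)
    (hγ : Function.Surjective γ)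
    (hU : c ≠ 1 → ∀ j, ∃ i ∈ U, γ i = j) {m : ℕ} (hm : MultU X U m) (P : Place ℂ K)
    (hP : ¬ OffD X.ℓ U x P) : GoodAt X.ℓ γ x m P := by
  have hne := (coords X hK).1
  rintro a v hord ⟨i1, hi1⟩
  have hreg : ∀ i ∈ U, v i = 0 := by
    intro i hi
    have h1 : ∀ j, Ge P (a + v i) (x j) := by
      intro j
      by_cases h0 : x j = 0
      · exact Or.inl h0
      · right
        rw [← hord i]
        by_contra hcon
        push Not at hcon
        exact hP ⟨i, hi, j, h0, hcon⟩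
    have h2 := ge_span P (a + v i) (Set.range (Pi.basisFun ℂ (Fin (n + 1))).dualBasis) x (by
      rintro _ ⟨j, rfl⟩
      have h3 : (Pi.basisFun ℂ (Fin (n + 1))).dualBasis j = (LinearMap.proj j : Form n) := by
        apply LinearMap.ext
        intro z
        rw [Basis.dualBasis_apply]
        simp
      rw [h3, lf_proj]
      exact h1 j) (X.ℓ i1) (by rw [Basis.span_eq]; trivial)
    rcases h2 with h2 | h2
    · exact absurd h2 (hne i1)
    · rw [hord i1, hi1] at h2
      push_cast at h2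
      omega
  have hspan : ∀ i, v i = 0 → X.ℓ i ∉ Submodule.span ℂ (X.ℓ '' {i | v i ≠ 0}) := by
    intro i hi hmem
    have h2 := ge_span P (a + 1) (X.ℓ '' {i | v i ≠ 0}) x (by
      rintro _ ⟨i', hi', rfl⟩
      right
      rw [hord]
      have h4 : v i' ≠ 0 := hi'
      omega) _ hmem
    rcases h2 with h2 | h2
    · exact absurd h2 (hne i)
    · rw [hord, hi] at h2
      push_cast at h2
      omega
  refine ⟨fun j => ?_, ?_⟩
  · by_cases hc : c = 1
    · subst hc
      exact ⟨i1, Subsingleton.elim _ _, hi1⟩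
    · obtain ⟨i, hi, hij⟩ := hU hc j
      exact ⟨i, hij, hreg i hi⟩
  · by_cases hv : v = 0
    · exact Or.inl hv
    · right
      obtain ⟨h1, h2⟩ := compatU X hfree hK hne P a v hord (fun h => hspan i1 hi1 (by
        rw [h]; trivial)) (fun i hi => hspan i (hreg i hi))
      exact hm v hv h1 h2

end Pool.Agent.TH766.MC
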