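import Pool.Agent.TH766.MC.Neg

/-!
Torus actions and the logarithmic Kodaira dimension.
-/

set_option autoImplicit false

open FF Module IntermediateField Pool.Agent.W603.LV Pool.Agent.W602.GT Pool.Agent.W602.Cov
open Pool.Agent.W602.Cov.Cover Pool.Agent.W602.Cov.G
open Pool.Agent.W168.CG.PGR Pool.Agent.TH152.AC

namespace Pool.Agent.TH766.MC

section

variable {k K : Type} [Field k] [Field K] [Algebra k K]

/-- **Torus actions** (the proof is that of `Pool.Agent.W602.GT.kod_le`). -/
theorem kod_le' [CharZero k] {w : ℕ} (htr : Algebra.trdeg k K = w) {Bd : Place k K → Prop} {p : ℕ}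
    (δ : Fin p → Derivation k K K) (σ : Fin p → K) (hσ0 : ∀ l, σ l ≠ 0)
    (hσ : ∀ l, δ l (σ l) = σ l) (htop : ∀ l, (consts (δ l))⟮σ l⟯ = ⊤)
    (hBd : ∀ l, ∀ P : Place k K, (∀ c : K, δ l c = 0 → c ≠ 0 → P.ord c = 0) →
      P.ord (σ l) = 0 → ¬ Bd P)
    (t : Fin p → K) (ht1 : ∀ l, δ l (t l) ≠ 0) (ht2 : ∀ l m, m ≠ l → δ l (t m) = 0) {h : ℕ}
    (hk : KodGe k K w Bd h) : h + p ≤ w := by
  classical
  have hK : CharZero K := charZero_of_injective_algebraMap (algebraMap k K).injective
  have hδ1 : ∀ l, ∀ N (ω ω' : (Fin w → Derivation k K K) → K), LogSec k K w N Bd ω →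
        LogSec k K w N Bd ω' → ∀ D', ω' D' ≠ 0 → δ l (ω D' / ω' D') = 0 := by
    intro l
    obtain ⟨D, hD, hconst, -⟩ := sec_const htr (Bd := Bd) (δ l) (hσ0 l) (hσ l) (htop l) (hBd l)
    intro N ω ω' hω hω' D' hne
    obtain ⟨M, hM⟩ := hD D'
    have h1 : ω D' = M.det ^ N * ω D := by rw [← hM, hω.1]
    have h2 : ω' D' = M.det ^ N * ω' D := by rw [← hM, hω'.1]
    have h3 : M.det ^ N ≠ 0 := by
      intro h0
      apply hne
      rw [h2, h0, zero_mul]
    have h4 : ω D ∈ consts (δ l) := hconst N ω hω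
    have h5 : ω' D ∈ consts (δ l) := hconst N ω' hω'
    have h6 : ω D' / ω' D' ∈ consts (δ l) := by
      rw [h1, h2, mul_div_mul_left _ _ h3]
      exact div_mem h4 h5
    exact h6
  obtain ⟨N, hN, ω, hω, D', hD', hind⟩ := hk
  have hf : ∀ l (i : Fin h), δ l (ω i.succ D' / ω 0 D') = 0 := fun l i =>
    hδ1 l N _ _ (hω _) (hω _) D' hD'
  -- extend the ratios to a transcendence basis
  have hindr : AlgebraicIndepOn k id (Set.range fun i : Fin h => ω i.succ D' / ω 0 D') :=
    hind.coe_range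
  obtain ⟨B, hB1, hB⟩ := exists_isTranscendenceBasis_superset hindr
  have hcard : Cardinal.mk B = (w : Cardinal) := by
    rw [← htr]
    exact hB.cardinalMk_eq_trdeg
  have hfinB : B.Finite := by
    rw [← Set.finite_coe_iff, ← Cardinal.lt_aleph0_iff_finite, hcard]
    exact Cardinal.natCast_lt_aleph0
  set R := Set.range fun i : Fin h => ω i.succ D' / ω 0 D' with hR
  have hfin2 : Finite (B \ R : Set K) := (hfinB.subset Set.sdiff_subset).to_subtype
  obtain ⟨q, ⟨ψ⟩⟩ := Finite.exists_equiv_fin (B \ R : Set K)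
  have hq : h + q = w := by
    have e1 : R ≃ Fin h := (Equiv.ofInjective _ hind.injective).symm
    have h1 := Cardinal.mk_congr (Equiv.Set.sumDiffSubset hB1)
    rw [hcard, Cardinal.mk_sum, Cardinal.mk_congr e1, Cardinal.mk_congr ψ] at h1
    simp only [Cardinal.mk_fin, Cardinal.lift_natCast] at h1
    exact_mod_cast h1
  by_contra hcon
  push Not at hcon
  have hqp : q < p := by omega
  let L : (Fin p → K) →ₗ[K] (Fin q → K) :=
    { toFun := fun c i => ∑ l, c l * δ l ((ψ.symm i : (B \ R : Set K)) : K)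
      map_add' := by
        intro c c'
        funext i
        simp only [Pi.add_apply, add_mul, Finset.sum_add_distrib]
      map_smul' := by
        intro a c
        funext i
        simp only [Pi.smul_apply, smul_eq_mul, RingHom.id_apply, mul_assoc, Finset.mul_sum] }
  have hker : LinearMap.ker L ≠ ⊥ := LinearMap.ker_ne_bot_of_finrank_lt (by
    rw [Module.finrank_fin_fun, Module.finrank_fin_fun]
    exact hqp)
  obtain ⟨c, hc, hc0⟩ := Submodule.exists_mem_ne_zero_of_ne_bot hker
  have hLc : L c = 0 := hc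
  let D : Derivation k K K := ∑ l, c l • δ l
  have hDval : ∀ z, D z = ∑ l, c l * δ l z := by
    intro z
    have h0 : ∀ (s : Finset (Fin p)), (∑ l ∈ s, c l • δ l) z = ∑ l ∈ s, c l * δ l z := by
      intro s
      induction s using Finset.induction_on with
      | empty => simp
      | insert l s hl ih =>
        rw [Finset.sum_insert hl, Finset.sum_insert hl, Derivation.add_apply, ih]
        rfl
    exact h0 _
  have hD0 : D = 0 := by
    apply der_ext _ hB
    intro z
    rw [Derivation.zero_apply]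
    by_cases hz : (z : K) ∈ R
    · obtain ⟨i, hi⟩ := hz
      rw [← hi, hDval]
      exact Finset.sum_eq_zero fun l _ => by rw [hf l i, mul_zero]
    · have h1 := congrFun hLc (ψ ⟨z, z.2, hz⟩)
      change ∑ l, c l * δ l ((ψ.symm (ψ ⟨z, z.2, hz⟩) : (B \ R : Set K)) : K) = 0 at h1
      rw [Equiv.symm_apply_apply] at h1
      rw [hDval]
      exact h1
  apply hc0
  funext l
  have h1 := hDval (t l)
  rw [hD0, Derivation.zero_apply, Finset.sum_eq_single l] at h1
  · exact (mul_eq_zero.1 h1.symm).resolve_right (ht1 l)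
  · intro m _ hm
    rw [ht2 m l hm.symm, mul_zero]
  · intro h2
    exact absurd (Finset.mem_univ _) h2

end

variable {n q r c : ℕ} {K : Type} [Field K] [Algebra ℂ K]

/-- **The upper bound.** -/
theorem kod_le_of_splits (X : Cover n q r) (hF : Prim X) {x : Fin (n + 1) → K}
    {y : Fin r → K} (hK : X.FunctionField K x y) (D : Set (Fin q)) (h : Splits X.ℓ c) {m : ℕ}
    (hk : KodGe ℂ K n (OffD X.ℓ D x) m) : m + c ≤ n + 1 := by
  obtain ⟨hφ0, -, -, -⟩ := Pool.Agent.W352.CG.TRA.main n q r X K x y hK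
  have hbas := (coords X hK).2.2
  obtain ⟨e, g, hg, hs⟩ := h
  have hco : ∀ a, co e x a ≠ 0 := fun a => hφ0 _ (e.dualBasis.ne_zero a)
  have hchar : CharZero K := charZero_of_injective_algebraMap (algebraMap ℂ K).injective
  obtain ⟨p, rfl⟩ : ∃ p, c = p + 1 := by
    have := (g 0).pos
    exact ⟨c - 1, by omega⟩
  choose pr hpr using hg
  have hp : ∀ l : Fin p, ∃ (δ : Derivation ℂ K K) (σ : K) (N : ℤ), σ ≠ 0 ∧ δ σ = σ ∧
      (consts δ)⟮σ⟯ = ⊤ ∧ 0 < N ∧
      (∀ a b, δ (co e x a / co e x b) / (co e x a / co e x b) =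
        N * (ev {a | g a = l.succ} a - ev {a | g a = l.succ} b)) ∧
      ∀ P : Place ℂ K, (∀ c : K, δ c = 0 → c ≠ 0 → P.ord c = 0) →
        P.ord σ = 0 → ¬ OffD X.ℓ D x P := by
    intro l
    have ha1 : pr l.succ ∈ {a | g a = l.succ} := hpr _
    have ha2 : pr 0 ∉ {a | g a = l.succ} := by
      intro h
      have h1 : g (pr 0) = l.succ := h
      rw [hpr] at h1
      exact Fin.succ_ne_zero _ h1.symm
    have hs' : ∀ i, (∀ a ∈ {a | g a = l.succ}, X.ℓ i (e a) = 0) ∨
        (∀ a, a ∉ {a | g a = l.succ} → X.ℓ i (e a) = 0) := by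
      intro i
      obtain ⟨j, hj⟩ := hs i
      by_cases hjl : j = l.succ
      · exact Or.inr fun a ha => hj a fun h => ha (h.trans hjl)
      · exact Or.inl fun a ha => hj a fun h => hjl (h.symm.trans ha)
    obtain ⟨δ, σ, N, hσ0, hσ, htop, hN, hld, -⟩ := delta_cover X hF hK e _ ha1 ha2 hs'
    exact ⟨δ, σ, N, hσ0, hσ, htop, hN, hld, fun P hP hPσ =>
      not_off0 (fun i => hφ0 _ (X.hℓ i)) hco hσ0 hσ hld ha1 ha2 hs' hP hPσ⟩
  choose δ σ N hσ0 hσ htop hN hld hBd using hp
  have key : ∀ l m : Fin p, δ l (co e x (pr m.succ) / co e x (pr 0)) =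
      N l * (if m = l then 1 else 0) * (co e x (pr m.succ) / co e x (pr 0)) := by
    intro l m
    have h1 := hld l (pr m.succ) (pr 0)
    rw [div_eq_iff (div_ne_zero (hco _) (hco _))] at h1
    rw [h1]
    have h2 : ev {a | g a = l.succ} (pr 0) = 0 := ev_neg fun h => by
      have h1 : g (pr 0) = l.succ := h
      rw [hpr] at h1
      exact Fin.succ_ne_zero _ h1.symm
    have h3 : ev {a | g a = l.succ} (pr m.succ) = if m = l then 1 else 0 := by
      by_cases hml : m = l
      · rw [if_pos hml, ev_pos]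
        rw [← hml]
        exact hpr _
      · rw [if_neg hml, ev_neg]
        intro h
        have h4 : g (pr m.succ) = l.succ := h
        rw [hpr] at h4
        exact hml (Fin.succ_injective _ h4)
    rw [h2, h3]
    push_cast
    ring
  have h1 := kod_le' (trdeg_of_basis hbas) δ σ hσ0 hσ htop hBd
    (fun m => co e x (pr m.succ) / co e x (pr 0)) (fun l => by
      rw [key, if_pos rfl, mul_one]
      have h1 : (N l : K) ≠ 0 := by exact_mod_cast (hN l).ne'
      exact mul_ne_zero h1 (div_ne_zero (hco _) (hco _))) (fun l m hml => by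
      rw [key, if_neg hml, mul_zero, zero_mul]) hk
  omega

end Pool.Agent.TH766.MC
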