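import Pool.Agent.TH766.MC.Fu

/-!
Covers of arrangements without free part are not `A¹`-uniruled.
-/

set_option autoImplicit false

open FF Module IntermediateField Pool.Agent.W603.LV Pool.Agent.W602.GT Pool.Agent.W602.Cov
open Pool.Agent.W602.Cov.Cover Pool.Agent.W602.Cov.G
open Pool.Agent.W168.CG.PGR Pool.Agent.TH152.AC

namespace Pool.Agent.TH766.MC

variable {n q c : ℕ} {ℓ : Fin q → Form n} {γ : Fin q → Fin c} {K : Type} [Field K] [Algebra ℂ K]

theorem pf_log (hspan : Submodule.span ℂ (Set.range ℓ) = ⊤) {p : Bases ℓ → ℕ}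
    {R : ℕ} (hp : Wt ℓ (Fam ℓ γ) R p) {x : Fin (n + 1) → K}
    (hlx : ∀ i, lf (ℓ i) x ≠ 0) (P : Place ℂ K) : LogAt P (pf ℓ x p 1) := by
  obtain ⟨B0⟩ := exists_bases hspan
  have i0 : Fin q := B0.1 0
  intro D hD
  obtain ⟨a, v, -, -, -, c, hc, -, hc2, -⟩ :=
    pf_ord2' hp hspan 1 hlx P i0 D 0 (log0 P hD).1 (log0 P hD).2
  refine hc.mono ?_
  simpa using hc2

theorem pf_reg (hB : Blocks ℓ γ) (hspan : Submodule.span ℂ (Set.range ℓ) = ⊤) {p : Bases ℓ → ℕ}
    {R : ℕ} (hR : 1 ≤ R) (hp : Wt ℓ (Fam ℓ γ) R p) {x : Fin (n + 1) → K}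
    (hlx : ∀ i, lf (ℓ i) x ≠ 0) {P : Place ℂ K} (hP : GoodAt ℓ γ x R P) :
    RegAt P (pf ℓ x p 1) := by
  obtain ⟨B0⟩ := exists_bases hspan
  have i0 : Fin q := B0.1 0
  have hN : (1 : ℤ) ≤ ∑ B, (p B : ℤ) := by exact_mod_cast hp.1
  intro D hD
  obtain ⟨a, v, hv0, hv, -, c, hc, hc1, hc2, hc3⟩ :=
    pf_ord2' hp hspan 1 hlx P i0 D 1 (reg1 P hD).1 (reg1 P hD).2
  refine hc.mono ?_
  obtain ⟨v', m, hdec, hm, -⟩ := hB.dec hspan hlx P hv
  obtain ⟨h1, h2⟩ := hP.eq hv hv0 hm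
  rcases h2 with h2 | ⟨i, hi⟩
  · exact hc1 h2
  · have h3 := hc3 v' hdec i
    rw [h1] at h3
    push_cast at h3
    have hi' : (R : ℤ) ≤ v i := by exact_mod_cast hi
    have h4 : (∑ B, (p B : ℤ)) * R ≤ (∑ B, (p B : ℤ)) * v i :=
      mul_le_mul_of_nonneg_left hi' (by linarith)
    have hR' : (0 : ℤ) < R := by exact_mod_cast hR
    by_contra hneg
    push Not at hneg
    have h5 : (R : ℤ) * c < 0 := mul_neg_of_pos_of_neg hR' hneg
    linarith

/-- multiplicities at a place over a good place -/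
theorem good_over {K' : Type} [Field K'] [Algebra ℂ K'] (φ : K →ₐ[ℂ] K') {x : Fin (n + 1) → K}
    {R : ℕ} {P : Place ℂ K'} {v0 : Place ℂ K} {e : ℕ} (he : 0 < e)
    (hlx : ∀ i, lf (ℓ i) x ≠ 0) (hlf : ∀ i, lf (ℓ i) (fun j => φ (x j)) = φ (lf (ℓ i) x))
    (hover : ∀ f, P.ord (φ f) = e * v0.ord f) (h : GoodAt ℓ γ x R v0) :
    GoodAt ℓ γ (fun j => φ (x j)) R P := by
  rintro a v hord ⟨i1, hi1⟩
  obtain ⟨i2, -, hmin⟩ := Finset.exists_min_image Finset.univ (fun i => v0.ord (lf (ℓ i) x))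
    ⟨i1, Finset.mem_univ _⟩
  have he' : (0 : ℤ) < e := by exact_mod_cast he
  let u : Fin q → ℕ := fun i => (v0.ord (lf (ℓ i) x) - v0.ord (lf (ℓ i2) x)).toNat
  have hu : ∀ i, v0.ord (lf (ℓ i) x) = v0.ord (lf (ℓ i2) x) + u i := by
    intro i
    have h1 := hmin i (Finset.mem_univ i)
    have h2 : (u i : ℤ) = v0.ord (lf (ℓ i) x) - v0.ord (lf (ℓ i2) x) := by
      show (((v0.ord (lf (ℓ i) x) - v0.ord (lf (ℓ i2) x)).toNat : ℕ) : ℤ) = _
      rw [Int.toNat_of_nonneg]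
      linarith
    rw [h2]
    ring
  have hu2 : u i2 = 0 := by
    have := hu i2
    omega
  have hv : ∀ i, a + v i = e * (v0.ord (lf (ℓ i2) x) + u i) := by
    intro i
    rw [← hord i, hlf i, hover, hu i]
  have hui1 : u i1 = 0 := by
    have h1 := hv i1
    have h2 := hv i2
    rw [hi1] at h1
    rw [hu2] at h2
    push_cast at h1 h2
    have h3 : (e : ℤ) * u i1 = - v i2 := by linarith
    by_contra hne
    have h4 : (0 : ℤ) < u i1 := by
      have : 0 < u i1 := Nat.pos_of_ne_zero hne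
      exact_mod_cast this
    have h5 := mul_pos he' h4
    have h6 : (0 : ℤ) ≤ v i2 := by positivity
    omega
  have hvu : ∀ i, v i = e * u i := by
    intro i
    have h1 := hv i1
    have h2 := hv i
    rw [hi1, hui1] at h1
    push_cast at h1
    have h3 : (v i : ℤ) = e * u i := by linarith
    exact_mod_cast h3
  obtain ⟨h1, h2⟩ := h _ u hu ⟨i2, hu2⟩
  refine ⟨fun j => ?_, ?_⟩
  · obtain ⟨i, hi, hi0⟩ := h1 j
    exact ⟨i, hi, by rw [hvu, hi0, mul_zero]⟩
  · rcases h2 with h2 | ⟨i, hi⟩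
    · left
      funext i
      rw [hvu, h2]
      simp
    · right
      refine ⟨i, hi.trans ?_⟩
      rw [hvu]
      exact Nat.le_mul_of_pos_left _ he

theorem not_a1 (hB : Blocks ℓ γ) (hspan : Submodule.span ℂ (Set.range ℓ) = ⊤) {p : Bases ℓ → ℕ}
    {R : ℕ} (hR : 1 ≤ R) (hp : Wt ℓ (Fam ℓ γ) R p) {x : Fin (n + 1) → K}
    (hlx : ∀ i, lf (ℓ i) x ≠ 0) (hx0 : x 0 ≠ 0)
    (hbas : IsTranscendenceBasis ℂ (fun j : Fin n => x j.succ / x 0)) (Bd : Place ℂ K → Prop)
    (hP : ∀ P : Place ℂ K, ¬ Bd P → GoodAt ℓ γ x R P) :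
    ¬ Pool.Agent.W619.PL.IsA1Uniruled ℂ K n Bd := by
  classical
  rintro ⟨M, iF, iA, φ, hess, htr, hA⟩
  have hlf : ∀ ψ : Form n, lf ψ (fun j => φ (x j)) = φ (lf ψ x) := by
    intro ψ
    unfold lf
    rw [map_sum]
    refine Finset.sum_congr rfl fun j _ => ?_
    rw [map_mul, φ.commutes]
  have hlx' : ∀ i, lf (ℓ i) (fun j => φ (x j)) ≠ 0 := fun i => by
    rw [hlf]
    exact (map_ne_zero φ).2 (hlx i)
  have hx0' : φ (x 0) ≠ 0 := (map_ne_zero φ).2 hx0
  have hXM : Transcendental M (RatFunc.X : RatFunc M) := RatFunc.transcendental_X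
  have htopM : M⟮(RatFunc.X : RatFunc M)⟯ = ⊤ := RatFunc.adjoin_X
  have hfin : FiniteDimensional M⟮(RatFunc.X : RatFunc M)⟯ (RatFunc M) := by
    have h1 : Module.Finite M⟮(RatFunc.X : RatFunc M)⟯ (RatFunc M) := by
      refine ⟨⟨{1}, ?_⟩⟩
      rw [eq_top_iff]
      intro z _
      have hz : z ∈ M⟮(RatFunc.X : RatFunc M)⟯ := by rw [htopM]; exact mem_top
      rw [Finset.coe_singleton, Submodule.mem_span_singleton]
      exact ⟨⟨z, hz⟩, by rw [Algebra.smul_def, mul_one]; rfl⟩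
    exact h1
  have hFF : IsFF M (RatFunc M) := IsFF.of_finite hXM hfin
  have htr' : Algebra.trdeg ℂ (RatFunc M) = n := by
    have h1 := _root_.trdeg_add_eq ℂ M (A := RatFunc M)
    rw [hFF.trdeg, htr] at h1
    exact h1.symm
  have hbas' : IsTranscendenceBasis ℂ (fun j : Fin n => φ (x j.succ) / φ (x 0)) := by
    have h1 : AlgebraicIndependent ℂ (fun j : Fin n => φ (x j.succ) / φ (x 0)) := by
      have h2 := hbas.1.map' (f := φ) φ.injective
      convert h2 using 1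
      funext j
      simp
    apply h1.isTranscendenceBasis_of_lift_trdeg_le_of_finite
    rw [htr']
    simp
  have hcM : CharZero M := charZero_of_injective_algebraMap (algebraMap ℂ M).injective
  obtain ⟨D0, hD0⟩ := Pool.Agent.W602.GT.exists_der (L := M) (fun _ : Unit => (RatFunc.X : RatFunc M))
    (IsFF.basis hXM) (fun _ => RatFunc.X)
  let δ : Derivation ℂ (RatFunc M) (RatFunc M) := D0.restrictScalars ℂ
  have hδX : δ RatFunc.X = RatFunc.X := hD0 ()
  have hδM : ∀ c : M, δ (algebraMap M (RatFunc M) c) = 0 := fun c => D0.map_algebraMap c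
  have htop : (consts δ)⟮(RatFunc.X : RatFunc M)⟯ = ⊤ := by
    rw [eq_top_iff]
    intro f _
    have hf : f ∈ M⟮(RatFunc.X : RatFunc M)⟯ := by rw [htopM]; exact mem_top
    induction hf using IntermediateField.adjoin_induction with
    | mem x hx =>
      rw [Set.mem_singleton_iff] at hx
      rw [hx]
      exact IntermediateField.mem_adjoin_simple_self _ _
    | algebraMap c =>
      exact (consts δ)⟮(RatFunc.X : RatFunc M)⟯.algebraMap_mem ⟨algebraMap M (RatFunc M) c, hδM c⟩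
    | add x y _ _ hx hy => exact add_mem (hx mem_top) (hy mem_top)
    | inv x _ hx => exact inv_mem (hx mem_top)
    | mul x y _ _ hx hy => exact mul_mem (hx mem_top) (hy mem_top)
  let Bd' : Place ℂ (RatFunc M) → Prop := fun P =>
    ¬ ((∀ c : M, c ≠ 0 → P.ord (algebraMap M (RatFunc M) c) = 0) ∧ 0 ≤ P.ord RatFunc.X)
  have htriv : ∀ P : Place ℂ (RatFunc M), (∀ c, δ c = 0 → c ≠ 0 → P.ord c = 0) →
      ∀ c : M, c ≠ 0 → P.ord (algebraMap M (RatFunc M) c) = 0 := fun P h c hc =>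
    h _ (hδM c) ((map_ne_zero _).2 hc)
  obtain ⟨D, hD, -, hneg⟩ := sec_const htr' (Bd := Bd') δ RatFunc.X_ne_zero hδX htop
    fun P h1 h2 h3 => h3 ⟨htriv P h1, h2.ge⟩
  have hgood : ∀ P : Place ℂ (RatFunc M), ¬ Bd' P → GoodAt ℓ γ (fun j => φ (x j)) R P := by
    intro P hPB
    have hPB' : (∀ c : M, c ≠ 0 → P.ord (algebraMap M (RatFunc M) c) = 0) ∧
        0 ≤ P.ord RatFunc.X := not_not.1 hPB
    by_cases hnt : ∃ f : K, P.ord (φ f) ≠ 0
    · let _ : Algebra K (RatFunc M) := φ.toRingHom.toAlgebra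
      have _ : IsScalarTower ℂ K (RatFunc M) := IsScalarTower.of_algebraMap_eq fun c =>
        (φ.commutes c).symm
      obtain ⟨f, hf⟩ := hnt
      obtain ⟨e, v0, he, hover⟩ := exists_over (K := K) P ⟨f, hf⟩
      let w : Place M (RatFunc M) :=
        { ord := P.ord
          ord_zero := P.ord_zero
          ord_mul := fun {f g} hf hg => P.ord_mul hf hg
          ord_add := fun {f g} hf hg hfg => P.ord_add hf hg hfg
          ord_const := fun {c} hc => hPB'.1 c hc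
          surj := P.surj }
      have h1 : ¬ Bd v0 := hA w (Or.inr hPB'.2) v0 e he hover
      exact good_over φ he hlx (fun i => hlf _) hover (hP v0 h1)
    · push Not at hnt
      rintro a v hord ⟨i1, hi1⟩
      have h0 : ∀ i, a + v i = 0 := fun i => by rw [← hord i, hlf, hnt]
      have ha : a = 0 := by
        have := h0 i1
        rw [hi1] at this
        simpa using this
      have hv : v = 0 := by
        funext i
        have := h0 i
        rw [ha] at this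
        simpa using this
      refine ⟨fun j => ?_, Or.inl hv⟩
      obtain ⟨i, hi⟩ := hB.surj j
      exact ⟨i, hi, by rw [hv]; rfl⟩
  have hp0 := hp.1
  have hω : LogSec ℂ (RatFunc M) n (1 * ∑ B, p B) Bd' (pf ℓ (fun j => φ (x j)) p 1) :=
    ⟨pf_pluri _ p 1, fun P _ => pf_log hspan hp hlx' P, fun P _ hPB =>
      pf_reg hB hspan hR hp hlx' (hgood P hPB)⟩
  have hz := hneg (fun P h1 h2 h3 => h3 ⟨htriv P h1, h2.le⟩) _ (by omega) _ hω
  obtain ⟨D', hD'⟩ := (bwb n (RatFunc M)).2.2 (fun j => φ (x j)) hx0' hbas'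
  have hne : pf ℓ (fun j => φ (x j)) p 1 D' ≠ 0 := by
    unfold pf
    exact div_ne_zero (pow_ne_zero _ hD') (den_ne hlx' p 1)
  obtain ⟨A, hA'⟩ := hD D'
  apply hne
  rw [← hA', pf_pluri, hz, mul_zero]

end Pool.Agent.TH766.MC
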