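import Pool.Agent.TH766.MC.NegB

/-!
`A¹`-uniruledness of open covers of arrangements with a free part.
-/

set_option autoImplicit false

open FF Module IntermediateField Pool.Agent.W603.LV Pool.Agent.W602.GT Pool.Agent.W602.Cov
open Pool.Agent.W602.Cov.Cover Pool.Agent.W602.Cov.G
open Pool.Agent.W168.CG.PGR Pool.Agent.TH152.AC

namespace Pool.Agent.TH766.MC

theorem alg_map {A B K : Type} [Field A] [Field B] [Field K] [Algebra A K] [Algebra B K]
    (j : A →+* B) (hj : ∀ a, algebraMap B K (j a) = algebraMap A K a) {z : K}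
    (hz : IsAlgebraic A z) : IsAlgebraic B z := by
  obtain ⟨P, hP0, hP⟩ := hz
  refine ⟨P.map j, (Polynomial.map_ne_zero_iff j.injective).2 hP0, ?_⟩
  rw [Polynomial.aeval_def, Polynomial.eval₂_map]
  have h1 : (algebraMap B K).comp j = algebraMap A K := RingHom.ext hj
  rw [h1]
  exact hP

variable {n q r : ℕ} {K : Type} [Field K] [Algebra ℂ K]

theorem a1_of_delta (htr : Algebra.trdeg ℂ K = n) {Bd : Place ℂ K → Prop}
    (δ : Derivation ℂ K K) {σ : K} (hσ0 : σ ≠ 0) (hσ : δ σ = σ) (E : IntermediateField ℂ K)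
    (hfg : E.FG) (hE : E ≤ consts δ) (htop : E⟮σ⟯ = ⊤)
    (hBd : ∀ P : Place ℂ K, (∀ c : K, δ c = 0 → c ≠ 0 → P.ord c = 0) → 0 ≤ P.ord σ → ¬ Bd P) :
    Pool.Agent.W619.PL.IsA1Uniruled ℂ K n Bd := by
  classical
  have hcontr : ¬ IsAlgebraic (consts δ) σ := by
    intro h
    have h1 := der_of_alg δ h
    rw [hσ] at h1
    exact hσ0 h1
  have hσt : Transcendental E σ := fun h => hcontr (alg_map (inclusion hE).toRingHom (fun _ => rfl) h)
  have hfin : FiniteDimensional E⟮σ⟯ K := by
    have h1 : Module.Finite E⟮σ⟯ K := by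
      refine ⟨⟨{1}, ?_⟩⟩
      rw [eq_top_iff]
      intro z _
      have hz : z ∈ E⟮σ⟯ := by rw [htop]; exact mem_top
      rw [Finset.coe_singleton, Submodule.mem_span_singleton]
      exact ⟨⟨z, hz⟩, by rw [Algebra.smul_def, mul_one]; rfl⟩
    exact h1
  have hFF : IsFF E K := IsFF.of_finite hσt hfin
  have htr2 : Algebra.trdeg ℂ E + 1 = n := by
    have h1 := _root_.trdeg_add_eq ℂ E (A := K)
    rw [hFF.trdeg, htr] at h1
    exact h1
  have hess : Algebra.EssFiniteType ℂ E := (IntermediateField.essFiniteType_iff).2 hfg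
  let e1 : RatFunc E ≃ₐ[E] E⟮σ⟯ := RatFunc.algEquivOfTranscendental σ hσt
  let e2 : E⟮σ⟯ ≃ₐ[E] K := (equivOfEq htop).trans topEquiv
  let e3 : RatFunc E ≃ₐ[E] K := e1.trans e2
  have he3 : e3 RatFunc.X = σ := by
    change e2 (e1 RatFunc.X) = σ
    have : e1 RatFunc.X = AdjoinSimple.gen E σ := by
      rw [← RatFunc.algebraMap_X]
      change RatFunc.algEquivOfTranscendental σ hσt
        (algebraMap (Polynomial E) (RatFunc E) Polynomial.X) = _
      rw [RatFunc.algEquivOfTranscendental_algebraMap]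
      apply Subtype.ext
      simp
    rw [this]
    rfl
  refine ⟨E, inferInstance, inferInstance,
    ((e3.symm.restrictScalars ℂ : K ≃ₐ[ℂ] RatFunc E) : K →ₐ[ℂ] RatFunc E), hess, htr2, ?_⟩
  intro w hw v e he hwv
  have hwv' : ∀ f : K, w.ord (e3.symm f) = e * v.ord f := hwv
  refine hBd v (fun c hc hc0 => ?_) ?_
  · by_contra hne
    have h1 : w.ord (e3.symm c) ≠ 0 := by
      rw [hwv']
      have : (e : ℤ) ≠ 0 := by exact_mod_cast he.ne'
      exact mul_ne_zero this hne
    have h2 : Transcendental E (e3.symm c) := w.transcendental_of_ord_ne h1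
    have h3 : Transcendental E c := by
      intro h
      exact h2 (h.algHom (e3.symm : K →ₐ[E] RatFunc E))
    have h4 := (IsFF.isAlgebraic h3).isAlgebraic σ
    apply hcontr
    have hle : ∀ a ∈ E⟮c⟯, a ∈ consts δ := by
      have h5 : E⟮c⟯ ≤ IntermediateField.extendScalars hE := by
        rw [IntermediateField.adjoin_le_iff]
        rintro _ rfl
        exact hc
      exact fun a ha => h5 ha
    exact alg_map ((algebraMap E⟮c⟯ K).codRestrict (consts δ) (fun a => hle _ a.2)) (fun _ => rfl) h4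
  · have h1 := hwv' σ
    have h2 : e3.symm σ = RatFunc.X := by rw [← he3, AlgEquiv.symm_apply_apply]
    rw [h2] at h1
    have h3 : 0 ≤ w.ord RatFunc.X := by
      rcases hw with h | h
      · exact absurd h RatFunc.X_ne_zero
      · exact h
    rw [h1] at h3
    have : (0 : ℤ) < e := by exact_mod_cast he
    by_contra hcon
    push Not at hcon
    have := mul_neg_of_pos_of_neg this hcon
    omega

/-- **Free parts.** The open cover is `A¹`-uniruled. -/
theorem a1_of_freePart (X : Cover n q r) (hF : Prim X) {x : Fin (n + 1) → K}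
    {y : Fin r → K} (hK : X.FunctionField K x y) {D : Set (Fin q)} (h : FreePart X.ℓ D) :
    Pool.Agent.W619.PL.IsA1Uniruled ℂ K n (OffD X.ℓ D x) := by
  obtain ⟨hφ0, -, -, -⟩ := Pool.Agent.W352.CG.TRA.main n q r X K x y hK
  have hbas := (coords X hK).2.2
  obtain ⟨e, s, a1, a2, ha1, ha2, hs, hD⟩ := h.basis
  obtain ⟨δ, σ, N, hσ0, hσ, htop, hN, hld, E, hE1, hE2, hE3⟩ := delta_cover X hF hK e s ha1 ha2 hs
  exact a1_of_delta (trdeg_of_basis hbas) δ hσ0 hσ E hE1 hE2 hE3 fun P hP hPσ =>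
    not_off (fun i => hφ0 _ (X.hℓ i)) (fun a => hφ0 _ (e.dualBasis.ne_zero a)) hσ0 hσ hN hld ha2
      hD hP hPσ

end Pool.Agent.TH766.MC
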