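import Pool.Agent.TH766.MC.Ex2
import Pool.Agent.TH766.MC.Wts

/-!
Arrangements which are decomposed into blocks.
-/

set_option autoImplicit false

open FF Module Pool.Agent.W603.LV Pool.Agent.W602.GT Pool.Agent.W602.Cov Pool.Agent.W602.Cov.G
open Pool.Agent.W168.CG.PGR Pool.Agent.TH152.AC

namespace Pool.Agent.TH766.MC

variable {n q c : ℕ} {ℓ : Fin q → Form n} {γ : Fin q → Fin c}

/-- `γ i` is the block of the hyperplane `i`: the space of forms is the direct sum of the images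
of projections `π j`, and `ℓ i` is in the image of `π (γ i)` -/
structure Blocks (ℓ : Fin q → Form n) (γ : Fin q → Fin c) : Prop where
  proj : ∃ π : Fin c → (Form n →ₗ[ℂ] Form n), ∀ i j, π j (ℓ i) = if γ i = j then ℓ i else 0
  surj : Function.Surjective γ
  ne : ∀ i, ℓ i ≠ 0

theorem Blocks.supp (h : Blocks ℓ γ) (B : Bases ℓ) (i : Fin q) :
    ∀ a ∈ sp ℓ (bas B) i, γ (B.1 a) = γ i := by
  classical
  obtain ⟨π, hπ⟩ := h.proj
  intro a ha
  by_contra hne
  have h1 : ℓ i = ∑ a', (bas B).repr (ℓ i) a' • ℓ (B.1 a') := by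
    conv_lhs => rw [← (bas B).sum_repr (ℓ i)]
    refine Finset.sum_congr rfl fun a' _ => ?_
    rw [bas_apply]
  have h2 := congrArg (π (γ (B.1 a))) h1
  rw [hπ, if_neg (fun h => hne h.symm), map_sum] at h2
  simp only [map_smul, hπ] at h2
  have h3 : ∑ a', (if γ (B.1 a') = γ (B.1 a) then (bas B).repr (ℓ i) a' else 0) • ℓ (B.1 a') = 0 := by
    rw [h2]
    refine Finset.sum_congr rfl fun a' _ => ?_
    split_ifs <;> simp
  have h4 := Fintype.linearIndependent_iff.1 B.2 _ h3 a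
  rw [if_pos rfl] at h4
  exact (mem_sp.1 ha) h4

theorem Blocks.card_eq (h : Blocks ℓ γ) (B B' : Bases ℓ) (j : Fin c) :
    (cp B.1 γ j).card = (cp B'.1 γ j).card := by
  classical
  obtain ⟨π, hπ⟩ := h.proj
  have key : ∀ B : Bases ℓ, finrank ℂ (LinearMap.range (π j)) = (cp B.1 γ j).card := by
    intro B
    have h1 : LinearMap.range (π j) = Submodule.span ℂ (Set.range fun a : cp B.1 γ j => ℓ (B.1 a)) := by
      apply le_antisymm
      · rintro _ ⟨φ, rfl⟩
        rw [← (bas B).sum_repr φ, map_sum]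
        refine Submodule.sum_mem _ fun a _ => ?_
        rw [map_smul, bas_apply, hπ]
        refine Submodule.smul_mem _ _ ?_
        split_ifs with hj
        · exact Submodule.subset_span ⟨⟨a, mem_cp.2 hj⟩, rfl⟩
        · exact Submodule.zero_mem _
      · rw [Submodule.span_le]
        rintro _ ⟨a, rfl⟩
        refine ⟨ℓ (B.1 a), ?_⟩
        rw [hπ, if_pos (mem_cp.1 a.2)]
    have h2 : LinearIndependent ℂ fun a : cp B.1 γ j => ℓ (B.1 a) :=
      B.2.comp (fun a : cp B.1 γ j => (a : Fin (n + 1))) Subtype.val_injective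
    rw [h1, finrank_span_eq_card h2, Fintype.card_coe]
  rw [← key B, ← key B']

theorem Blocks.cp_ne (h : Blocks ℓ γ) (B : Bases ℓ) (j : Fin c) : (cp B.1 γ j).Nonempty := by
  obtain ⟨i, hi⟩ := h.surj j
  have hne : (sp ℓ (bas B) i).Nonempty := by
    rw [Finset.nonempty_iff_ne_empty]
    intro h0
    apply h.ne i
    apply (bas B).repr.injective
    ext a
    rw [map_zero, Finsupp.zero_apply]
    by_contra hne
    have h1 : a ∈ sp ℓ (bas B) i := mem_sp.2 hne
    rw [h0] at h1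
    simp at h1
  obtain ⟨a, ha⟩ := hne
  exact ⟨a, mem_cp.2 ((h.supp B i a ha).trans hi)⟩

theorem Blocks.dir (h : Blocks ℓ γ) {F : Finset (Fin q)} {i : Fin q}
    (hi : ℓ i ∈ Submodule.span ℂ (ℓ '' (F : Set (Fin q)))) :
    ℓ i ∈ Submodule.span ℂ (ℓ '' {i' | i' ∈ F ∧ γ i' = γ i}) := by
  obtain ⟨π, hπ⟩ := h.proj
  have h1 : π (γ i) (ℓ i) ∈ Submodule.map (π (γ i)) (Submodule.span ℂ (ℓ '' (F : Set (Fin q)))) :=
    ⟨_, hi, rfl⟩
  rw [hπ, if_pos rfl, Submodule.map_span] at h1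
  refine Submodule.span_le.2 ?_ h1
  rintro _ ⟨_, ⟨i', hi', rfl⟩, rfl⟩
  rw [hπ]
  split_ifs with hj
  · exact Submodule.subset_span ⟨i', ⟨hi', hj⟩, rfl⟩
  · exact Submodule.zero_mem _

/-- the sum over a basis of a function of the blocks -/
theorem Blocks.sum_blocks (h : Blocks ℓ γ) (B B' : Bases ℓ) (m : Fin c → ℕ) :
    ∑ a, m (γ (B.1 a)) = ∑ a, m (γ (B'.1 a)) := by
  classical
  have key : ∀ B : Bases ℓ, ∑ a, m (γ (B.1 a)) = ∑ j, (cp B.1 γ j).card * m j := by
    intro B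
    rw [← Finset.sum_fiberwise_of_maps_to (s := Finset.univ) (t := Finset.univ)
      (g := fun a => γ (B.1 a)) (fun a _ => Finset.mem_univ _)]
    refine Finset.sum_congr rfl fun j _ => ?_
    rw [Finset.sum_congr rfl (fun a ha => by
      rw [(Finset.mem_filter.1 ha).2] : ∀ a ∈ Finset.univ.filter (fun a => γ (B.1 a) = j),
        m (γ (B.1 a)) = m j), Finset.sum_const, smul_eq_mul]
    rfl
  rw [key B, key B']
  exact Finset.sum_congr rfl fun j _ => by rw [h.card_eq B B' j]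

variable {K : Type} [Field K] [Algebra ℂ K]

/-- the normalised multiplicities -/
theorem Blocks.dec (h : Blocks ℓ γ) (hspan : Submodule.span ℂ (Set.range ℓ) = ⊤)
    {x : Fin (n + 1) → K} (hx : ∀ i, lf (ℓ i) x ≠ 0) (P : Place ℂ K) {a : ℤ} {v : Fin q → ℕ}
    (hord : ∀ i, P.ord (lf (ℓ i) x) = a + v i) :
    ∃ (v' : Fin q → ℕ) (m : Fin c → ℕ), Dec ℓ (Fam ℓ γ) v v' ∧ (∀ i, v i = v' i + m (γ i)) ∧
      ∀ j, ∃ i, γ i = j ∧ v' i = 0 := by
  classical
  have hmin : ∀ j, ∃ i, γ i = j ∧ ∀ i', γ i' = j → v i ≤ v i' := by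
    intro j
    obtain ⟨i0, hi0⟩ := h.surj j
    obtain ⟨i, hi, hm⟩ := Finset.exists_min_image (Finset.univ.filter fun i => γ i = j) v
      ⟨i0, Finset.mem_filter.2 ⟨Finset.mem_univ _, hi0⟩⟩
    exact ⟨i, (Finset.mem_filter.1 hi).2, fun i' hi' =>
      hm i' (Finset.mem_filter.2 ⟨Finset.mem_univ _, hi'⟩)⟩
  choose t ht1 ht2 using hmin
  have hv : ∀ i, v i = (v i - v (t (γ i))) + v (t (γ i)) := by
    intro i
    have := ht2 (γ i) i rfl
    omega
  refine ⟨fun i => v i - v (t (γ i)), fun j => v (t j), ⟨?_, ?_⟩, hv, fun j => ⟨t j, ht1 j, ?_⟩⟩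
  · obtain ⟨B0⟩ := exists_bases hspan
    refine ⟨∑ a, v (t (γ (B0.1 a))), fun B => ?_⟩
    rw [h.sum_blocks B0 B (fun j => v (t j)), ← Finset.sum_add_distrib]
    exact Finset.sum_congr rfl fun a _ => hv _
  · intro F hF1 hF2
    refine ⟨hF1, fun j => ⟨t j, ht1 j, fun hmem => ?_⟩⟩
    have h1 := h.dir hmem
    have h2 := ge_span P (a + v (t j) + 1) (ℓ '' {i' | i' ∈ F ∧ γ i' = γ (t j)}) x (by
      rintro _ ⟨i', ⟨hi', hγ⟩, rfl⟩
      right
      rw [hord i']
      have h3 := hF2 i' hi'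
      rw [ht1] at hγ
      simp only [hγ] at h3
      omega) _ h1
    rcases h2 with h2 | h2
    · exact hx _ h2
    · rw [hord] at h2
      omega
  · simp only [ht1]
    omega

end Pool.Agent.TH766.MC
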