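import Mathlib

/-!
Minimal systems of exchanges (pure combinatorics).
-/

set_option autoImplicit false

namespace Pool.Agent.TH766.MC

variable {β : Type} [DecidableEq β] {q : ℕ}

/-- every proper nonempty subset of `C` is left by an element of `T` -/
def Leaves (supp : Fin q → Finset β) (T : Finset (β × Fin q)) (C : Finset β) : Prop :=
  ∀ A : Finset β, A ⊆ C → A.Nonempty → A ≠ C → ∃ p ∈ T, p.1 ∈ A ∧ ¬ supp p.2 ⊆ A

/-- `C` is connected -/
def Conn (supp : Fin q → Finset β) (C : Finset β) : Prop :=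
  ∀ U : Finset β, U ⊆ C → U.Nonempty → U ≠ C →
    ∃ f, supp f ⊆ C ∧ (∃ a ∈ supp f, a ∈ U) ∧ ∃ a ∈ supp f, a ∉ U

variable {supp : Fin q → Finset β} {C : Finset β}

/-- the edges of `T` are in `C` -/
def Inside (supp : Fin q → Finset β) (T : Finset (β × Fin q)) (C : Finset β) : Prop :=
  ∀ p ∈ T, p.1 ∈ supp p.2 ∧ supp p.2 ⊆ C

theorem grow_step (hC : Conn supp C) {U : Finset β} {T : Finset (β × Fin q)} (hUC : U ⊆ C)
    (hU : U.Nonempty) (hne : U ≠ C) (hT : Inside supp T U) (hL : Leaves supp T U)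
    (hc : T.card + 2 ≤ 2 * U.card) :
    ∃ (U' : Finset β) (T' : Finset (β × Fin q)), U' ⊆ C ∧ U'.Nonempty ∧ U.card < U'.card ∧
      Inside supp T' U' ∧ Leaves supp T' U' ∧ T'.card + 2 ≤ 2 * U'.card := by
  classical
  obtain ⟨f, hfC, ⟨a0, ha0f, ha0U⟩, ⟨a1, ha1f, ha1U⟩⟩ := hC U hUC hU hne
  set N := supp f \ U with hN
  have ha1N : a1 ∈ N := by rw [hN, Finset.mem_sdiff]; exact ⟨ha1f, ha1U⟩
  have hNpos : 1 ≤ N.card := Finset.card_pos.2 ⟨a1, ha1N⟩
  have hdisj : Disjoint U N := by rw [hN]; exact Finset.disjoint_sdiff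
  have hcard : (U ∪ N).card = U.card + N.card := Finset.card_union_of_disjoint hdisj
  have hsf : supp f ⊆ U ∪ N := by
    intro a ha
    by_cases haU : a ∈ U
    · exact Finset.mem_union_left _ haU
    · refine Finset.mem_union_right _ ?_
      rw [hN, Finset.mem_sdiff]
      exact ⟨ha, haU⟩
  have hNf : N ⊆ supp f := by rw [hN]; exact Finset.sdiff_subset
  refine ⟨U ∪ N, T ∪ (insert a0 N).image (fun a => (a, f)), ?_, ?_, ?_, ?_, ?_, ?_⟩
  · exact Finset.union_subset hUC (hNf.trans hfC)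
  · exact hU.mono Finset.subset_union_left
  · omega
  · intro p hp
    rcases Finset.mem_union.1 hp with hp | hp
    · exact ⟨(hT p hp).1, (hT p hp).2.trans Finset.subset_union_left⟩
    · obtain ⟨a, ha, rfl⟩ := Finset.mem_image.1 hp
      refine ⟨?_, hsf⟩
      rcases Finset.mem_insert.1 ha with rfl | ha
      · exact ha0f
      · exact hNf ha
  · intro A hA hAn hAne
    by_cases h1 : (A ∩ U).Nonempty
    · by_cases h2 : A ∩ U = U
      · have hUA : U ⊆ A := Finset.inter_eq_right.1 h2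
        obtain ⟨a, ha, haA⟩ : ∃ a ∈ N, a ∉ A := by
          by_contra hcon
          push Not at hcon
          exact hAne (Finset.Subset.antisymm hA (Finset.union_subset hUA hcon))
        refine ⟨(a0, f), Finset.mem_union_right _ (Finset.mem_image.2
          ⟨a0, Finset.mem_insert_self _ _, rfl⟩), hUA ha0U, fun h => haA (h (hNf ha))⟩
      · obtain ⟨p, hp, hp1, hp2⟩ := hL (A ∩ U) Finset.inter_subset_right h1 h2
        refine ⟨p, Finset.mem_union_left _ hp, (Finset.mem_inter.1 hp1).1, fun h => hp2 ?_⟩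
        exact Finset.subset_inter h (hT p hp).2
    · obtain ⟨a, ha⟩ := hAn
      have haU : a ∉ U := fun h => h1 ⟨a, Finset.mem_inter.2 ⟨ha, h⟩⟩
      have haN : a ∈ N := by
        rcases Finset.mem_union.1 (hA ha) with h | h
        · exact absurd h haU
        · exact h
      refine ⟨(a, f), Finset.mem_union_right _ (Finset.mem_image.2
        ⟨a, Finset.mem_insert_of_mem haN, rfl⟩), ha, fun h => ?_⟩
      exact h1 ⟨a0, Finset.mem_inter.2 ⟨h ha0f, ha0U⟩⟩
  · have h1 := Finset.card_union_le T ((insert a0 N).image (fun a => (a, f)))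
    have h2 : ((insert a0 N).image (fun a => (a, f))).card ≤ (insert a0 N).card :=
      Finset.card_image_le
    have h3 := Finset.card_insert_le a0 N
    omega

theorem grow (hC : Conn supp C) (hCn : C.Nonempty) :
    ∃ T : Finset (β × Fin q), Inside supp T C ∧ Leaves supp T C ∧ T.card + 2 ≤ 2 * C.card := by
  have key : ∀ k : ℕ, k + 1 ≤ C.card → ∃ (U : Finset β) (T : Finset (β × Fin q)), U ⊆ C ∧
      U.Nonempty ∧ k + 1 ≤ U.card ∧ Inside supp T U ∧ Leaves supp T U ∧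
      T.card + 2 ≤ 2 * U.card := by
    intro k
    induction k with
    | zero =>
      intro _
      obtain ⟨a, ha⟩ := hCn
      refine ⟨{a}, ∅, Finset.singleton_subset_iff.2 ha, ⟨a, Finset.mem_singleton_self a⟩, by simp,
        fun p hp => absurd hp (Finset.notMem_empty p), ?_, by simp⟩
      intro A hA hAn hAne
      exact absurd ((Finset.subset_singleton_iff.1 hA).resolve_left hAn.ne_empty) hAne
    | succ k ih =>
      intro hk
      obtain ⟨U, T, hU1, hU2, hU3, hU4, hU5, hU6⟩ := ih (by omega)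
      by_cases hUC : U = C
      · exact ⟨U, T, hU1, hU2, by rw [hUC]; exact hk, hU4, hU5, hU6⟩
      · obtain ⟨U', T', h1, h2, h3, h4, h5, h6⟩ := grow_step hC hU1 hU2 hUC hU4 hU5 hU6
        exact ⟨U', T', h1, h2, by omega, h4, h5, h6⟩
  have hpos : 1 ≤ C.card := Finset.card_pos.2 hCn
  obtain ⟨U, T, hU1, hU2, hU3, hU4, hU5, hU6⟩ := key (C.card - 1) (by omega)
  have hUC : U = C := Finset.eq_of_subset_of_card_le hU1 (by omega)
  subst hUC
  exact ⟨T, hU4, hU5, hU6⟩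

/-- a minimal system -/
theorem exists_minimal (hC : Conn supp C) (hCn : C.Nonempty) :
    ∃ T : Finset (β × Fin q), Inside supp T C ∧ Leaves supp T C ∧ T.card + 2 ≤ 2 * C.card ∧
      ∀ p ∈ T, ∃ A : Finset β, p.1 ∈ A ∧ ¬ supp p.2 ⊆ A ∧
        ∀ p' ∈ T, p' ≠ p → p'.1 ∈ A → supp p'.2 ⊆ A := by
  classical
  obtain ⟨T0, h1, h2, h3⟩ := grow hC hCn
  have hex : ∃ m : ℕ, ∃ T : Finset (β × Fin q), T.card = m ∧ Inside supp T C ∧ Leaves supp T C ∧
      T.card + 2 ≤ 2 * C.card := ⟨_, T0, rfl, h1, h2, h3⟩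
  obtain ⟨T, hTm, hT1, hT2, hT3⟩ := Nat.find_spec hex
  refine ⟨T, hT1, hT2, hT3, fun p hp => ?_⟩
  have hcard : (T.erase p).card < T.card := Finset.card_erase_lt_of_mem hp
  have hnot : ¬ Leaves supp (T.erase p) C := by
    intro hL
    refine Nat.find_min hex (m := (T.erase p).card) (by rw [← hTm]; exact hcard)
      ⟨T.erase p, rfl, fun p' hp' => hT1 p' (Finset.mem_of_mem_erase hp'), hL, by omega⟩
  unfold Leaves at hnot
  push Not at hnot
  obtain ⟨A, hA1, hA2, hA3, hA4⟩ := hnot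
  obtain ⟨p0, hp0, hp1, hp2⟩ := hT2 A hA1 hA2 hA3
  have hp0p : p0 = p := by
    by_contra hne
    exact hp2 (hA4 p0 (Finset.mem_erase.2 ⟨hne, hp0⟩) hp1)
  subst hp0p
  exact ⟨A, hp1, hp2, fun p' hp' hne h => hA4 p' (Finset.mem_erase.2 ⟨hne, hp'⟩) h⟩

/-- **The count.** -/
theorem count {T : Finset (β × Fin q)}
    (hT : ∀ p ∈ T, ∃ A : Finset β, p.1 ∈ A ∧ ¬ supp p.2 ⊆ A ∧
        ∀ p' ∈ T, p' ≠ p → p'.1 ∈ A → supp p'.2 ⊆ A)
    {A0 S : Finset β} {Φ : Finset (β × Fin q)} (hΦ : Φ ⊆ T)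
    (h1 : ∀ p ∈ Φ, p.1 ∈ A0) (h2 : ∀ p ∈ Φ, A0 ⊆ supp p.2) (h3 : ∀ p ∈ Φ, supp p.2 ⊆ A0 ∪ S) :
    Φ.card ≤ A0.card + S.card ∧ (Φ.card = A0.card + S.card → S = ∅ ∧ Φ.card = A0.card ∧
      ∀ p ∈ Φ, ∀ p' ∈ Φ, p.1 = p'.1 → p = p') := by
  classical
  set Φ1 := Φ.filter fun p => ∃ p' ∈ Φ, p' ≠ p ∧ p'.1 = p.1 with hΦ1
  set Φ2 := Φ.filter fun p => ¬ ∃ p' ∈ Φ, p' ≠ p ∧ p'.1 = p.1 with hΦ2
  have hsum : Φ1.card + Φ2.card = Φ.card := Finset.card_filter_add_card_filter_not _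
  -- private elements
  have hpriv : ∀ p ∈ Φ1, ∃ s ∈ S, s ∈ supp p.2 ∧ ∀ p' ∈ Φ, p' ≠ p → s ∉ supp p'.2 := by
    intro p hp
    rw [hΦ1, Finset.mem_filter] at hp
    obtain ⟨hpΦ, p', hp', hne, he⟩ := hp
    obtain ⟨A, hA1, hA2, hA3⟩ := hT p (hΦ hpΦ)
    have hA0 : A0 ⊆ A := (h2 p' hp').trans (hA3 p' (hΦ hp') hne (by rw [he]; exact hA1))
    obtain ⟨s, hs, hsA⟩ := Finset.not_subset.1 hA2
    have hsS : s ∈ S := by
      rcases Finset.mem_union.1 (h3 p hpΦ hs) with h | h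
      · exact absurd (hA0 h) hsA
      · exact h
    refine ⟨s, hsS, hs, fun p'' hp'' hne' hs'' => hsA ?_⟩
    exact hA3 p'' (hΦ hp'') hne' (hA0 (h1 p'' hp'')) hs''
  obtain ⟨s, hs⟩ : ∃ s : β × Fin q → β, ∀ p ∈ Φ1, s p ∈ S ∧ s p ∈ supp p.2 ∧
      ∀ p' ∈ Φ, p' ≠ p → s p ∉ supp p'.2 := by
    refine ⟨fun p => if h : p ∈ Φ1 then Classical.choose (hpriv p h) else p.1, fun p hp => ?_⟩
    simp only [dif_pos hp]
    exact Classical.choose_spec (hpriv p hp)
  have hinj1 : Φ1.card ≤ S.card := by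
    refine Finset.card_le_card_of_injOn s (fun p hp => (hs p hp).1) ?_
    intro p hp p' hp' he
    by_contra hne
    have h4 : p' ∈ Φ := (Finset.mem_filter.1 hp').1
    have he' : s p = s p' := he
    exact (hs p hp).2.2 p' h4 (fun h => hne h.symm) (he' ▸ (hs p' hp').2.1)
  -- the other elements
  have hinj2 : Φ2.card ≤ (A0 \ Φ1.image Prod.fst).card := by
    refine Finset.card_le_card_of_injOn Prod.fst (fun p hp => ?_) ?_
    · have hp' := Finset.mem_filter.1 hp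
      rw [Finset.mem_coe, Finset.mem_sdiff]
      refine ⟨h1 p hp'.1, fun hc => ?_⟩
      obtain ⟨p', hp1', he⟩ := Finset.mem_image.1 hc
      refine hp'.2 ⟨p', (Finset.mem_filter.1 hp1').1, ?_, he⟩
      rintro rfl
      exact hp'.2 (Finset.mem_filter.1 hp1').2
    · intro p hp p' hp' he
      by_contra hne
      exact (Finset.mem_filter.1 hp).2 ⟨p', (Finset.mem_filter.1 hp').1, fun h => hne h.symm,
        he.symm⟩
  have hle := Finset.card_le_card (Finset.sdiff_subset (s := A0) (t := Φ1.image Prod.fst))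
  refine ⟨by omega, fun heq => ?_⟩
  -- equality
  have hΦ1e : Φ1 = ∅ := by
    by_contra hne
    obtain ⟨p, hp⟩ := Finset.nonempty_iff_ne_empty.2 hne
    have h5 : (A0 \ Φ1.image Prod.fst).card < A0.card := by
      refine Finset.card_lt_card ⟨Finset.sdiff_subset, fun hsub => ?_⟩
      have h6 : p.1 ∈ A0 := h1 p (Finset.mem_filter.1 hp).1
      have h7 := hsub h6
      rw [Finset.mem_sdiff] at h7
      exact h7.2 (Finset.mem_image.2 ⟨p, hp, rfl⟩)
    omega
  rw [hΦ1e, Finset.card_empty] at hsum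
  have hS : S.card = 0 := by omega
  refine ⟨Finset.card_eq_zero.1 hS, by omega, ?_⟩
  intro p hp p' hp' he
  by_contra hne
  have : p ∈ Φ1 := Finset.mem_filter.2 ⟨hp, p', hp', fun h => hne h.symm, he.symm⟩
  rw [hΦ1e] at this
  exact absurd this (Finset.notMem_empty p)

end Pool.Agent.TH766.MC
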