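import Pool.Agent.TH766.MC.Pos
import Pool.Agent.W392.CG.Col

/-!
The decomposition of an arrangement into irreducible components.
-/

set_option autoImplicit false

open FF Module Pool.Agent.W603.LV Pool.Agent.W602.GT Pool.Agent.W602.Cov Pool.Agent.W602.Cov.G
open Pool.Agent.W168.CG.PGR Pool.Agent.TH152.AC

namespace Pool.Agent.TH766.MC

variable {n q c : ℕ} {ℓ : Fin q → Form n} {D : Set (Fin q)}

/-- In suitable linear coordinates (those of the basis `e`) the variables are divided into `c`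
nonempty groups (the variable `a` is in the group `g a`) such that every `ℓ i` is a form in the
variables of one group. -/
def Splits (ℓ : Fin q → Form n) (c : ℕ) : Prop :=
  ∃ (e : Basis (Fin (n + 1)) ℂ (Fin (n + 1) → ℂ)) (g : Fin (n + 1) → Fin c),
    Function.Surjective g ∧ ∀ i, ∃ j, ∀ a, g a ≠ j → ℓ i (e a) = 0

/-- In suitable linear coordinates the variables split into two nonempty groups such that every
`ℓ i` is a form in the variables of one of the groups, and the `ℓ i` with `i ∈ D` are forms in the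
variables of the second group. -/
def FreePart (ℓ : Fin q → Form n) (D : Set (Fin q)) : Prop :=
  ∃ V₁ V₂ : Submodule ℂ (Fin (n + 1) → ℂ), V₁ ≠ ⊥ ∧ V₂ ≠ ⊥ ∧ IsCompl V₁ V₂ ∧
    (∀ i, (∀ x ∈ V₁, ℓ i x = 0) ∨ (∀ x ∈ V₂, ℓ i x = 0)) ∧ ∀ i ∈ D, ∀ x ∈ V₁, ℓ i x = 0

/-- a part of a basis -/
theorem isCompl_span (e : Basis (Fin (n + 1)) ℂ (Fin (n + 1) → ℂ)) (s : Set (Fin (n + 1))) :
    IsCompl (Submodule.span ℂ (e '' s)) (Submodule.span ℂ (e '' sᶜ)) := by
  refine ⟨e.linearIndependent.disjoint_span_image disjoint_compl_right, ?_⟩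
  rw [codisjoint_iff, ← Submodule.span_union, ← Set.image_union, Set.union_compl_self,
    Set.image_univ, e.span_eq]

theorem span_ne_bot (e : Basis (Fin (n + 1)) ℂ (Fin (n + 1) → ℂ)) {s : Set (Fin (n + 1))}
    {a : Fin (n + 1)} (ha : a ∈ s) : Submodule.span ℂ (e '' s) ≠ ⊥ := by
  intro h
  have h1 : e a ∈ Submodule.span ℂ (e '' s) := Submodule.subset_span ⟨a, ha, rfl⟩
  rw [h, Submodule.mem_bot] at h1
  exact e.ne_zero a h1

theorem vanish_span (e : Basis (Fin (n + 1)) ℂ (Fin (n + 1) → ℂ)) {s : Set (Fin (n + 1))}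
    {φ : Form n} (h : ∀ a ∈ s, φ (e a) = 0) : ∀ x ∈ Submodule.span ℂ (e '' s), φ x = 0 := by
  intro x hx
  have h1 : Submodule.span ℂ (e '' s) ≤ LinearMap.ker φ := by
    rw [Submodule.span_le]
    rintro _ ⟨a, ha, rfl⟩
    exact h a ha
  exact h1 hx

theorem FreePart.mono_univ (h : FreePart ℓ D) : Reducible ℓ := by
  obtain ⟨V₁, V₂, h1, h2, h3, h4, -⟩ := h
  exact ⟨V₁, V₂, h1, h2, h3, h4⟩

theorem span_top' (hn : 1 ≤ n) (hF : ¬ FreePart ℓ D) :
    Submodule.span ℂ (Set.range ℓ) = ⊤ := by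
  by_contra hne
  obtain ⟨x, hx, h0⟩ := Pool.Agent.W392.CG.exists_zero _ hne
  obtain ⟨V₂, hV⟩ := (ℂ ∙ x).exists_isCompl
  have hx1 : ∀ i, ∀ y ∈ (ℂ ∙ x), ℓ i y = 0 := by
    intro i y hy
    obtain ⟨c, rfl⟩ := Submodule.mem_span_singleton.mp hy
    rw [map_smul, h0 _ (Submodule.subset_span ⟨i, rfl⟩), smul_zero]
  refine hF ⟨ℂ ∙ x, V₂, ?_, ?_, hV, fun i => Or.inl (hx1 i), fun i _ => hx1 i⟩
  · rwa [Ne, Submodule.span_singleton_eq_bot]
  · intro hb
    have h1 := Submodule.finrank_add_eq_of_isCompl hV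
    rw [hb, finrank_bot, finrank_span_singleton hx, Module.finrank_fintype_fun_eq_card] at h1
    simp at h1
    omega

/-- the dual basis of a basis of forms -/
theorem exists_dual (b : Basis (Fin (n + 1)) ℂ (Form n)) :
    ∃ e : Basis (Fin (n + 1)) ℂ (Fin (n + 1) → ℂ), ∀ (φ : Form n) a, φ (e a) = b.repr φ a := by
  refine ⟨b.dualBasis.map (Module.evalEquiv ℂ (Fin (n + 1) → ℂ)).symm, fun φ a => ?_⟩
  rw [Basis.map_apply, Module.apply_evalEquiv_symm_apply, Basis.dualBasis_apply]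

/-- **The blocks of an arrangement without free part.** -/
theorem exists_blocks (hn : 1 ≤ n) (hℓ : ∀ i, ℓ i ≠ 0) (hc : Splits ℓ c)
    (hc1 : ¬ Splits ℓ (c + 1)) (hF : ¬ FreePart ℓ D) :
    ∃ γ : Fin q → Fin c, Blocks ℓ γ ∧ (c ≠ 1 → ∀ j, ∃ i ∈ D, γ i = j) ∧
      ∀ (B : Bases ℓ) j, Conn (sp ℓ (bas B)) (cp B.1 γ j) := by
  classical
  obtain ⟨e, g, hg, hγ⟩ := hc
  choose γ hγ using hγ
  have hspan := span_top' hn hF
  have hD : c ≠ 1 → ∀ j, ∃ i ∈ D, γ i = j := by
    intro hc j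
    by_contra hcon
    push Not at hcon
    obtain ⟨a, ha⟩ := hg j
    obtain ⟨a', ha'⟩ : ∃ a', g a' ≠ j := by
      by_contra hall
      push Not at hall
      apply hc
      have h1 : ∀ j' : Fin c, j' = j := fun j' => by
        obtain ⟨b, hb⟩ := hg j'
        rw [← hb, hall b]
      have h2 : Fintype.card (Fin c) = 1 := Fintype.card_eq_one_iff.2 ⟨j, h1⟩
      rwa [Fintype.card_fin] at h2
    refine hF ⟨Submodule.span ℂ (e '' {a | g a = j}), Submodule.span ℂ (e '' {a | g a = j}ᶜ),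
      span_ne_bot e (a := a) ha, span_ne_bot e (a := a') ha', isCompl_span e _, fun i => ?_,
      fun i hi => vanish_span e fun a ha => hγ i a (fun h => hcon i hi (h.symm.trans ha))⟩
    by_cases hi : γ i = j
    · right
      exact vanish_span e fun a ha => hγ i a (fun h => ha (h.trans hi))
    · left
      exact vanish_span e fun a ha => hγ i a (fun h => hi (h.symm.trans ha))
  have hB : Blocks ℓ γ := by
    refine ⟨⟨fun j => (e.constr ℂ (fun a => if g a = j then e a else 0)).dualMap, fun i j => ?_⟩,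
      ?_, hℓ⟩
    · apply e.ext
      intro a
      rw [LinearMap.dualMap_apply, Basis.constr_basis]
      by_cases h1 : g a = j
      · rw [if_pos h1]
        by_cases h2 : γ i = j
        · rw [if_pos h2]
        · rw [if_neg h2, LinearMap.zero_apply]
          exact hγ i a (fun h => h2 (h.symm.trans h1))
      · rw [if_neg h1, map_zero]
        by_cases h2 : γ i = j
        · rw [if_pos h2]
          exact (hγ i a (fun h => h1 (h.trans h2))).symm
        · rw [if_neg h2, LinearMap.zero_apply]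
    · intro j
      by_cases hc : c = 1
      · subst hc
        obtain ⟨B0⟩ := exists_bases hspan
        exact ⟨B0.1 0, Subsingleton.elim _ _⟩
      · obtain ⟨i, -, hi⟩ := hD hc j
        exact ⟨i, hi⟩
  refine ⟨γ, hB, hD, fun B j U hU hUn hUC => ?_⟩
  by_contra hcon
  push Not at hcon
  apply hc1
  obtain ⟨e', he'⟩ := exists_dual (bas B)
  have hsup : ∀ i, sp ℓ (bas B) i ⊆ cp B.1 γ (γ i) := fun i a ha => mem_cp.2 (hB.supp B i a ha)
  refine ⟨e', fun a => if a ∈ U then Fin.last c else (γ (B.1 a)).castSucc, ?_, ?_⟩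
  · intro j'
    refine Fin.lastCases ?_ (fun j' => ?_) j'
    · obtain ⟨a, ha⟩ := hUn
      exact ⟨a, if_pos ha⟩
    · by_cases hj : j' = j
      · obtain ⟨a, ha, haU⟩ : ∃ a ∈ cp B.1 γ j, a ∉ U := by
          by_contra h
          push Not at h
          exact hUC (Finset.Subset.antisymm hU h)
        refine ⟨a, ?_⟩
        dsimp only
        rw [if_neg haU, mem_cp.1 ha, hj]
      · obtain ⟨a, ha⟩ := hB.cp_ne B j'
        have haU : a ∉ U := fun h => hj ((mem_cp.1 ha).symm.trans (mem_cp.1 (hU h)))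
        refine ⟨a, ?_⟩
        dsimp only
        rw [if_neg haU, mem_cp.1 ha]
  · intro i
    have hz : ∀ a, a ∉ sp ℓ (bas B) i → ℓ i (e' a) = 0 := by
      intro a ha
      rw [he']
      by_contra h
      exact ha (mem_sp.2 h)
    by_cases hm : ∃ a ∈ sp ℓ (bas B) i, a ∈ U
    · obtain ⟨a, ha, haU⟩ := hm
      have hij : γ i = j := (mem_cp.1 (hsup i ha)).symm.trans (mem_cp.1 (hU haU))
      refine ⟨Fin.last c, fun a' ha' => hz a' fun ha1 => ?_⟩
      have h1 : a' ∈ U := hcon i (by rw [← hij]; exact hsup i) ⟨a, ha, haU⟩ a' ha1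
      dsimp only at ha'
      exact ha' (if_pos h1)
    · push Not at hm
      refine ⟨(γ i).castSucc, fun a' ha' => hz a' fun ha1 => ?_⟩
      dsimp only at ha'
      rw [if_neg (hm a' ha1), mem_cp.1 (hsup i ha1)] at ha'
      exact ha' rfl

theorem splits_one (hn : 1 ≤ n) : Splits ℓ 1 :=
  ⟨Pi.basisFun ℂ _, fun _ => 0, fun j => ⟨0, Subsingleton.elim _ _⟩, fun i => ⟨0, fun a ha =>
    absurd (Subsingleton.elim _ _) ha⟩⟩

end Pool.Agent.TH766.MC
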