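import Pool.Agent.TH766.MC.Eig
import Pool.Agent.TH766.MC.Split
import Pool.Agent.TH152.AC.Cov

/-!
Derivations of the function fields of abelian covers of decomposed arrangements.
-/

set_option autoImplicit false

open FF Module IntermediateField Pool.Agent.W603.LV Pool.Agent.W602.GT Pool.Agent.W602.Cov
open Pool.Agent.W602.Cov.Cover Pool.Agent.W602.Cov.G
open Pool.Agent.W168.CG.PGR Pool.Agent.TH152.AC

namespace Pool.Agent.TH766.MC

variable {n q r : ℕ} {K : Type} [Field K] [Algebra ℂ K]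

/-- the ratios of the coordinates form a transcendence basis -/
theorem basis_forms {x : Fin (n + 1) → K}
    (hbas : IsTranscendenceBasis ℂ (fun j : Fin n => x j.succ / x 0))
    (ψ : Basis (Fin (n + 1)) ℂ (Form n)) (hψ : ∀ a, lf (ψ a) x ≠ 0) (a0 : Fin (n + 1)) :
    IsTranscendenceBasis ℂ fun a : {a // a ≠ a0} => lf (ψ a) x / lf (ψ a0) x := by
  classical
  set f : {a // a ≠ a0} → K := fun a => lf (ψ a) x / lf (ψ a0) x with hf
  set E := IntermediateField.adjoin ℂ (Set.range f) with hE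
  have hE1 : ∀ a, lf (ψ a) x / lf (ψ a0) x ∈ E := by
    intro a
    by_cases ha : a = a0
    · rw [ha, div_self (hψ _)]
      exact one_mem _
    · exact IntermediateField.subset_adjoin ℂ _ ⟨⟨a, ha⟩, rfl⟩
  have hE2 : ∀ φ : Form n, lf φ x / lf (ψ a0) x ∈ E := by
    intro φ
    have hφ : φ ∈ Submodule.span ℂ (Set.range ψ) := by
      rw [ψ.span_eq]; trivial
    induction hφ using Submodule.span_induction with
    | mem φ hφ =>
      obtain ⟨a, rfl⟩ := hφ
      exact hE1 a
    | zero => rw [lf_zero, zero_div]; exact zero_mem _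
    | add φ ψ _ _ h1 h2 => rw [lf_add, add_div]; exact add_mem h1 h2
    | smul c φ _ h1 =>
      rw [lf_smul, mul_div_assoc]
      exact mul_mem (E.algebraMap_mem c) h1
  have hE3 : ∀ j, x j / lf (ψ a0) x ∈ E := fun j => by
    have := hE2 (LinearMap.proj j)
    rwa [lf_proj] at this
  have hle : Algebra.adjoin ℂ (Set.range fun j : Fin n => x j.succ / x 0) ≤ E.toSubalgebra := by
    rw [Algebra.adjoin_le_iff]
    rintro _ ⟨j, rfl⟩
    have h1 := div_mem (hE3 j.succ) (hE3 0)
    rwa [div_div_div_cancel_right₀ (hψ _)] at h1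
  have halg : Algebra.IsAlgebraic E K := by
    have h1 := hbas.isAlgebraic
    constructor
    intro z
    have h2 := h1.isAlgebraic z
    obtain ⟨P, hP0, hP⟩ := h2
    refine ⟨P.map (Subalgebra.inclusion hle).toRingHom, ?_, ?_⟩
    · rw [Ne, Polynomial.map_eq_zero_iff]
      · exact hP0
      · exact Subalgebra.inclusion_injective hle
    · rw [Polynomial.aeval_def, Polynomial.eval₂_map]
      rw [Polynomial.aeval_def] at hP
      exact hP
  have halg2 : Algebra.IsAlgebraic (Algebra.adjoin ℂ (Set.range f)) K := alg_adjoin halg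
  have htr : Algebra.trdeg ℂ K = n := trdeg_of_basis hbas
  have hcard : Fintype.card {a : Fin (n + 1) // a ≠ a0} = n := by
    rw [Fintype.card_subtype_compl, Fintype.card_fin, Fintype.card_subtype_eq]
    omega
  apply Algebra.IsAlgebraic.isTranscendenceBasis_of_lift_le_trdeg_of_finite
  rw [htr, Cardinal.mk_fintype, hcard]

/-- coordinates -/
noncomputable def co (e : Basis (Fin (n + 1)) ℂ (Fin (n + 1) → ℂ)) (x : Fin (n + 1) → K)
    (a : Fin (n + 1)) : K := lf (e.dualBasis a) x

theorem lf_co (e : Basis (Fin (n + 1)) ℂ (Fin (n + 1) → ℂ)) (x : Fin (n + 1) → K) (φ : Form n) :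
    lf φ x = ∑ a, algebraMap ℂ K (φ (e a)) * co e x a := by
  have h1 : φ = ∑ a, φ (e a) • e.dualBasis a := by
    apply e.ext
    intro b
    rw [LinearMap.sum_apply, Finset.sum_eq_single b]
    · rw [LinearMap.smul_apply, Basis.dualBasis_apply_self, if_pos rfl, smul_eq_mul, mul_one]
    · intro a _ hab
      rw [LinearMap.smul_apply, Basis.dualBasis_apply_self, if_neg hab.symm, smul_zero]
    · intro h
      exact absurd (Finset.mem_univ _) h
  have h2 : ∀ s : Finset (Fin (n + 1)), lf (∑ a ∈ s, φ (e a) • e.dualBasis a) x =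
      ∑ a ∈ s, algebraMap ℂ K (φ (e a)) * co e x a := by
    classical
    intro s
    induction s using Finset.induction_on with
    | empty => rw [Finset.sum_empty, Finset.sum_empty, lf_zero]
    | insert a s ha ih => rw [Finset.sum_insert ha, Finset.sum_insert ha, lf_add, lf_smul, ih]; rfl
  conv_lhs => rw [h1]
  exact h2 _

/-- the eigenvalue of a coordinate -/
noncomputable def ev (s : Set (Fin (n + 1))) (a : Fin (n + 1)) : ℤ := by
  classical exact if a ∈ s then 1 else 0

theorem ev_pos {s : Set (Fin (n + 1))} {a : Fin (n + 1)} (h : a ∈ s) : ev s a = 1 := if_pos h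

theorem ev_neg {s : Set (Fin (n + 1))} {a : Fin (n + 1)} (h : a ∉ s) : ev s a = 0 := if_neg h

/-- linear forms in a part of the coordinates are eigenvectors -/
theorem ld_form (δ : Derivation ℂ K K) (e : Basis (Fin (n + 1)) ℂ (Fin (n + 1) → ℂ))
    {x : Fin (n + 1) → K} {φ : Form n} {z lam : K} (hz : z ≠ 0) (hφ : lf φ x ≠ 0)
    (h : ∀ a, φ (e a) ≠ 0 → δ (co e x a / z) = lam * (co e x a / z)) :
    δ (lf φ x / z) / (lf φ x / z) = lam := by
  rw [div_eq_iff (div_ne_zero hφ hz), lf_co e x φ, Finset.sum_div, map_sum, Finset.mul_sum]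
  refine Finset.sum_congr rfl fun a _ => ?_
  by_cases h0 : φ (e a) = 0
  · rw [h0, map_zero, zero_mul, zero_div, map_zero, mul_zero]
  · rw [mul_div_assoc, δ.leibniz, Derivation.map_algebraMap, smul_zero, add_zero, h a h0,
      smul_eq_mul]
    ring

/-- the weights of the coordinates have no common divisor -/
def Prim (X : Cover n q r) : Prop := ∃ (α : ℤ) (β : Fin r → ℤ), α * X.d + ∑ k, β k * X.w k = 1

/-- **The derivation of a decomposition.** -/
theorem delta_cover (X : Cover n q r) (hF : Prim X) {x : Fin (n + 1) → K} {y : Fin r → K}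
    (hK : X.FunctionField K x y) (e : Basis (Fin (n + 1)) ℂ (Fin (n + 1) → ℂ))
    (s : Set (Fin (n + 1))) {a1 a2 : Fin (n + 1)} (ha1 : a1 ∈ s) (ha2 : a2 ∉ s)
    (hs : ∀ i, (∀ a ∈ s, X.ℓ i (e a) = 0) ∨ (∀ a, a ∉ s → X.ℓ i (e a) = 0)) :
    ∃ (δ : Derivation ℂ K K) (σ : K) (N : ℤ), σ ≠ 0 ∧ δ σ = σ ∧ (consts δ)⟮σ⟯ = ⊤ ∧ 0 < N ∧
      (∀ a b, δ (co e x a / co e x b) / (co e x a / co e x b) = N * (ev s a - ev s b)) ∧
      ∃ E : IntermediateField ℂ K, E.FG ∧ E ≤ consts δ ∧ E⟮σ⟯ = ⊤ := by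
  classical
  have hchar : CharZero K := charZero_of_injective_algebraMap (algebraMap ℂ K).injective
  obtain ⟨hφ0, hy0, hx0, hind⟩ := Pool.Agent.W352.CG.TRA.main n q r X K x y hK
  have hbas := (coords X hK).2.2
  have hco : ∀ a, co e x a ≠ 0 := fun a => hφ0 _ (e.dualBasis.ne_zero a)
  have hl : ∀ i, lf (X.ℓ i) x ≠ 0 := fun i => hφ0 _ (X.hℓ i)
  obtain ⟨δ0, hδ0⟩ := exists_der _ (basis_forms hbas e.dualBasis hco a2)
    (fun a => (ev s a : K) * (co e x a / co e x a2))
  have hδa : ∀ a, δ0 (co e x a / co e x a2) = (ev s a : K) * (co e x a / co e x a2) := by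
    intro a
    by_cases ha : a = a2
    · rw [ha, div_self (hco _), ev_neg ha2]
      simp
    · exact hδ0 ⟨a, ha⟩
  -- the logarithmic derivatives
  set A : K := δ0 (co e x a2) / co e x a2 with hA
  have hldco : ∀ a, δ0 (co e x a) / co e x a = ev s a + A := by
    intro a
    have h1 := ld_div δ0 (hco a) (hco a2)
    rw [hδa, mul_div_assoc, div_self (div_ne_zero (hco _) (hco _)), mul_one] at h1
    rw [h1]
    ring
  let lam : Fin q → ℤ := fun i => if ∀ a ∈ s, X.ℓ i (e a) = 0 then 0 else 1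
  have hldl : ∀ i, δ0 (lf (X.ℓ i) x) / lf (X.ℓ i) x = lam i + A := by
    intro i
    have h1 := ld_div δ0 (hl i) (hco a2)
    have h2 : δ0 (lf (X.ℓ i) x / co e x a2) / (lf (X.ℓ i) x / co e x a2) = (lam i : K) := by
      apply ld_form δ0 e (hco a2) (hl i)
      intro a ha
      rw [hδa]
      have h3 : ev s a = lam i := by
        by_cases h4 : ∀ a ∈ s, X.ℓ i (e a) = 0
        · simp only [lam, if_pos h4]
          exact ev_neg fun h5 => ha (h4 a h5)
        · simp only [lam, if_neg h4]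
          have h5 := (hs i).resolve_left h4
          exact ev_pos (by_contra fun h6 => ha (h5 a h6))
      rw [h3]
    rw [h2] at h1
    rw [h1]
    ring
  have hm0 : ∀ k, (X.m k : K) ≠ 0 := fun k => by exact_mod_cast (X.hm k).ne'
  have hd0 : (X.d : K) ≠ 0 := by exact_mod_cast X.hd.ne'
  -- the multiple of the derivation
  set M : ℕ := ∏ k, X.m k with hM
  have hMpos : 0 < M := Finset.prod_pos fun k _ => X.hm k
  have hMm : ∀ k, ∃ M' : ℕ, M = X.m k * M' := fun k => Finset.dvd_prod_of_mem _ (Finset.mem_univ k)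
  choose M' hM' using hMm
  let μ : Fin r → ℤ := fun k => M' k * ∑ i, (X.e k i : ℤ) * lam i
  have hldy : ∀ k, (M : K) * (δ0 (y k) / y k) = μ k + M * (X.w k * A / X.d) := by
    intro k
    have h1 : X.m k * (δ0 (y k) / y k) = ∑ i, (X.e k i : K) * (lam i + A) := by
      rw [← ld_pow δ0 (hy0 k), Pool.Agent.W337.CG.main n q r X K x y hK k,
        ld_prod δ0 _ _ fun i _ => pow_ne_zero _ (hl i)]
      refine Finset.sum_congr rfl fun i _ => ?_
      rw [ld_pow δ0 (hl i), hldl]
    have h2 : ∑ i, (X.e k i : K) * (lam i + A) = (∑ i, (X.e k i : K) * lam i) +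
        (∑ i, (X.e k i : K)) * A := by
      rw [Finset.sum_mul, ← Finset.sum_add_distrib]
      exact Finset.sum_congr rfl fun i _ => by ring
    have h3 : (X.m k : K) * X.w k = X.d * ∑ i, (X.e k i : K) := by
      exact_mod_cast congrArg (Nat.cast : ℕ → K) (X.hom k)
    have h4 : (M : K) = X.m k * M' k := by exact_mod_cast congrArg (Nat.cast : ℕ → K) (hM' k)
    have h5 : ((μ k : ℤ) : K) = M' k * ∑ i, (X.e k i : K) * lam i := by
      simp only [μ]
      push_cast
      rfl
    have h6 : (∑ i, (X.e k i : K)) * A = X.m k * (X.w k * A / X.d) := by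
      field_simp
      linear_combination (-A) * h3
    rw [h4, h5, mul_assoc, mul_comm (M' k : K), ← mul_assoc, h1, h2, h6]
    ring
  obtain ⟨α, β, hαβ⟩ := hF
  have hαβ' : (α : K) * X.d + ∑ k, (β k : K) * X.w k = 1 := by exact_mod_cast hαβ
  let u : K := co e x a2 ^ α * ∏ k, y k ^ β k
  have hu1 : co e x a2 ^ α ≠ 0 := zpow_ne_zero _ (hco _)
  have hu2 : ∏ k, y k ^ β k ≠ 0 := Finset.prod_ne_zero_iff.2 fun k _ => zpow_ne_zero _ (hy0 k)
  have hu0 : u ≠ 0 := mul_ne_zero hu1 hu2
  let ν : ℤ := ∑ k, β k * μ k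
  have hldu : (M : K) * (δ0 u / u) = ν + M * (A / X.d) := by
    have h1 : δ0 u / u = α * A + ∑ k, (β k : K) * (δ0 (y k) / y k) := by
      simp only [u]
      rw [ld_mul δ0 hu1 hu2, ld_zpow δ0 (hco _), ld_prod δ0 _ _ fun k _ => zpow_ne_zero _ (hy0 k)]
      congr 1
      exact Finset.sum_congr rfl fun k _ => ld_zpow δ0 (hy0 k) _
    have h2 : (M : K) * ∑ k, (β k : K) * (δ0 (y k) / y k) =
        ∑ k, (β k : K) * (μ k + M * (X.w k * A / X.d)) := by
      rw [Finset.mul_sum]
      refine Finset.sum_congr rfl fun k _ => ?_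
      rw [← hldy k]
      ring
    have h3 : ((ν : ℤ) : K) = ∑ k, (β k : K) * μ k := by
      simp only [ν]
      push_cast
      rfl
    have h4 : ∑ k, (β k : K) * (μ k + M * (X.w k * A / X.d)) = ∑ k, (β k : K) * μ k +
        (∑ k, (β k : K) * X.w k) * (M * A / X.d) := by
      rw [Finset.sum_mul, ← Finset.sum_add_distrib]
      exact Finset.sum_congr rfl fun k _ => by ring
    rw [h1, mul_add, h2, h4, h3]
    have h5 : ∑ k, (β k : K) * X.w k = 1 - α * X.d := by linear_combination hαβ'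
    rw [h5]
    field_simp
    ring
  -- the generators
  let ρ : Fin (n + 1) ⊕ Fin r → K := Sum.elim (fun a => co e x a / u ^ X.d)
    (fun k => y k / u ^ X.w k)
  let b : Fin (n + 1) ⊕ Fin r → ℤ := Sum.elim (fun a => M * ev s a - X.d * ν)
    (fun k => μ k - X.w k * ν)
  let δ1 : Derivation ℂ K K := (M : K) • δ0
  have hδ1 : ∀ f, δ1 f = M * δ0 f := fun f => rfl
  have hld1 : ∀ f, δ1 f / f = M * (δ0 f / f) := fun f => by rw [hδ1, mul_div_assoc]
  have hρ0 : ∀ j, ρ j ≠ 0 := by
    rintro (a | k)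
    · exact div_ne_zero (hco a) (pow_ne_zero _ hu0)
    · exact div_ne_zero (hy0 k) (pow_ne_zero _ hu0)
  have hρ : ∀ j, δ1 (ρ j) / ρ j = b j := by
    rintro (a | k)
    · rw [hld1]
      change (M : K) * (δ0 (co e x a / u ^ X.d) / (co e x a / u ^ X.d)) = ((_ : ℤ) : K)
      rw [ld_div δ0 (hco a) (pow_ne_zero _ hu0), ld_pow δ0 hu0, hldco, mul_sub]
      have h1 : (M : K) * (X.d * (δ0 u / u)) = X.d * (ν + M * (A / X.d)) := by rw [← hldu]; ring
      rw [h1]
      change _ = (((M : ℤ) * ev s a - X.d * ν : ℤ) : K)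
      push_cast
      field_simp
      ring
    · rw [hld1]
      change (M : K) * (δ0 (y k / u ^ X.w k) / (y k / u ^ X.w k)) = ((_ : ℤ) : K)
      rw [ld_div δ0 (hy0 k) (pow_ne_zero _ hu0), ld_pow δ0 hu0, mul_sub, hldy]
      have h1 : (M : K) * (X.w k * (δ0 u / u)) = X.w k * (ν + M * (A / X.d)) := by
        rw [← hldu]; ring
      rw [h1]
      change _ = ((μ k - X.w k * ν : ℤ) : K)
      push_cast
      ring
  have hgen : IntermediateField.adjoin ℂ (Set.range ρ) = ⊤ := by
    rw [Set.Sum.elim_range]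
    exact Pool.Agent.W427.CG.GNR.main n q r X e.dualBasis e.dualBasis.linearIndependent K x y hK u hu0
  have hb1 : b (Sum.inl a1) - b (Sum.inl a2) = M := by
    change ((M : ℤ) * ev s a1 - X.d * ν) - ((M : ℤ) * ev s a2 - X.d * ν) = M
    rw [ev_pos ha1, ev_neg ha2]
    ring
  have hMz : (0 : ℤ) < M := by exact_mod_cast hMpos
  obtain ⟨δ, σ, g, b', hσ0, hσ, htop, hg, hb', hgδ, hE⟩ := delta_of_gens δ1 ρ b hρ0 hgen hρ (by
    by_contra hcon
    push Not at hcon
    rw [hcon, hcon] at hb1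
    omega)
  have hN : g * (b' (Sum.inl a1) - b' (Sum.inl a2)) = M := by
    rw [mul_sub, ← hb', ← hb', hb1]
  refine ⟨δ, σ, b' (Sum.inl a1) - b' (Sum.inl a2), hσ0, hσ, htop, ?_, fun a b => ?_, hE⟩
  · by_contra hcon
    push Not at hcon
    have := mul_nonpos_of_nonneg_of_nonpos hg.le hcon
    omega
  · have hgK : (g : K) ≠ 0 := by exact_mod_cast hg.ne'
    have h1 : (g : K) * (δ (co e x a / co e x b) / (co e x a / co e x b)) =
        M * (ev s a - ev s b) := by
      rw [← mul_div_assoc, hgδ, hld1, ld_div δ0 (hco a) (hco b), hldco, hldco]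
      ring
    have h2 : (g : K) * ((b' (Sum.inl a1) - b' (Sum.inl a2) : ℤ) : K) = M := by
      exact_mod_cast congrArg (Int.cast : ℤ → K) hN
    rw [← h2] at h1
    exact mul_left_cancel₀ hgK (by rw [h1]; ring)

end Pool.Agent.TH766.MC
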