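import Pool.Agent.W602.GT.KBd

/-!
Function fields which are generated by eigenvectors of a derivation.
-/

set_option autoImplicit false

open FF IntermediateField Pool.Agent.W603.LV Pool.Agent.W602.GT

namespace Pool.Agent.TH766.MC

variable {k K : Type} [Field k] [Field K] [Algebra k K]

theorem ld_mul (δ : Derivation k K K) {f g : K} (hf : f ≠ 0) (hg : g ≠ 0) :
    δ (f * g) / (f * g) = δ f / f + δ g / g := by
  rw [δ.leibniz, smul_eq_mul, smul_eq_mul]
  field_simp
  ring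

theorem ld_zpow (δ : Derivation k K K) {f : K} (hf : f ≠ 0) (m : ℤ) :
    δ (f ^ m) / f ^ m = m * (δ f / f) := by
  rw [der_zpow δ hf]
  have := zpow_ne_zero m hf
  field_simp

theorem ld_pow (δ : Derivation k K K) {f : K} (hf : f ≠ 0) (m : ℕ) :
    δ (f ^ m) / f ^ m = m * (δ f / f) := by
  have := ld_zpow δ hf (m : ℤ)
  simpa using this

theorem ld_div (δ : Derivation k K K) {f g : K} (hf : f ≠ 0) (hg : g ≠ 0) :
    δ (f / g) / (f / g) = δ f / f - δ g / g := by
  have h1 := ld_mul δ hf (inv_ne_zero hg)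
  have h2 := ld_zpow δ hg (-1)
  rw [zpow_neg_one] at h2
  rw [div_eq_mul_inv f g, h1, h2]
  push_cast
  ring

theorem ld_prod (δ : Derivation k K K) {ι : Type*} (s : Finset ι) (f : ι → K)
    (hf : ∀ i ∈ s, f i ≠ 0) :
    δ (∏ i ∈ s, f i) / ∏ i ∈ s, f i = ∑ i ∈ s, δ (f i) / f i := by
  classical
  induction s using Finset.induction_on with
  | empty => simp
  | insert a s ha ih =>
    have h1 : ∀ i ∈ s, f i ≠ 0 := fun i hi => hf i (Finset.mem_insert_of_mem hi)
    rw [Finset.prod_insert ha, Finset.sum_insert ha,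
      ld_mul δ (hf a (Finset.mem_insert_self _ _)) (Finset.prod_ne_zero_iff.2 h1), ih h1]

/-- eigenvectors with eigenvalue `0` are constants -/
theorem const_of_ld (δ : Derivation k K K) {f : K} (hf : f ≠ 0) (h : δ f / f = 0) : δ f = 0 := by
  rcases div_eq_zero_iff.1 h with h | h
  · exact h
  · exact absurd h hf

/-- **Fields generated by eigenvectors.** -/
theorem delta_of_gens {ι : Type} [Fintype ι] (δ : Derivation k K K) (ρ : ι → K)
    (β : ι → ℤ) (hρ0 : ∀ j, ρ j ≠ 0) (hgen : IntermediateField.adjoin k (Set.range ρ) = ⊤)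
    (hρ : ∀ j, δ (ρ j) / ρ j = β j) [CharZero K] (hβ : ∃ j, β j ≠ 0) :
    ∃ (δ' : Derivation k K K) (σ : K) (g : ℤ) (b' : ι → ℤ), σ ≠ 0 ∧ δ' σ = σ ∧
      (consts δ')⟮σ⟯ = ⊤ ∧ 0 < g ∧ (∀ j, β j = g * b' j) ∧ (∀ f, (g : K) * δ' f = δ f) ∧
      ∃ E : IntermediateField k K, E.FG ∧ E ≤ consts δ' ∧ E⟮σ⟯ = ⊤ := by
  classical
  obtain ⟨g, b', c, hgpos, hb, hc⟩ : ∃ (g : ℤ) (b' c : ι → ℤ), 0 < g ∧
      (∀ j, β j = g * b' j) ∧ ∑ j, c j * b' j = 1 := by
    let e := Fintype.equivFin ι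
    have htr : ∀ c b' : Fin (Fintype.card ι) → ℤ, ∑ j, c (e j) * b' (e j) = ∑ i, c i * b' i :=
      fun c b' => Equiv.sum_comp e fun i => c i * b' i
    obtain ⟨g, b', c, hg, hβ, hc⟩ := exists_weights (fun i => β (e.symm i)) (by
      obtain ⟨j, hj⟩ := hβ
      exact ⟨e j, by simpa using hj⟩)
    have hβ' : ∀ j, β j = g * b' (e j) := fun j => by
      have := hβ (e j)
      simpa using this
    rcases lt_or_gt_of_ne hg with h | h
    · refine ⟨-g, fun j => - b' (e j), fun j => - c (e j), by omega,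
        fun j => by rw [hβ' j]; ring, ?_⟩
      rw [← hc, ← htr]
      exact Finset.sum_congr rfl fun j _ => by ring
    · exact ⟨g, fun j => b' (e j), fun j => c (e j), h, hβ', by rw [htr, hc]⟩
  have hg : (g : K) ≠ 0 := by exact_mod_cast hgpos.ne'
  let δ' : Derivation k K K := ((g : K)⁻¹) • δ
  have hδ' : ∀ f, δ' f = (g : K)⁻¹ * δ f := fun f => rfl
  have hρ' : ∀ j, δ' (ρ j) / ρ j = b' j := by
    intro j
    rw [hδ', mul_div_assoc, hρ, hb j]
    push_cast
    field_simp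
  set σ : K := ∏ j, ρ j ^ c j with hσdef
  have hσ0 : σ ≠ 0 := Finset.prod_ne_zero_iff.2 fun j _ => zpow_ne_zero _ (hρ0 j)
  have hσ : δ' σ / σ = 1 := by
    rw [hσdef, ld_prod δ' _ _ fun j _ => zpow_ne_zero _ (hρ0 j)]
    rw [Finset.sum_congr rfl fun j _ => (ld_zpow δ' (hρ0 j) (c j))]
    simp only [hρ']
    exact_mod_cast hc
  have hz : ∀ j, ρ j * σ ^ (- b' j) ∈ consts δ' := by
    intro j
    have h1 := zpow_ne_zero (- b' j) hσ0
    apply const_of_ld δ' (mul_ne_zero (hρ0 j) h1)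
    rw [ld_mul δ' (hρ0 j) h1, ld_zpow δ' hσ0, hσ, hρ']
    push_cast
    ring
  have key : ∀ E : IntermediateField k K, (∀ j, ρ j * σ ^ (- b' j) ∈ E) → E⟮σ⟯ = ⊤ := by
    intro E hE
    rw [eq_top_iff]
    intro f _
    have hf : f ∈ (E⟮σ⟯).restrictScalars k := by
      have h1 : IntermediateField.adjoin k (Set.range ρ) ≤ (E⟮σ⟯).restrictScalars k := by
        rw [IntermediateField.adjoin_le_iff]
        rintro _ ⟨j, rfl⟩
        have h2 : ρ j = (ρ j * σ ^ (- b' j)) * σ ^ (b' j) := by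
          rw [mul_assoc, ← zpow_add₀ hσ0]
          simp
        have h3 : ρ j ∈ E⟮σ⟯ := by
          rw [h2]
          exact mul_mem ((E⟮σ⟯).algebraMap_mem ⟨_, hE j⟩)
            (zpow_mem (IntermediateField.mem_adjoin_simple_self _ σ) _)
        exact h3
      rw [hgen] at h1
      exact h1 IntermediateField.mem_top
    exact hf
  refine ⟨δ', σ, g, b', hσ0, ?_, key _ hz, hgpos, hb, fun f => ?_, ?_⟩
  · rw [div_eq_iff hσ0, one_mul] at hσ
    exact hσ
  · rw [hδ', ← mul_assoc, mul_inv_cancel₀ hg, one_mul]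
  · refine ⟨IntermediateField.adjoin k (Set.range fun j => ρ j * σ ^ (- b' j)), ?_, ?_, ?_⟩
    · exact IntermediateField.fg_adjoin_of_finite (Set.finite_range _)
    · rw [IntermediateField.adjoin_le_iff]
      rintro _ ⟨j, rfl⟩
      exact hz j
    · exact key _ fun j => IntermediateField.subset_adjoin _ _ ⟨j, rfl⟩

end Pool.Agent.TH766.MC
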