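import Pool.Agent.TH766.MC.Exch

/-!
Exchange inequalities: the two cases.
-/

set_option autoImplicit false

open Pool.Agent.W602.Cov Module Pool.Agent.TH152.AC

namespace Pool.Agent.TH766.MC

variable {n q : ℕ} {ℓ : Fin q → Form n} {b : Basis (Fin (n + 1)) ℂ (Form n)}
  {B : Fin (n + 1) → Fin q} {c : ℕ} {γ : Fin q → Fin c}

/-- a system of exchanges with the constant `R` for the sets `F` in the family -/
def Exch (ℓ : Fin q → Form n) (b : Basis (Fin (n + 1)) ℂ (Form n)) (B : Fin (n + 1) → Fin q)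
    (Fa : Finset (Fin q) → Prop) (R : ℕ) : Prop :=
  ∃ T : Finset (Fin (n + 1) × Fin q), (∀ p ∈ T, b.repr (ℓ p.2) p.1 ≠ 0) ∧
    ∀ F : Finset (Fin q), Fa F → 1 - (R : ℤ) * (rk ℓ F - cnt B F) ≤
      ∑ p ∈ T, ((if B p.1 ∈ F then 1 else 0) - (if p.2 ∈ F then 1 else 0))

theorem sum_cp (B : Fin (n + 1) → Fin q) (γ : Fin q → Fin c) :
    ∑ j, (cp B γ j).card = n + 1 := by
  classical
  have h := Finset.card_eq_sum_card_fiberwise (f := fun a => γ (B a))
    (s := (Finset.univ : Finset (Fin (n + 1)))) (t := Finset.univ) (fun _ _ => Finset.mem_univ _)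
  rw [Finset.card_univ, Fintype.card_fin] at h
  exact h.symm

theorem exch_gen (hb : ∀ a, b a = ℓ (B a)) (hℓ : ∀ i, ℓ i ≠ 0)
    (hγ : ∀ i, ∀ a ∈ sp ℓ b i, γ (B a) = γ i) (hconn : ∀ j, Conn (sp ℓ b) (cp B γ j))
    (hne : ∀ j, (cp B γ j).Nonempty) {R : ℕ} (hR : R + c = n + 3) (hc : 1 ≤ c) :
    Exch ℓ b B (Fam ℓ γ) R := by
  classical
  choose Tj hin hL hcard hmin using fun j => exists_minimal (hconn j) (hne j)
  have hT : ∀ p, p ∈ Finset.univ.biUnion Tj ↔ ∃ j, p ∈ Tj j := by
    intro p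
    rw [Finset.mem_biUnion]
    simp
  have hcpos : ∀ j, 1 ≤ (cp B γ j).card := fun j => Finset.card_pos.2 (hne j)
  have hsum := sum_cp B γ
  have hcle : c ≤ n + 1 := by
    have h1 : ∑ _j : Fin c, 1 ≤ ∑ j, (cp B γ j).card := Finset.sum_le_sum fun j _ => hcpos j
    simpa [hsum] using h1
  have hTcard : (Finset.univ.biUnion Tj).card + 2 * c ≤ 2 * (n + 1) := by
    have h1 : (Finset.univ.biUnion Tj).card ≤ ∑ j, (Tj j).card := Finset.card_biUnion_le
    have h2 : ∑ j, ((Tj j).card + 2) ≤ ∑ j, 2 * (cp B γ j).card :=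
      Finset.sum_le_sum fun j _ => hcard j
    rw [Finset.sum_add_distrib, ← Finset.mul_sum, hsum] at h2
    simp only [Finset.sum_const, Finset.card_univ, Fintype.card_fin, smul_eq_mul] at h2
    omega
  have hone : ∀ j, (cp B γ j).card + c ≤ n + 2 := by
    intro j
    have h1 : ∑ j', (cp B γ j').card = (cp B γ j).card +
        ∑ j' ∈ Finset.univ.erase j, (cp B γ j').card :=
      (Finset.add_sum_erase _ _ (Finset.mem_univ j)).symm
    have h2 : ∑ _j' ∈ Finset.univ.erase j, 1 ≤ ∑ j' ∈ Finset.univ.erase j, (cp B γ j').card :=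
      Finset.sum_le_sum fun j' _ => hcpos j'
    rw [Finset.sum_const, Finset.card_erase_of_mem (Finset.mem_univ j), Finset.card_univ,
      Fintype.card_fin, smul_eq_mul, mul_one] at h2
    omega
  refine ⟨Finset.univ.biUnion Tj, fun p hp => ?_, fun F hF => ?_⟩
  · obtain ⟨j, hj⟩ := (hT p).1 hp
    exact mem_sp.1 (hin j p hj).1
  refine final hb hℓ hγ (fun p hp => ?_) (fun j => ⟨Tj j, fun p hp => (hT p).2 ⟨j, hp⟩,
    fun p hp => (hin j p hp).2, hL j⟩) (R := R) (by omega) (fun F hF => ?_) hF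
  · obtain ⟨j, hj⟩ := (hT p).1 hp
    exact (hin j p hj).1
  · rcases neg_count hb hγ hin hmin hT hF with h | ⟨j, h1, -⟩
    · rw [h, Finset.card_empty]
      omega
    · have := hone j
      omega

/-- there are `n + 3` different hyperplanes -/
def Many (ℓ : Fin q → Form n) : Prop :=
  ∃ s : Fin (n + 3) → Fin q, ∀ i j, i ≠ j → ∀ t : ℂ, ℓ (s i) ≠ t • ℓ (s j)

theorem exists_other (_hb : ∀ a, b a = ℓ (B a)) (hℓ : ∀ i, ℓ i ≠ 0) (hm : Many ℓ) (f : Fin q) :
    ∃ g, (∀ t : ℂ, ℓ g ≠ t • ℓ f) ∧ ∀ a, ∀ t : ℂ, ℓ g ≠ t • b a := by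
  classical
  obtain ⟨s, hs⟩ := hm
  by_contra hcon
  push Not at hcon
  have h1 : ∀ i : Fin (n + 3), ∃ o : Option (Fin (n + 1)), ∃ t : ℂ,
      ℓ (s i) = t • (o.elim (ℓ f) (fun a => b a)) := by
    intro i
    by_cases h2 : ∃ t : ℂ, ℓ (s i) = t • ℓ f
    · obtain ⟨t, ht⟩ := h2
      exact ⟨none, t, ht⟩
    · push Not at h2
      obtain ⟨a, t, ht⟩ := hcon (s i) h2
      exact ⟨some a, t, ht⟩
  choose o t ht using h1
  obtain ⟨i, j, hij, he⟩ := Fintype.exists_ne_map_eq_of_card_lt o (by simp)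
  have hti : t j ≠ 0 := by
    intro h0
    apply hℓ (s j)
    rw [ht j, h0, zero_smul]
  apply hs i j hij (t i * (t j)⁻¹)
  rw [ht i, ht j, he, smul_smul, mul_assoc, inv_mul_cancel₀ hti, mul_one]

theorem exch_many (hn : 1 ≤ n) (hb : ∀ a, b a = ℓ (B a)) (hℓ : ∀ i, ℓ i ≠ 0)
    {γ : Fin q → Fin 1} (hconn : ∀ j, Conn (sp ℓ b) (cp B γ j)) (hm : Many ℓ) :
    Exch ℓ b B (Fam ℓ γ) (n + 1) := by
  classical
  have hγ : ∀ i, ∀ a ∈ sp ℓ b i, γ (B a) = γ i := fun i a _ => Subsingleton.elim _ _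
  have hcp : ∀ j, cp B γ j = Finset.univ := by
    intro j
    ext a
    rw [mem_cp]
    simp [Subsingleton.elim (γ (B a)) j]
  by_cases hfull : ∃ f, sp ℓ b f = Finset.univ
  · obtain ⟨f, hf⟩ := hfull
    obtain ⟨g, hg1, hg2⟩ := exists_other hb hℓ hm f
    have hgn : (sp ℓ b g).Nonempty := by
      by_contra hcon
      rw [Finset.not_nonempty_iff_eq_empty] at hcon
      apply hℓ g
      have h2 : b.repr (ℓ g) = 0 := by
        ext a
        by_contra hne
        have h3 : a ∈ sp ℓ b g := mem_sp.2 hne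
        rw [hcon] at h3
        exact absurd h3 (Finset.notMem_empty a)
      exact (LinearEquiv.map_eq_zero_iff _).1 h2
    obtain ⟨a1, ha1⟩ := hgn
    have hg3 : ¬ sp ℓ b g ⊆ {a1} := by
      intro hsub
      apply hg2 a1 (b.repr (ℓ g) a1)
      apply b.repr.injective
      ext a
      rw [map_smul, Basis.repr_self, Finsupp.smul_apply, Finsupp.single_apply, smul_eq_mul]
      by_cases ha : a = a1
      · rw [if_pos ha.symm, mul_one, ha]
      · rw [if_neg (fun h => ha h.symm), mul_zero]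
        by_contra hne
        exact ha (Finset.mem_singleton.1 (hsub (mem_sp.2 hne)))
    obtain ⟨T, hTd⟩ : ∃ T : Finset (Fin (n + 1) × Fin q),
        T = insert (a1, g) ((Finset.univ.erase a1).image fun a => (a, f)) := ⟨_, rfl⟩
    have hTm : ∀ p, p ∈ T ↔ p = (a1, g) ∨ (p.1 ≠ a1 ∧ p.2 = f) := by
      intro p
      rw [hTd, Finset.mem_insert, Finset.mem_image]
      constructor
      · rintro (h | ⟨a, ha, rfl⟩)
        · exact Or.inl h
        · exact Or.inr ⟨Finset.ne_of_mem_erase ha, rfl⟩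
      · rintro (h | ⟨h1, h2⟩)
        · exact Or.inl h
        · exact Or.inr ⟨p.1, Finset.mem_erase.2 ⟨h1, Finset.mem_univ _⟩, by rw [← h2]⟩
    have hTcard : T.card ≤ n + 1 := by
      rw [hTd]
      refine (Finset.card_insert_le _ _).trans ?_
      have h1 : ((Finset.univ.erase a1).image fun a => (a, f)).card ≤
          (Finset.univ.erase a1 : Finset (Fin (n + 1))).card := Finset.card_image_le
      rw [Finset.card_erase_of_mem (Finset.mem_univ _), Finset.card_univ, Fintype.card_fin] at h1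
      omega
    have hmemT : ∀ p ∈ T, p.1 ∈ sp ℓ b p.2 := by
      intro p hp
      rcases (hTm p).1 hp with rfl | ⟨-, h⟩
      · exact ha1
      · rw [h, hf]
        exact Finset.mem_univ _
    refine ⟨T, fun p hp => mem_sp.1 (hmemT p hp), fun F hF => ?_⟩
    refine final hb hℓ hγ hmemT (fun j => ⟨T, subset_rfl, fun p _ => ?_, ?_⟩) (R := n + 1)
      (by omega) (fun F hF => ?_) hF
    · rw [hcp]
      exact Finset.subset_univ _
    · rw [hcp]
      intro A _ hA1 hA2
      by_cases h1 : ∃ a ∈ A, a ≠ a1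
      · obtain ⟨a, ha, hane⟩ := h1
        refine ⟨(a, f), (hTm _).2 (Or.inr ⟨hane, rfl⟩), ha, ?_⟩
        change ¬ sp ℓ b f ⊆ A
        rw [hf]
        intro h
        exact hA2 (Finset.univ_subset_iff.1 h)
      · push Not at h1
        obtain ⟨a, ha⟩ := hA1
        refine ⟨(a1, g), (hTm _).2 (Or.inl rfl), by rw [← h1 a ha]; exact ha, fun h => hg3 ?_⟩
        exact h.trans fun a' ha' => Finset.mem_singleton.2 (h1 a' ha')
    · by_cases hnT : neg B T F = T
      · exfalso
        obtain ⟨a2, ha2⟩ : ∃ a2 : Fin (n + 1), a2 ≠ a1 := by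
          by_contra hcon
          push Not at hcon
          have h1 : Fintype.card (Fin (n + 1)) ≤ 1 :=
            Fintype.card_le_one_iff.2 fun x y => (hcon x).trans (hcon y).symm
          rw [Fintype.card_fin] at h1
          omega
        have hall : ∀ p ∈ T, B p.1 ∉ F ∧ p.2 ∈ F := by
          intro p hp
          rw [← hnT] at hp
          exact (Finset.mem_filter.1 hp).2
        have hout : ∀ a, a ∉ inn B F := by
          intro a ha
          rw [mem_inn] at ha
          by_cases hca : a = a1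
          · exact (hall (a1, g) ((hTm _).2 (Or.inl rfl))).1 (hca ▸ ha)
          · exact (hall (a, f) ((hTm _).2 (Or.inr ⟨hca, rfl⟩))).1 ha
        have hfF : f ∈ F := (hall (a2, f) ((hTm _).2 (Or.inr ⟨ha2, rfl⟩))).2
        have hgF : g ∈ F := (hall (a1, g) ((hTm _).2 (Or.inl rfl))).2
        obtain ⟨t, -, ht⟩ := sp_eq hb hF hfF hgF ⟨a1, by rw [hf]; exact Finset.mem_univ _, hout _⟩
          ⟨a1, ha1, hout _⟩
        apply hg1 t
        apply b.repr.injective
        ext a
        rw [map_smul, Finsupp.smul_apply, smul_eq_mul]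
        exact ht a (hout a)
      · have h1 : neg B T F ⊆ T := Finset.filter_subset _ _
        have h2 : (neg B T F).card < T.card :=
          Finset.card_lt_card (Finset.ssubset_iff_subset_ne.2 ⟨h1, hnT⟩)
        omega
  · have hne : ∀ j, (cp B γ j).Nonempty := fun j => by rw [hcp]; exact Finset.univ_nonempty
    choose Tj hin hL hcard hmin using fun j => exists_minimal (hconn j) (hne j)
    have hT : ∀ p, p ∈ Tj 0 ↔ ∃ j, p ∈ Tj j := by
      intro p
      refine ⟨fun h => ⟨0, h⟩, fun ⟨j, hj⟩ => ?_⟩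
      rw [Subsingleton.elim (0 : Fin 1) j]
      exact hj
    have hcp0 : ∀ j, (cp B γ j).card = n + 1 := fun j => by
      rw [hcp, Finset.card_univ, Fintype.card_fin]
    refine ⟨Tj 0, fun p hp => mem_sp.1 (hin 0 p hp).1, fun F hF => ?_⟩
    refine final hb hℓ hγ (fun p hp => (hin 0 p hp).1) (fun j => ⟨Tj j, fun p hp => (hT p).2 ⟨j, hp⟩,
      fun p hp => (hin j p hp).2, hL j⟩) (R := n + 1) ?_ (fun F hF => ?_) hF
    · have := hcard 0
      have := hcp0 0
      omega
    · rcases neg_count hb hγ hin hmin hT hF with h | ⟨j, h1, h2⟩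
      · rw [h, Finset.card_empty]
        omega
      · have h3 := hcp0 j
        have h4 : (neg B (Tj 0) F).card ≠ (cp B γ j).card := by
          intro he
          obtain ⟨-, p, -, hp⟩ := h2 he
          exact hfull ⟨p.2, hp.trans (hcp j)⟩
        omega

end Pool.Agent.TH766.MC
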