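import Pool.Agent.TH766.MC.Comb
import Pool.Agent.TH152.AC.Dual

/-!
Exchange inequalities for arrangements with several components.
-/

set_option autoImplicit false

open Pool.Agent.W602.Cov Module Pool.Agent.TH152.AC

namespace Pool.Agent.TH766.MC

variable {n q : ℕ} {ℓ : Fin q → Form n} {b : Basis (Fin (n + 1)) ℂ (Form n)}
  {B : Fin (n + 1) → Fin q}

/-- the support -/
noncomputable def sp (ℓ : Fin q → Form n) (b : Basis (Fin (n + 1)) ℂ (Form n)) (i : Fin q) :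
    Finset (Fin (n + 1)) := by
  classical exact Finset.univ.filter fun a => b.repr (ℓ i) a ≠ 0

theorem mem_sp {i : Fin q} {a : Fin (n + 1)} : a ∈ sp ℓ b i ↔ b.repr (ℓ i) a ≠ 0 := by
  classical
  unfold sp
  rw [Finset.mem_filter]
  simp

theorem prop_mod {V : Type*} [AddCommGroup V] [Module ℂ V] [FiniteDimensional ℂ V]
    {W0 W : Submodule ℂ V} (h0 : W0 ≤ W) (hfr : finrank ℂ W = finrank ℂ W0 + 1) {φ φ' : V}
    (h1 : φ ∈ W) (h2 : φ' ∈ W) (h3 : φ ∉ W0) (h4 : φ' ∉ W0) :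
    ∃ t : ℂ, t ≠ 0 ∧ φ' - t • φ ∈ W0 := by
  have hlt : W0 < W0 ⊔ Submodule.span ℂ {φ} := by
    refine lt_of_le_of_ne le_sup_left fun he => h3 ?_
    rw [he]
    exact (le_sup_right : Submodule.span ℂ {φ} ≤ _) (Submodule.mem_span_singleton_self _)
  have hfin := Submodule.finrank_lt_finrank_of_lt hlt
  have hle : W0 ⊔ Submodule.span ℂ {φ} ≤ W :=
    sup_le h0 ((Submodule.span_singleton_le_iff_mem _ _).2 h1)
  have heq : W0 ⊔ Submodule.span ℂ {φ} = W :=
    Submodule.eq_of_le_of_finrank_le hle (by omega)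
  rw [← heq] at h2
  obtain ⟨w, hw, z, hz, he⟩ := Submodule.mem_sup.1 h2
  obtain ⟨t, rfl⟩ := Submodule.mem_span_singleton.1 hz
  refine ⟨t, ?_, ?_⟩
  · rintro rfl
    apply h4
    rw [← he, zero_smul, add_zero]
    exact hw
  · rw [← he]
    simpa using hw

/-- the indices of the basis elements in `F` -/
def inn (B : Fin (n + 1) → Fin q) (F : Finset (Fin q)) : Finset (Fin (n + 1)) :=
  Finset.univ.filter fun a => B a ∈ F

theorem mem_inn {F : Finset (Fin q)} {a : Fin (n + 1)} : a ∈ inn B F ↔ B a ∈ F := by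
  unfold inn
  rw [Finset.mem_filter]
  simp

/-- the deficiency is positive or the supports are inside -/
theorem sp_sub_of_span (hb : ∀ a, b a = ℓ (B a)) {F : Finset (Fin q)}
    (h : rk ℓ F = (inn B F).card) {φ : Form n}
    (hφ : φ ∈ Submodule.span ℂ (ℓ '' (F : Set (Fin q)))) {a : Fin (n + 1)}
    (ha : b.repr φ a ≠ 0) : B a ∈ F := by
  have hspan : Submodule.span ℂ (b '' {a | B a ∈ F}) =
      Submodule.span ℂ (ℓ '' (F : Set (Fin q))) := by
    apply Submodule.eq_of_le_of_finrank_eq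
    · rw [Submodule.span_le]
      rintro _ ⟨a, ha, rfl⟩
      rw [hb a]
      exact Submodule.subset_span ⟨B a, ha, rfl⟩
    · rw [finrank_part hb]
      exact h.symm
  rw [← hspan, b.mem_span_image] at hφ
  exact hφ (Finsupp.mem_support_iff.2 ha)

/-- deficiency one: the supports outside `F` coincide -/
theorem sp_eq (hb : ∀ a, b a = ℓ (B a)) {F : Finset (Fin q)}
    (h : rk ℓ F = (inn B F).card + 1) {i i' : Fin q} (hi : i ∈ F) (hi' : i' ∈ F)
    (h1 : ∃ a ∈ sp ℓ b i, a ∉ inn B F) (h2 : ∃ a ∈ sp ℓ b i', a ∉ inn B F) :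
    ∃ t : ℂ, t ≠ 0 ∧ ∀ a, a ∉ inn B F → b.repr (ℓ i') a = t * b.repr (ℓ i) a := by
  have hle : Submodule.span ℂ (b '' {a | B a ∈ F}) ≤
      Submodule.span ℂ (ℓ '' (F : Set (Fin q))) := by
    rw [Submodule.span_le]
    rintro _ ⟨a, ha, rfl⟩
    rw [hb a]
    exact Submodule.subset_span ⟨B a, ha, rfl⟩
  have hout : ∀ i, (∃ a ∈ sp ℓ b i, a ∉ inn B F) → ℓ i ∉ Submodule.span ℂ (b '' {a | B a ∈ F}) := by
    rintro i ⟨a, ha, haF⟩ hmem
    rw [b.mem_span_image] at hmem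
    exact haF (mem_inn.2 (hmem (Finsupp.mem_support_iff.2 (mem_sp.1 ha))))
  obtain ⟨t, ht, hmem⟩ := prop_mod hle (by rw [finrank_part hb]; exact h)
    (Submodule.subset_span ⟨i, hi, rfl⟩) (Submodule.subset_span ⟨i', hi', rfl⟩) (hout i h1)
    (hout i' h2)
  refine ⟨t, ht, fun a ha => ?_⟩
  rw [b.mem_span_image] at hmem
  have h3 : b.repr (ℓ i' - t • ℓ i) a = 0 := by
    by_contra hne
    exact ha (mem_inn.2 (hmem (Finsupp.mem_support_iff.2 hne)))
  rw [map_sub, map_smul, Finsupp.sub_apply, Finsupp.smul_apply, smul_eq_mul] at h3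
  exact sub_eq_zero.1 h3

variable {c : ℕ} {γ : Fin q → Fin c}

/-- the component -/
def cp (B : Fin (n + 1) → Fin q) (γ : Fin q → Fin c) (j : Fin c) : Finset (Fin (n + 1)) :=
  Finset.univ.filter fun a => γ (B a) = j

theorem mem_cp {j : Fin c} {a : Fin (n + 1)} : a ∈ cp B γ j ↔ γ (B a) = j := by
  unfold cp
  rw [Finset.mem_filter]
  simp

/-- no component is filled by `F` -/
def Fam (ℓ : Fin q → Form n) (γ : Fin q → Fin c) (F : Finset (Fin q)) : Prop :=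
  F.Nonempty ∧ ∀ j, ∃ h, γ h = j ∧ ℓ h ∉ Submodule.span ℂ (ℓ '' (F : Set (Fin q)))

/-- the negative exchanges -/
def neg (B : Fin (n + 1) → Fin q) (T : Finset (Fin (n + 1) × Fin q)) (F : Finset (Fin q)) :
    Finset (Fin (n + 1) × Fin q) := T.filter fun p => B p.1 ∉ F ∧ p.2 ∈ F

theorem final (hb : ∀ a, b a = ℓ (B a)) (hℓ : ∀ i, ℓ i ≠ 0)
    (hγ : ∀ i, ∀ a ∈ sp ℓ b i, γ (B a) = γ i) {T : Finset (Fin (n + 1) × Fin q)}
    (hmem : ∀ p ∈ T, p.1 ∈ sp ℓ b p.2)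
    (hL : ∀ j, ∃ Tj ⊆ T, (∀ p ∈ Tj, sp ℓ b p.2 ⊆ cp B γ j) ∧ Leaves (sp ℓ b) Tj (cp B γ j))
    {R : ℕ} (hcard : T.card + 1 ≤ 2 * R)
    (h1 : ∀ F : Finset (Fin q), rk ℓ F = (inn B F).card + 1 → (neg B T F).card + 1 ≤ R)
    {F : Finset (Fin q)} (hF : Fam ℓ γ F) :
    1 - (R : ℤ) * (rk ℓ F - cnt B F) ≤
      ∑ p ∈ T, ((if B p.1 ∈ F then 1 else 0) - (if p.2 ∈ F then 1 else 0)) := by
  classical
  have hsum : ∑ p ∈ T, (((if B p.1 ∈ F then 1 else 0) : ℤ) - (if p.2 ∈ F then 1 else 0)) =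
      ((T.filter fun p => B p.1 ∈ F ∧ p.2 ∉ F).card : ℤ) -
        (T.filter fun p => B p.1 ∉ F ∧ p.2 ∈ F).card := by
    rw [Finset.card_filter, Finset.card_filter]
    push_cast
    rw [← Finset.sum_sub_distrib]
    refine Finset.sum_congr rfl fun p _ => ?_
    by_cases h1 : B p.1 ∈ F <;> by_cases h2 : p.2 ∈ F <;> simp [h1, h2]
  rw [hsum]
  have hcnt : cnt B F = (inn B F).card := rfl
  have hle : (inn B F).card ≤ rk ℓ F := by
    have h2 := finrank_part hb F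
    unfold rk
    have h3 : (inn B F).card = (Finset.univ.filter fun a => B a ∈ F).card := rfl
    rw [h3, ← h2]
    apply Submodule.finrank_mono
    rw [Submodule.span_le]
    rintro _ ⟨a, ha, rfl⟩
    rw [hb a]
    exact Submodule.subset_span ⟨B a, ha, rfl⟩
  rw [hcnt]
  obtain ⟨d, hd⟩ : ∃ d, rk ℓ F = (inn B F).card + d := ⟨_, (Nat.add_sub_cancel' hle).symm⟩
  have hpos0 : (0 : ℤ) ≤ ((T.filter fun p => B p.1 ∈ F ∧ p.2 ∉ F).card : ℤ) := by positivity
  rcases Nat.eq_zero_or_pos d with hd0 | hd0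
  · subst hd0
    rw [add_zero] at hd
    obtain ⟨i0, hi0⟩ := hF.1
    have hsubF : ∀ i ∈ F, ∀ a ∈ sp ℓ b i, B a ∈ F := fun i hi a ha =>
      sp_sub_of_span hb hd (Submodule.subset_span ⟨i, hi, rfl⟩) (mem_sp.1 ha)
    have hne0 : (sp ℓ b i0).Nonempty := by
      by_contra hcon
      rw [Finset.not_nonempty_iff_eq_empty] at hcon
      apply hℓ i0
      have h2 : b.repr (ℓ i0) = 0 := by
        ext a
        by_contra hne
        have h3 : a ∈ sp ℓ b i0 := mem_sp.2 hne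
        rw [hcon] at h3
        exact absurd h3 (Finset.notMem_empty a)
      exact (LinearEquiv.map_eq_zero_iff _).1 h2
    obtain ⟨a0, ha0⟩ := hne0
    obtain ⟨Tj, hTj, hTj2, hTj3⟩ := hL (γ i0)
    have hAne : (inn B F ∩ cp B γ (γ i0)).Nonempty :=
      ⟨a0, Finset.mem_inter.2 ⟨mem_inn.2 (hsubF i0 hi0 a0 ha0), mem_cp.2 (hγ i0 a0 ha0)⟩⟩
    have hAne2 : inn B F ∩ cp B γ (γ i0) ≠ cp B γ (γ i0) := by
      intro he
      obtain ⟨h, hh1, hh2⟩ := hF.2 (γ i0)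
      apply hh2
      have h4 : ∀ a, b.repr (ℓ h) a ≠ 0 → B a ∈ F := by
        intro a ha
        have h5 : a ∈ cp B γ (γ i0) := by
          rw [mem_cp, hγ h a (mem_sp.2 ha), hh1]
        rw [← he] at h5
        exact mem_inn.1 (Finset.mem_inter.1 h5).1
      have h5 : ℓ h ∈ Submodule.span ℂ (b '' {a | B a ∈ F}) := by
        rw [b.mem_span_image]
        intro a ha
        exact h4 a (Finsupp.mem_support_iff.1 ha)
      have h6 : Submodule.span ℂ (b '' {a | B a ∈ F}) ≤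
          Submodule.span ℂ (ℓ '' (F : Set (Fin q))) := by
        rw [Submodule.span_le]
        rintro _ ⟨a, ha, rfl⟩
        rw [hb a]
        exact Submodule.subset_span ⟨B a, ha, rfl⟩
      exact h6 h5
    obtain ⟨p, hp, hp1, hp2⟩ := hTj3 _ Finset.inter_subset_right hAne hAne2
    have hpF : p.2 ∉ F := by
      intro hpF
      apply hp2
      intro a ha
      exact Finset.mem_inter.2 ⟨mem_inn.2 (hsubF _ hpF a ha), hTj2 p hp ha⟩
    have hposc : 1 ≤ (T.filter fun p => B p.1 ∈ F ∧ p.2 ∉ F).card :=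
      Finset.card_pos.2 ⟨p, Finset.mem_filter.2 ⟨hTj hp, mem_inn.1 (Finset.mem_inter.1 hp1).1,
        hpF⟩⟩
    have hneg : (T.filter fun p => B p.1 ∉ F ∧ p.2 ∈ F).card = 0 := by
      rw [Finset.card_eq_zero, Finset.filter_eq_empty_iff]
      rintro p' hp' ⟨h1, h2⟩
      exact h1 (hsubF _ h2 _ (hmem p' hp'))
    rw [hd, hneg]
    have : (1 : ℤ) ≤ ((T.filter fun p => B p.1 ∈ F ∧ p.2 ∉ F).card : ℤ) := by exact_mod_cast hposc
    push_cast
    linarith
  · have hkey : ((T.filter fun p => B p.1 ∉ F ∧ p.2 ∈ F).card : ℤ) + 1 ≤ R * d := by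
      rcases Nat.lt_or_ge 1 d with h2 | h2
      · have h3 : (T.filter fun p => B p.1 ∉ F ∧ p.2 ∈ F).card ≤ T.card :=
          Finset.card_filter_le _ _
        have h4 : (T.filter fun p => B p.1 ∉ F ∧ p.2 ∈ F).card + 1 ≤ R * d := by
          have h5 : R * 2 ≤ R * d := Nat.mul_le_mul_left R h2
          omega
        exact_mod_cast h4
      · have hd1 : d = 1 := by omega
        subst hd1
        have h3 := h1 F hd
        unfold neg at h3
        rw [Nat.cast_one, mul_one]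
        exact_mod_cast h3
    rw [hd]
    push_cast
    have e : (((inn B F).card : ℤ) + d - (inn B F).card) = d := by ring
    rw [e]
    linarith

/-- a form in a full star -/
theorem neg_count (hb : ∀ a, b a = ℓ (B a)) (hγ : ∀ i, ∀ a ∈ sp ℓ b i, γ (B a) = γ i)
    {Tj : Fin c → Finset (Fin (n + 1) × Fin q)}
    (hin : ∀ j, Inside (sp ℓ b) (Tj j) (cp B γ j))
    (hmin : ∀ j, ∀ p ∈ Tj j, ∃ A : Finset (Fin (n + 1)), p.1 ∈ A ∧ ¬ sp ℓ b p.2 ⊆ A ∧
        ∀ p' ∈ Tj j, p' ≠ p → p'.1 ∈ A → sp ℓ b p'.2 ⊆ A) {T : Finset (Fin (n + 1) × Fin q)}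
    (hT : ∀ p, p ∈ T ↔ ∃ j, p ∈ Tj j) {F : Finset (Fin q)}
    (hF : rk ℓ F = (inn B F).card + 1) :
    neg B T F = ∅ ∨ ∃ j, (neg B T F).card ≤ (cp B γ j).card ∧
      ((neg B T F).card = (cp B γ j).card → (∀ a, a ∈ cp B γ j → a ∉ inn B F) ∧
        ∃ p ∈ neg B T F, sp ℓ b p.2 = cp B γ j) := by
  classical
  rcases (neg B T F).eq_empty_or_nonempty with h0 | ⟨p0, hp0⟩
  · exact Or.inl h0
  right
  have hneg : ∀ p, p ∈ neg B T F ↔ p ∈ T ∧ B p.1 ∉ F ∧ p.2 ∈ F := by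
    intro p
    unfold neg
    rw [Finset.mem_filter]
  have hsp : ∀ p ∈ neg B T F, p.1 ∈ sp ℓ b p.2 := by
    intro p hp
    obtain ⟨j, hj⟩ := (hT p).1 ((hneg p).1 hp).1
    exact (hin j p hj).1
  have hout : ∀ p ∈ neg B T F, ∃ a ∈ sp ℓ b p.2, a ∉ inn B F := fun p hp =>
    ⟨p.1, hsp p hp, fun h => ((hneg p).1 hp).2.1 (mem_inn.1 h)⟩
  set j := γ p0.2 with hj
  set A0 := sp ℓ b p0.2 \ inn B F with hA0
  have hA0eq : ∀ p ∈ neg B T F, sp ℓ b p.2 \ inn B F = A0 := by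
    intro p hp
    obtain ⟨t, ht, h2⟩ := sp_eq hb hF ((hneg p0).1 hp0).2.2 ((hneg p).1 hp).2.2 (hout p0 hp0)
      (hout p hp)
    rw [hA0]
    ext a
    rw [Finset.mem_sdiff, Finset.mem_sdiff, mem_sp, mem_sp]
    constructor
    · rintro ⟨h3, h4⟩
      refine ⟨fun h5 => h3 ?_, h4⟩
      rw [h2 a h4, h5, mul_zero]
    · rintro ⟨h3, h4⟩
      refine ⟨?_, h4⟩
      rw [h2 a h4]
      exact mul_ne_zero ht h3
  have hp1 : ∀ p ∈ neg B T F, p.1 ∈ A0 := by
    intro p hp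
    rw [← hA0eq p hp, Finset.mem_sdiff]
    exact ⟨hsp p hp, fun h => ((hneg p).1 hp).2.1 (mem_inn.1 h)⟩
  have hγj : ∀ p ∈ neg B T F, γ (B p.1) = j := by
    intro p hp
    have h2 := hp1 p hp
    rw [hA0, Finset.mem_sdiff] at h2
    exact hγ _ _ h2.1
  have hsub : neg B T F ⊆ Tj j := by
    intro p hp
    obtain ⟨j', hj'⟩ := (hT p).1 ((hneg p).1 hp).1
    have h2 := (hin j' p hj').2 (hin j' p hj').1
    rw [mem_cp, hγj p hp] at h2
    rw [h2]
    exact hj'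
  have hspj : ∀ p ∈ neg B T F, sp ℓ b p.2 ⊆ cp B γ j := fun p hp => (hin j p (hsub hp)).2
  have hcnt := count (hmin j) (A0 := A0) (S := inn B F ∩ cp B γ j) hsub hp1
    (fun p hp => by rw [← hA0eq p hp]; exact Finset.sdiff_subset) (fun p hp a ha => by
      by_cases haF : a ∈ inn B F
      · exact Finset.mem_union_right _ (Finset.mem_inter.2 ⟨haF, hspj p hp ha⟩)
      · refine Finset.mem_union_left _ ?_
        rw [← hA0eq p hp, Finset.mem_sdiff]
        exact ⟨ha, haF⟩)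
  have hA0sub : A0 ⊆ cp B γ j := by
    rw [hA0]
    exact Finset.sdiff_subset.trans (hspj p0 hp0)
  have hdisj : Disjoint A0 (inn B F ∩ cp B γ j) := by
    rw [Finset.disjoint_left]
    intro a ha ha'
    rw [hA0, Finset.mem_sdiff] at ha
    exact ha.2 (Finset.mem_inter.1 ha').1
  have hcard : A0.card + (inn B F ∩ cp B γ j).card ≤ (cp B γ j).card := by
    rw [← Finset.card_union_of_disjoint hdisj]
    exact Finset.card_le_card (Finset.union_subset hA0sub Finset.inter_subset_right)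
  refine ⟨j, hcnt.1.trans hcard, fun heq => ?_⟩
  obtain ⟨h2, h3, h4⟩ := hcnt.2 (le_antisymm hcnt.1 (by omega))
  refine ⟨fun a ha haF => ?_, p0, hp0, ?_⟩
  · have h5 : a ∈ inn B F ∩ cp B γ j := Finset.mem_inter.2 ⟨haF, ha⟩
    rw [h2] at h5
    exact absurd h5 (Finset.notMem_empty a)
  · have h5 : A0 = cp B γ j := Finset.eq_of_subset_of_card_le hA0sub (by omega)
    refine Finset.Subset.antisymm (hspj p0 hp0) ?_
    rw [← h5, hA0]
    exact Finset.sdiff_subset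

end Pool.Agent.TH766.MC
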