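import Pool.Agent.TH766.MC.NotA1

/-!
Open covers of arrangements: the main theorems.
-/

set_option autoImplicit false

open FF Module IntermediateField Pool.Agent.W603.LV Pool.Agent.W602.GT Pool.Agent.W602.Cov
open Pool.Agent.W602.Cov.Cover Pool.Agent.W602.Cov.G
open Pool.Agent.W168.CG.PGR Pool.Agent.TH152.AC

namespace Pool.Agent.TH766.MC

variable {n q r c : ℕ}

/-- The multiplicity which is needed for an arrangement with `c` irreducible components: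
`n + 3 - c`, or `n + 1` if `c = 1` and there are at least `n + 3` different hyperplanes. -/
def Bound (ℓ : Fin q → Form n) (c R : ℕ) : Prop :=
  R + c = n + 3 ∨ (c = 1 ∧ Many ℓ ∧ R = n + 1)

theorem splits_le {ℓ : Fin q → Form n} (h : Splits ℓ c) : 1 ≤ c ∧ c ≤ n + 1 := by
  obtain ⟨e, g, hg, -⟩ := h
  refine ⟨(g 0).pos, ?_⟩
  have h1 := Fintype.card_le_of_surjective g hg
  simpa using h1

theorem Bound.pos {ℓ : Fin q → Form n} {R : ℕ} (h : Bound ℓ c R) (hc : Splits ℓ c) : 1 ≤ R := by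
  have := (splits_le hc).2
  rcases h with h | ⟨-, -, h⟩ <;> omega

theorem exists_wt (hn : 1 ≤ n) {ℓ : Fin q → Form n} (hℓ : ∀ i, ℓ i ≠ 0) {γ : Fin q → Fin c}
    {R : ℕ} (hR : Bound ℓ c R) (hc : 1 ≤ c) (hspan : Submodule.span ℂ (Set.range ℓ) = ⊤)
    (hB : Blocks ℓ γ) (hconn : ∀ (B : Bases ℓ) j, Conn (sp ℓ (bas B)) (cp B.1 γ j)) :
    ∃ p : Bases ℓ → ℕ, Wt ℓ (Fam ℓ γ) R p := by
  refine weights2 hspan fun B => ?_
  rcases hR with h | ⟨h1, h2, h3⟩
  · exact exch_gen (fun a => bas_apply B a) hℓ (hB.supp B) (hconn B) (hB.cp_ne B) h hc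
  · subst h1
    subst h3
    exact exch_many hn (fun a => bas_apply B a) hℓ (hconn B) h2

/-- **Open covers.** -/
theorem tfae (hn : 1 ≤ n) (X : Cover n q r) {U : Finset (Fin q)} (hF : X.FreeU U) {K : Type}
    [Field K] [Algebra ℂ K] {x : Fin (n + 1) → K} {y : Fin r → K} (hK : X.FunctionField K x y)
    (hc : Splits X.ℓ c) (hc1 : ¬ Splits X.ℓ (c + 1)) {R : ℕ} (hR : Bound X.ℓ c R)
    (hm : MultU X U R) :
    [Pool.Agent.W619.PL.IsA1Uniruled ℂ K n (OffD X.ℓ U x), ¬ KodGe ℂ K n (OffD X.ℓ U x) 0,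
      ¬ Psef ℂ K n (OffD X.ℓ U x), FreePart X.ℓ U].TFAE := by
  obtain ⟨h1, h2, h3⟩ := coords X hK
  have hmain : ¬ FreePart X.ℓ U → KodGe ℂ K n (OffD X.ℓ U x) 0 ∧
      ¬ Pool.Agent.W619.PL.IsA1Uniruled ℂ K n (OffD X.ℓ U x) := by
    intro hfp
    obtain ⟨γ, hB, hD, hconn⟩ := exists_blocks hn X.hℓ hc hc1 hfp
    have hspan := span_top' hn hfp
    obtain ⟨p, hp⟩ := exists_wt hn X.hℓ hR (splits_le hc).1 hspan hB hconn
    have hgood : ∀ P : Place ℂ K, ¬ OffD X.ℓ U x P → GoodAt X.ℓ γ x R P := fun P hP =>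
      good_of_multU X hF hK hB.surj hD hm P hP
    exact ⟨kod0 hB hspan (hR.pos hc) hp h1 h2 h3 _ fun P _ hP => hgood P hP,
      not_a1 hB hspan (hR.pos hc) hp h1 h2 h3 _ hgood⟩
  tfae_have 4 → 1 := fun h => a1_of_freePart X (prim_of_freeU X hF) hK h
  tfae_have 4 → 3 := fun h => not_psef_of_freePart X (prim_of_freeU X hF) hK h
  tfae_have 3 → 2 := fun h hk => h (psef_of_kodGe hk)
  tfae_have 2 → 4 := fun h => by
    by_contra hfp
    exact h (hmain hfp).1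
  tfae_have 1 → 4 := fun h => by
    by_contra hfp
    exact (hmain hfp).2 h
  tfae_finish

/-- **The logarithmic Kodaira dimension.** -/
theorem kod_eq (hn : 1 ≤ n) (X : Cover n q r) {U : Finset (Fin q)} (hF : X.FreeU U) {K : Type}
    [Field K] [Algebra ℂ K] {x : Fin (n + 1) → K} {y : Fin r → K} (hK : X.FunctionField K x y)
    (hc : Splits X.ℓ c) (hc1 : ¬ Splits X.ℓ (c + 1)) {R : ℕ} (hR : Bound X.ℓ c R)
    (hm : MultU X U (R + 1)) (hfp : ¬ FreePart X.ℓ U) {h : ℕ} (hh : h + c = n + 1) :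
    KodGe ℂ K n (OffD X.ℓ U x) h ∧ ¬ KodGe ℂ K n (OffD X.ℓ U x) (h + 1) := by
  obtain ⟨h1, h2, h3⟩ := coords X hK
  obtain ⟨γ, hB, hD, hconn⟩ := exists_blocks hn X.hℓ hc hc1 hfp
  have hspan := span_top' hn hfp
  obtain ⟨p, hp⟩ := exists_wt hn X.hℓ hR (splits_le hc).1 hspan hB hconn
  refine ⟨kodc hB hspan (hR.pos hc) hp h1 h2 h3 _ (fun P _ hP =>
      good_of_multU X hF hK hB.surj hD hm P hP) hh, fun hk => ?_⟩
  have := kod_le_of_splits X (prim_of_freeU X hF) hK (U : Set (Fin q)) hc hk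
  omega

end Pool.Agent.TH766.MC
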