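import Pool.Agent.TH766.MC.Dc
import Pool.Agent.W602.GT.KPsefS
import Pool.Agent.W619.PL.LDefs

/-!
Upper bounds for the logarithmic Kodaira dimension of open covers of decomposed arrangements.
-/

set_option autoImplicit false

open FF Module IntermediateField Pool.Agent.W603.LV Pool.Agent.W602.GT Pool.Agent.W602.Cov
open Pool.Agent.W602.Cov.Cover Pool.Agent.W602.Cov.G
open Pool.Agent.W168.CG.PGR Pool.Agent.TH152.AC

namespace Pool.Agent.TH766.MC

variable {n q r : ℕ} {K : Type} [Field K] [Algebra ℂ K]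

/-- The centre of the place `P` on projective space lies on one of the hyperplanes `ℓ i = 0`,
`i ∈ D`. -/
def OffD (ℓ : Fin q → Form n) (D : Set (Fin q)) (x : Fin (n + 1) → K) (P : Place ℂ K) : Prop :=
  ∃ i ∈ D, ∃ j, x j ≠ 0 ∧ P.ord (x j) < P.ord (lf (ℓ i) x)

/-- the orders of eigenvectors -/
theorem ord_eig (δ : Derivation ℂ K K) {σ : K} (hσ0 : σ ≠ 0) (hσ : δ σ = σ) {P : Place ℂ K}
    (hP : ∀ c : K, δ c = 0 → c ≠ 0 → P.ord c = 0) {f : K} (hf : f ≠ 0) {m : ℤ}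
    (h : δ f / f = m) : P.ord f = m * P.ord σ := by
  have h1 := zpow_ne_zero (-m) hσ0
  have h2 : δ (f * σ ^ (-m)) = 0 := by
    apply const_of_ld δ (mul_ne_zero hf h1)
    rw [ld_mul δ hf h1, ld_zpow δ hσ0, hσ, div_self hσ0, h]
    push_cast
    ring
  have h3 := hP _ h2 (mul_ne_zero hf h1)
  rw [P.ord_mul hf h1, P.ord_zpow] at h3
  linarith

section

variable {x : Fin (n + 1) → K} {e : Basis (Fin (n + 1)) ℂ (Fin (n + 1) → ℂ)}
  {s : Set (Fin (n + 1))} {δ : Derivation ℂ K K} {σ : K} {N : ℤ}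

/-- the orders of the coordinates -/
theorem ord_co (hco : ∀ a, co e x a ≠ 0) (hσ0 : σ ≠ 0) (hσ : δ σ = σ)
    (hld : ∀ a b, δ (co e x a / co e x b) / (co e x a / co e x b) = N * (ev s a - ev s b))
    {P : Place ℂ K} (hP : ∀ c : K, δ c = 0 → c ≠ 0 → P.ord c = 0) (a b : Fin (n + 1)) :
    P.ord (co e x a) = P.ord (co e x b) + N * (ev s a - ev s b) * P.ord σ := by
  have h1 := ord_eig δ hσ0 hσ hP (f := co e x a / co e x b) (div_ne_zero (hco a) (hco b))
    (m := N * (ev s a - ev s b)) (by rw [hld]; push_cast; ring)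
  rw [P.ord_div (hco a) (hco b)] at h1
  linarith

/-- the orders of the forms -/
theorem ord_form (hco : ∀ a, co e x a ≠ 0) (hσ0 : σ ≠ 0) (hσ : δ σ = σ)
    (hld : ∀ a b, δ (co e x a / co e x b) / (co e x a / co e x b) = N * (ev s a - ev s b))
    {P : Place ℂ K} (hP : ∀ c : K, δ c = 0 → c ≠ 0 → P.ord c = 0) {φ : Form n}
    (hφ : lf φ x ≠ 0) (b : Fin (n + 1)) (h : ∀ a, φ (e a) ≠ 0 → ev s a = ev s b) :
    P.ord (lf φ x) = P.ord (co e x b) := by
  have h2 : δ (lf φ x / co e x b) / (lf φ x / co e x b) = ((0 : ℤ) : K) := by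
    rw [Int.cast_zero]
    apply ld_form δ e (hco b) hφ
    intro a ha
    have h3 := hld a b
    rw [h a ha, sub_self, mul_zero] at h3
    rw [zero_mul]
    exact const_of_ld δ (div_ne_zero (hco a) (hco b)) h3
  have h1 := ord_eig δ hσ0 hσ hP (div_ne_zero hφ (hco b)) h2
  rw [P.ord_div hφ (hco b)] at h1
  linarith

/-- the centre does not meet the hyperplanes in the second part of the coordinates -/
theorem not_off {ℓ : Fin q → Form n} {D : Set (Fin q)} (hl : ∀ i, lf (ℓ i) x ≠ 0)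
    (hco : ∀ a, co e x a ≠ 0) (hσ0 : σ ≠ 0)
    (hσ : δ σ = σ) (hN : 0 < N)
    (hld : ∀ a b, δ (co e x a / co e x b) / (co e x a / co e x b) = N * (ev s a - ev s b))
    {a2 : Fin (n + 1)} (ha2 : a2 ∉ s) (hD : ∀ i ∈ D, ∀ a ∈ s, ℓ i (e a) = 0)
    {P : Place ℂ K} (hP : ∀ c : K, δ c = 0 → c ≠ 0 → P.ord c = 0) (hPσ : 0 ≤ P.ord σ) :
    ¬ OffD ℓ D x P := by
  rintro ⟨i, hi, j, hj, hlt⟩
  have h1 : P.ord (lf (ℓ i) x) = P.ord (co e x a2) :=
    ord_form hco hσ0 hσ hld hP (hl i) a2 fun a ha => by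
      rw [ev_neg ha2]
      exact ev_neg fun h => ha (hD i hi a h)
  have h2 := ge_span P (P.ord (co e x a2)) (Set.range e.dualBasis) x (by
    rintro _ ⟨a, rfl⟩
    right
    have h3 := ord_co hco hσ0 hσ hld hP a a2
    change _ ≤ P.ord (co e x a)
    rw [h3, ev_neg ha2, sub_zero]
    have h4 : 0 ≤ ev s a := by
      by_cases h5 : a ∈ s
      · rw [ev_pos h5]; norm_num
      · rw [ev_neg h5]
    have h5 : 0 ≤ N * ev s a * P.ord σ := mul_nonneg (mul_nonneg hN.le h4) hPσ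
    linarith) (LinearMap.proj j) (by rw [e.dualBasis.span_eq]; trivial)
  rw [lf_proj] at h2
  rcases h2 with h2 | h2
  · exact hj h2
  · omega

/-- the centre does not meet the hyperplanes -/
theorem not_off0 {ℓ : Fin q → Form n} {D : Set (Fin q)} (hl : ∀ i, lf (ℓ i) x ≠ 0)
    (hco : ∀ a, co e x a ≠ 0) (hσ0 : σ ≠ 0) (hσ : δ σ = σ)
    (hld : ∀ a b, δ (co e x a / co e x b) / (co e x a / co e x b) = N * (ev s a - ev s b))
    {a1 a2 : Fin (n + 1)} (ha1 : a1 ∈ s) (ha2 : a2 ∉ s)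
    (hs : ∀ i, (∀ a ∈ s, ℓ i (e a) = 0) ∨ (∀ a, a ∉ s → ℓ i (e a) = 0))
    {P : Place ℂ K} (hP : ∀ c : K, δ c = 0 → c ≠ 0 → P.ord c = 0) (hPσ : P.ord σ = 0) :
    ¬ OffD ℓ D x P := by
  rintro ⟨i, hi, j, hj, hlt⟩
  have hall : ∀ a b, P.ord (co e x a) = P.ord (co e x b) := fun a b => by
    rw [ord_co hco hσ0 hσ hld hP a b, hPσ, mul_zero, add_zero]
  have h1 : P.ord (lf (ℓ i) x) = P.ord (co e x a2) := by
    rcases hs i with h | h
    · exact ord_form hco hσ0 hσ hld hP (hl i) a2 fun a ha => by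
        rw [ev_neg ha2]
        exact ev_neg fun h' => ha (h a h')
    · rw [hall a2 a1]
      exact ord_form hco hσ0 hσ hld hP (hl i) a1 fun a ha => by
        rw [ev_pos ha1]
        exact ev_pos (by_contra fun h' => ha (h a h'))
  have h2 := ge_span P (P.ord (co e x a2)) (Set.range e.dualBasis) x (by
    rintro _ ⟨a, rfl⟩
    right
    exact (hall a2 a).le) (LinearMap.proj j) (by rw [e.dualBasis.span_eq]; trivial)
  rw [lf_proj] at h2
  rcases h2 with h2 | h2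
  · exact hj h2
  · omega

end

/-- coordinates adapted to a decomposition -/
theorem FreePart.basis {ℓ : Fin q → Form n} {D : Set (Fin q)} (h : FreePart ℓ D) :
    ∃ (e : Basis (Fin (n + 1)) ℂ (Fin (n + 1) → ℂ)) (s : Set (Fin (n + 1))) (a1 a2 : Fin (n + 1)),
      a1 ∈ s ∧ a2 ∉ s ∧ (∀ i, (∀ a ∈ s, ℓ i (e a) = 0) ∨ (∀ a, a ∉ s → ℓ i (e a) = 0)) ∧
        ∀ i ∈ D, ∀ a ∈ s, ℓ i (e a) = 0 := by
  classical
  obtain ⟨V₁, V₂, hV1, hV2, hV, hi, hD⟩ := h
  let b1 := finBasis ℂ V₁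
  let b2 := finBasis ℂ V₂
  let b0 := (b1.prod b2).map (Submodule.prodEquivOfIsCompl V₁ V₂ hV)
  have hcard : Fintype.card (Fin (finrank ℂ V₁) ⊕ Fin (finrank ℂ V₂)) =
      Fintype.card (Fin (n + 1)) := by
    rw [← finrank_eq_card_basis b0, Module.finrank_fintype_fun_eq_card]
  let E := Fintype.equivOfCardEq hcard
  have hb1 : ∀ i, b0 (Sum.inl i) = b1 i := by
    intro i
    simp only [b0, Basis.map_apply, Submodule.coe_prodEquivOfIsCompl']
    simp
  have hb2 : ∀ i, b0 (Sum.inr i) = b2 i := by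
    intro i
    simp only [b0, Basis.map_apply, Submodule.coe_prodEquivOfIsCompl']
    simp
  have hpos : ∀ V : Submodule ℂ (Fin (n + 1) → ℂ), V ≠ ⊥ → 0 < finrank ℂ V := fun V hV =>
    Nat.pos_of_ne_zero fun h => hV (Submodule.finrank_eq_zero.1 h)
  have hin : ∀ a, (∃ i, E.symm a = Sum.inl i) → (b0.reindex E) a ∈ V₁ := by
    rintro a ⟨i, h⟩
    rw [Basis.reindex_apply, h, hb1]
    exact (b1 i).2
  have hout : ∀ a, ¬ (∃ i, E.symm a = Sum.inl i) → (b0.reindex E) a ∈ V₂ := by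
    intro a ha
    rcases h : E.symm a with i | i
    · exact absurd ⟨i, h⟩ ha
    · rw [Basis.reindex_apply, h, hb2]
      exact (b2 i).2
  refine ⟨b0.reindex E, {a | ∃ i, E.symm a = Sum.inl i}, E (Sum.inl ⟨0, hpos _ hV1⟩),
    E (Sum.inr ⟨0, hpos _ hV2⟩), ⟨⟨0, hpos _ hV1⟩, by rw [Equiv.symm_apply_apply]⟩, ?_, ?_, ?_⟩
  · rintro ⟨i, h⟩
    rw [Equiv.symm_apply_apply] at h
    cases h
  · intro i
    rcases hi i with h | h
    · exact Or.inl fun a ha => h _ (hin a ha)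
    · exact Or.inr fun a ha => h _ (hout a ha)
  · exact fun i hiD a ha => hD i hiD _ (hin a ha)

/-- **Free parts.** The log canonical bundle is not pseudo-effective. -/
theorem not_psef_of_freePart (X : Cover n q r) (hF : Prim X) {x : Fin (n + 1) → K}
    {y : Fin r → K} (hK : X.FunctionField K x y) {D : Set (Fin q)} (h : FreePart X.ℓ D) :
    ¬ Psef ℂ K n (OffD X.ℓ D x) := by
  obtain ⟨hφ0, -, -, -⟩ := Pool.Agent.W352.CG.TRA.main n q r X K x y hK
  have hbas := (coords X hK).2.2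
  obtain ⟨e, s, a1, a2, ha1, ha2, hs, hD⟩ := h.basis
  obtain ⟨δ, σ, N, hσ0, hσ, htop, hN, hld, -⟩ := delta_cover X hF hK e s ha1 ha2 hs
  exact not_psef (trdeg_of_basis hbas) δ hσ0 hσ htop fun P hP hPσ =>
    not_off (fun i => hφ0 _ (X.hℓ i)) (fun a => hφ0 _ (e.dualBasis.ne_zero a)) hσ0 hσ hN hld ha2
      hD hP hPσ

end Pool.Agent.TH766.MC
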