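import Pool.Agent.TH766.MC.Main
import Pool.Agent.TH152.AC.Fin

/-!
Pairs on generically finite covers of projective space over an arbitrary arrangement.
-/

set_option autoImplicit false

open FF Module Pool.Agent.W603.LV Pool.Agent.W602.GT Pool.Agent.W602.Cov Pool.Agent.W602.Cov.G
open Pool.Agent.W168.CG.PGR Pool.Agent.TH152.AC

namespace Pool.Agent.TH766.MC

variable {n q c : ℕ} {ℓ : Fin q → Form n} {γ : Fin q → Fin c} {K : Type} [Field K] [Algebra ℂ K]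

/-- `γ i` is the component of the hyperplane `i`: in suitable linear coordinates (those of the basis
`e`) the variables are divided into `c` nonempty groups (the variable `a` is in the group `g a`)
such that `ℓ i` is a form in the variables of the group `γ i`. -/
def Comps (ℓ : Fin q → Form n) (γ : Fin q → Fin c) : Prop :=
  ∃ (e : Basis (Fin (n + 1)) ℂ (Fin (n + 1) → ℂ)) (g : Fin (n + 1) → Fin c),
    Function.Surjective g ∧ ∀ i a, g a ≠ γ i → ℓ i (e a) = 0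

theorem Comps.splits (h : Comps ℓ γ) : Splits ℓ c := by
  obtain ⟨e, g, hg, h⟩ := h
  exact ⟨e, g, hg, fun i => ⟨γ i, h i⟩⟩

theorem Comps.blocks (h : Comps ℓ γ) (hℓ : ∀ i, ℓ i ≠ 0)
    (hspan : Submodule.span ℂ (Set.range ℓ) = ⊤) (hc1 : ¬ Splits ℓ (c + 1)) :
    Blocks ℓ γ ∧ ∀ (B : Bases ℓ) j, Conn (sp ℓ (bas B)) (cp B.1 γ j) := by
  classical
  obtain ⟨e, g, hg, hγ⟩ := h
  have hB : Blocks ℓ γ := by
    refine ⟨⟨fun j => (e.constr ℂ (fun a => if g a = j then e a else 0)).dualMap, fun i j => ?_⟩,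
      ?_, hℓ⟩
    · apply e.ext
      intro a
      rw [LinearMap.dualMap_apply, Basis.constr_basis]
      by_cases h1 : g a = j
      · rw [if_pos h1]
        by_cases h2 : γ i = j
        · rw [if_pos h2]
        · rw [if_neg h2, LinearMap.zero_apply]
          exact hγ i a (fun h => h2 (h.symm.trans h1))
      · rw [if_neg h1, map_zero]
        by_cases h2 : γ i = j
        · rw [if_pos h2]
          exact (hγ i a (fun h => h1 (h.trans h2))).symm
        · rw [if_neg h2, LinearMap.zero_apply]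
    · intro j
      by_contra hcon
      push Not at hcon
      obtain ⟨a, ha⟩ := hg j
      have h1 : ∀ φ ∈ Submodule.span ℂ (Set.range ℓ), φ (e a) = 0 := by
        intro φ hφ
        induction hφ using Submodule.span_induction with
        | mem φ hφ =>
          obtain ⟨i, rfl⟩ := hφ
          exact hγ i a fun h => hcon i (h.symm.trans ha)
        | zero => rfl
        | add φ ψ _ _ h1 h2 => rw [LinearMap.add_apply, h1, h2, add_zero]
        | smul t φ _ h1 => rw [LinearMap.smul_apply, h1, smul_zero]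
      have h2 := h1 (e.dualBasis a) (by rw [hspan]; trivial)
      rw [Basis.dualBasis_apply_self, if_pos rfl] at h2
      exact one_ne_zero h2
  refine ⟨hB, fun B j U hU hUn hUC => ?_⟩
  by_contra hcon
  push Not at hcon
  apply hc1
  obtain ⟨e', he'⟩ := exists_dual (bas B)
  have hsup : ∀ i, sp ℓ (bas B) i ⊆ cp B.1 γ (γ i) := fun i a ha => mem_cp.2 (hB.supp B i a ha)
  refine ⟨e', fun a => if a ∈ U then Fin.last c else (γ (B.1 a)).castSucc, ?_, ?_⟩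
  · intro j'
    refine Fin.lastCases ?_ (fun j' => ?_) j'
    · obtain ⟨a, ha⟩ := hUn
      exact ⟨a, if_pos ha⟩
    · by_cases hj : j' = j
      · obtain ⟨a, ha, haU⟩ : ∃ a ∈ cp B.1 γ j, a ∉ U := by
          by_contra h
          push Not at h
          exact hUC (Finset.Subset.antisymm hU h)
        refine ⟨a, ?_⟩
        dsimp only
        rw [if_neg haU, mem_cp.1 ha, hj]
      · obtain ⟨a, ha⟩ := hB.cp_ne B j'
        have haU : a ∉ U := fun h => hj ((mem_cp.1 ha).symm.trans (mem_cp.1 (hU h)))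
        refine ⟨a, ?_⟩
        dsimp only
        rw [if_neg haU, mem_cp.1 ha]
  · intro i
    have hz : ∀ a, a ∉ sp ℓ (bas B) i → ℓ i (e' a) = 0 := by
      intro a ha
      rw [he']
      by_contra h
      exact ha (mem_sp.2 h)
    by_cases hm : ∃ a ∈ sp ℓ (bas B) i, a ∈ U
    · obtain ⟨a, ha, haU⟩ := hm
      have hij : γ i = j := (mem_cp.1 (hsup i ha)).symm.trans (mem_cp.1 (hU haU))
      refine ⟨Fin.last c, fun a' ha' => hz a' fun ha1 => ?_⟩
      have h1 : a' ∈ U := hcon i (by rw [← hij]; exact hsup i) ⟨a, ha, haU⟩ a' ha1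
      dsimp only at ha'
      exact ha' (if_pos h1)
    · push Not at hm
      refine ⟨(γ i).castSucc, fun a' ha' => hz a' fun ha1 => ?_⟩
      dsimp only at ha'
      rw [if_neg (hm a' ha1), mem_cp.1 (hsup i ha1)] at ha'
      exact ha' rfl

/-- `ω` is a section of `N (K_X + Δ)`; `X` is the set of the prime divisors of the model, `δ P` is the
coefficient of `Δ` at `P`. -/
def PairSec (n : ℕ) (X : Set (Place ℂ K)) (δ : Place ℂ K → ℝ) (N : ℕ)
    (ω : (Fin n → Derivation ℂ K K) → K) : Prop :=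
  IsPluri N ω ∧ ∀ P ∈ X, Divisorial n P → ∀ D : Fin n → Derivation ℂ K K,
    (∀ i, DerReg P (D i)) → ω D = 0 ∨ -(N * δ P) ≤ (P.ord (ω D) : ℝ)

/-- the multiplicities over the arrangement -/
def HighC (ℓ : Fin q → Form n) (γ : Fin q → Fin c) (x : Fin (n + 1) → K) (X : Set (Place ℂ K))
    (δ : Place ℂ K → ℝ) (s : ℝ) : Prop :=
  ∀ P ∈ X, Divisorial n P → ∀ (a : ℤ) (v : Fin q → ℕ),
    (∀ φ : Form n, lf φ x = 0 ∨ a ≤ P.ord (lf φ x)) →
    (∃ φ : Form n, lf φ x ≠ 0 ∧ P.ord (lf φ x) = a) →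
    (∀ i, P.ord (lf (ℓ i) x) = a + v i) → v ≠ 0 →
    ∃ i i', γ i' = γ i ∧ s * (1 - δ P) ≤ (v i : ℝ) - v i'

/-- the main estimate -/
theorem pair_ord (hB : Blocks ℓ γ) (hspan : Submodule.span ℂ (Set.range ℓ) = ⊤)
    {p : Bases ℓ → ℕ} {R : ℕ} (hp : Wt ℓ (Fam ℓ γ) R p) {x : Fin (n + 1) → K}
    (hlx : ∀ i, lf (ℓ i) x ≠ 0) {X : Set (Place ℂ K)} {δ : Place ℂ K → ℝ} {s : ℝ}
    (h : HighC ℓ γ x X δ s) (t : ℕ) {P : Place ℂ K} (hPX : P ∈ X) (hPd : Divisorial n P)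
    (hδ : 0 ≤ δ P) {D : Fin n → Derivation ℂ K K} (hD : ∀ i, DerReg P (D i)) :
    ∃ (a : ℤ) (v v' : Fin q → ℕ) (m : Fin c → ℕ) (c' : ℤ) (M : ℝ),
      (∀ i, P.ord (lf (ℓ i) x) = a + v i) ∧ (∀ i, v i = v' i + m (γ i)) ∧
      Ge P c' (pf ℓ x p t D) ∧ (∀ i, (v' i : ℝ) ≤ M) ∧ 0 ≤ M ∧
      ((M = 0 ∧ 0 ≤ (c' : ℝ)) ∨ (s * (1 - δ P) ≤ M ∧
        (t * ∑ B, (p B : ℝ)) * M ≤ R * (c' + t * ∑ B, (p B : ℝ)))) := by
  obtain ⟨B0⟩ := exists_bases hspan
  have i0 : Fin q := B0.1 0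
  obtain ⟨a, v, ⟨i1, hi1⟩, hv, -, c', hc, hc1, hc2, hc3⟩ :=
    pf_ord2' hp hspan t hlx P i0 D 1 (reg1 P hD).1 (reg1 P hD).2
  obtain ⟨v', m, hdec, hm, -⟩ := hB.dec hspan hlx P hv
  by_cases hv0 : v = 0
  · have hv' : v' = 0 := by
      funext i
      have h1 := hm i
      rw [hv0] at h1
      simp only [Pi.zero_apply] at h1 ⊢
      omega
    refine ⟨a, v, v', m, c', 0, hv, hm, hc, fun i => by rw [hv']; simp, le_rfl, Or.inl ⟨rfl, ?_⟩⟩
    exact_mod_cast hc1 hv0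
  · obtain ⟨i, i', hii, hs⟩ := h P hPX hPd a v (fun φ => by
      refine Pool.Agent.W168.CG.PGR.ge_span P a (Set.range ℓ) x ?_ φ (by rw [hspan]; trivial)
      rintro _ ⟨i, rfl⟩
      right
      rw [hv i]
      have : (0 : ℤ) ≤ v i := by positivity
      linarith) ⟨ℓ i1, hlx i1, by rw [hv i1, hi1]; simp⟩ hv hv0
    obtain ⟨im, -, hmax⟩ := Finset.exists_max_image Finset.univ v' ⟨i0, Finset.mem_univ _⟩
    have h1 := hc3 v' hdec im
    have h2 : ((t : ℝ) * (∑ B, (p B : ℝ)) * v' im) ≤ R * (c' + 1 * (t * ∑ B, (p B : ℝ))) := by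
      exact_mod_cast h1
    refine ⟨a, v, v', m, c', v' im, hv, hm, hc, fun i => by
      exact_mod_cast hmax i (Finset.mem_univ i), by positivity, Or.inr ⟨?_, by rw [one_mul] at h2; exact h2⟩⟩
    have h3 : ((v i : ℝ) - v i') ≤ v' im := by
      rw [hm i, hm i', hii]
      push_cast
      have h4 : (v' i : ℝ) ≤ v' im := by exact_mod_cast hmax i (Finset.mem_univ i)
      have h5 : (0 : ℝ) ≤ v' i' := by positivity
      linarith
    exact hs.trans h3

/-- **Nonvanishing.** -/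
theorem pairs_nonvanishing (hn : 1 ≤ n) (hℓ : ∀ i, ℓ i ≠ 0) (hγ : Comps ℓ γ)
    (hc1 : ¬ Splits ℓ (c + 1)) (hspan : Submodule.span ℂ (Set.range ℓ) = ⊤) {R : ℕ}
    (hR : Bound ℓ c R) {x : Fin (n + 1) → K} (hx0 : x 0 ≠ 0)
    (hbas : IsTranscendenceBasis ℂ (fun j : Fin n => x j.succ / x 0)) (X : Set (Place ℂ K))
    (δ : Place ℂ K → ℝ) (hδ : ∀ P ∈ X, 0 ≤ δ P) (h : HighC ℓ γ x X δ R) :
    ∃ N : ℕ, 0 < N ∧ ∃ ω : (Fin n → Derivation ℂ K K) → K, PairSec n X δ N ω ∧ ∃ D, ω D ≠ 0 := by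
  have hlx : ∀ i, lf (ℓ i) x ≠ 0 := fun i => lf_ne hx0 hbas.1 (hℓ i)
  obtain ⟨hB, hconn⟩ := hγ.blocks hℓ hspan hc1
  obtain ⟨p, hp⟩ := exists_wt hn hℓ hR (splits_le hγ.splits).1 hspan hB hconn
  have hR1 := hR.pos hγ.splits
  have hp0 := hp.1
  obtain ⟨D, hD⟩ := (bwb n K).2.2 x hx0 hbas
  refine ⟨1 * ∑ B, p B, by omega, pf ℓ x p 1, ⟨pf_pluri x p 1, ?_⟩, D, ?_⟩
  · intro P hPX hPd D hD
    obtain ⟨a, v, v', m, c', M, -, -, hc, -, hM0, hM⟩ :=
      pair_ord hB hspan hp hlx h 1 hPX hPd (hδ P hPX) hD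
    rcases hc with hc | hc
    · exact Or.inl hc
    right
    have hc' : (c' : ℝ) ≤ P.ord (pf ℓ x p 1 D) := by exact_mod_cast hc
    refine le_trans ?_ hc'
    have hN0 : (0 : ℝ) ≤ ∑ B, (p B : ℝ) := by positivity
    push_cast
    rcases hM with ⟨-, h0⟩ | ⟨h1, h2⟩
    · have h3 := mul_nonneg hN0 (hδ P hPX)
      linarith
    · have h4 := mul_le_mul_of_nonneg_left h1 hN0
      have hpos : (0 : ℝ) < R := by exact_mod_cast hR1
      push_cast at h2
      refine le_of_mul_le_mul_left ?_ hpos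
      nlinarith
  · unfold pf
    exact div_ne_zero (pow_ne_zero _ hD) (den_ne hlx p 1)

/-- **The Kodaira dimension of pairs.** -/
theorem pairs_kod (hn : 1 ≤ n) (hℓ : ∀ i, ℓ i ≠ 0) (hγ : Comps ℓ γ)
    (hc1 : ¬ Splits ℓ (c + 1)) (hspan : Submodule.span ℂ (Set.range ℓ) = ⊤) {R : ℕ}
    (hR : Bound ℓ c R) {x : Fin (n + 1) → K} (hx0 : x 0 ≠ 0)
    (hbas : IsTranscendenceBasis ℂ (fun j : Fin n => x j.succ / x 0)) (X : Set (Place ℂ K))
    (δ : Place ℂ K → ℝ) (hδ : ∀ P ∈ X, 0 ≤ δ P) {s : ℝ} (hs : (R : ℝ) < s)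
    (h : HighC ℓ γ x X δ s) {k : ℕ} (hk : k + c = n + 1) :
    ∃ N : ℕ, 0 < N ∧ ∃ ω : Fin (k + 1) → (Fin n → Derivation ℂ K K) → K,
      (∀ j, PairSec n X δ N (ω j)) ∧
      ∃ D, ω 0 D ≠ 0 ∧ AlgebraicIndependent ℂ (fun i : Fin k => ω i.succ D / ω 0 D) := by
  have hlx : ∀ i, lf (ℓ i) x ≠ 0 := fun i => lf_ne hx0 hbas.1 (hℓ i)
  obtain ⟨hB, hconn⟩ := hγ.blocks hℓ hspan hc1
  obtain ⟨p, hp⟩ := exists_wt hn hℓ hR (splits_le hγ.splits).1 hspan hB hconn
  have hR1 := hR.pos hγ.splits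
  have hRpos : (0 : ℝ) < R := by exact_mod_cast hR1
  obtain ⟨B0⟩ := exists_bases hspan
  have i0 : Fin q := B0.1 0
  obtain ⟨D, hD⟩ := (bwb n K).2.2 x hx0 hbas
  have hN1 : (1 : ℝ) ≤ ∑ B, (p B : ℝ) := by exact_mod_cast hp.1
  obtain ⟨t, ht⟩ := exists_nat_gt ((R : ℝ) * s / (s - R))
  have hsR : 0 < s - R := sub_pos.2 hs
  have hspos : 0 < s := hRpos.trans hs
  have ht0 : (0 : ℝ) < t := lt_trans (by positivity) ht
  have ht0' : 0 < t := by exact_mod_cast ht0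
  have htA : (R : ℝ) * s ≤ (t * ∑ B, (p B : ℝ)) * (s - R) := by
    have h1 := (div_lt_iff₀ hsR).1 ht
    have h2 : (t : ℝ) * (s - R) ≤ (t * ∑ B, (p B : ℝ)) * (s - R) :=
      mul_le_mul_of_nonneg_right (le_mul_of_one_le_right ht0.le hN1) hsR.le
    linarith
  choose rr hrr using fun j => hB.cp_ne B0 j
  have hrr' : ∀ j, γ (B0.1 (rr j)) = j := fun j => mem_cp.1 (hrr j)
  obtain ⟨ι, hι⟩ := indep_u B0 hlx hx0 hbas rr hrr' hk
  let u : Fin k → K := fun i => lf (ℓ (B0.1 (ι i))) x / lf (ℓ (B0.1 (rr (γ (B0.1 (ι i)))))) x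
  let w : Fin (k + 1) → K := Fin.cons 1 u
  have hw : ∀ (P : Place ℂ K) (a : ℤ) (v v' : Fin q → ℕ) (m : Fin c → ℕ),
      (∀ i, P.ord (lf (ℓ i) x) = a + v i) → (∀ i, v i = v' i + m (γ i)) →
      ∀ j, ∃ i, Ge P (-(v' i : ℤ)) (w j) := by
    intro P a v v' m hord hm j
    refine Fin.cases ?_ (fun i => ?_) j
    · refine ⟨i0, Or.inr ?_⟩
      change _ ≤ P.ord (1 : K)
      rw [P.ord_one]
      linarith [Int.natCast_nonneg (v' i0)]
    · refine ⟨B0.1 (rr (γ (B0.1 (ι i)))), Or.inr ?_⟩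
      change _ ≤ P.ord (lf (ℓ (B0.1 (ι i))) x / lf (ℓ (B0.1 (rr (γ (B0.1 (ι i)))))) x)
      rw [P.ord_div (hlx _) (hlx _), hord, hord, hm (B0.1 (ι i)), hm (B0.1 (rr _)), hrr']
      push_cast
      linarith [Int.natCast_nonneg (v' (B0.1 (ι i)))]
  have hpf : pf ℓ x p t D ≠ 0 := by
    unfold pf
    exact div_ne_zero (pow_ne_zero _ hD) (den_ne hlx p t)
  refine ⟨t * ∑ B, p B, Nat.mul_pos ht0' hp.1, fun j D => pf ℓ x p t D * w j, fun j => ⟨?_, ?_⟩, D,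
    ?_, ?_⟩
  · intro A D'
    change pf ℓ x p t _ * w j = _
    rw [pf_pluri x p t A D']
    ring
  · intro P hPX hPd D hD
    obtain ⟨a, v, v', m, c', M, hv, hm, hc, hvM, hM0, hM⟩ :=
      pair_ord hB hspan hp hlx h t hPX hPd (hδ P hPX) hD
    obtain ⟨i, hi⟩ := hw P a v v' m hv hm j
    have h5 := hc.mul hi
    rcases h5 with h5 | h5
    · exact Or.inl h5
    right
    have h6 : ((c' + -(v' i : ℤ) : ℤ) : ℝ) ≤ P.ord (pf ℓ x p t D * w j) := by
      exact_mod_cast h5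
    refine le_trans ?_ h6
    push_cast
    obtain ⟨A, hA⟩ : ∃ A : ℝ, A = t * ∑ B, (p B : ℝ) := ⟨_, rfl⟩
    rw [← hA] at htA hM ⊢
    have hA0 : (0 : ℝ) ≤ A := by rw [hA]; positivity
    have hMi := hvM i
    have hδA := mul_nonneg hA0 (hδ P hPX)
    rcases hM with ⟨hM1, hM2⟩ | ⟨hM1, hM2⟩
    · rw [hM1] at hMi
      linarith
    · -- `M ≤ c' + A δ`
      have e1 : A * (s * (1 - δ P)) ≤ A * M := mul_le_mul_of_nonneg_left hM1 hA0
      have e2 : (R : ℝ) * s * M ≤ A * (s - R) * M := mul_le_mul_of_nonneg_right htA hM0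
      have e3 : s * (A * M) ≤ s * (R * (c' + A)) := mul_le_mul_of_nonneg_left hM2 hspos.le
      have e4 : (R : ℝ) * (A * (s * (1 - δ P))) ≤ R * (A * M) :=
        mul_le_mul_of_nonneg_left e1 hRpos.le
      have e5 : M ≤ c' + A * δ P := by
        have hpp : (0 : ℝ) < R * s := mul_pos hRpos hspos
        refine le_of_mul_le_mul_left ?_ hpp
        nlinarith
      linarith
  · change pf ℓ x p t D * w 0 ≠ 0
    refine mul_ne_zero hpf ?_
    change (1 : K) ≠ 0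
    exact one_ne_zero
  · have e : (fun i : Fin k => pf ℓ x p t D * w i.succ / (pf ℓ x p t D * w 0)) = u := by
      funext i
      have e1 : w 0 = 1 := rfl
      have e2 : w i.succ = u i := rfl
      rw [e1, e2, mul_one, mul_div_cancel_left₀ _ hpf]
    change AlgebraicIndependent ℂ (fun i : Fin k => pf ℓ x p t D * w i.succ /
        (pf ℓ x p t D * w 0))
    rw [e]
    exact hι

end Pool.Agent.TH766.MC
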