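import Pool.Agent.TH766.MC.Blk
import Pool.Agent.TH152.AC.Gen
import Pool.Agent.W602.GT.Dich

/-!
Lower bounds for the logarithmic Kodaira dimension.
-/

set_option autoImplicit false

open FF Module Pool.Agent.W603.LV Pool.Agent.W602.GT Pool.Agent.W602.Cov Pool.Agent.W602.Cov.G
open Pool.Agent.W168.CG.PGR Pool.Agent.TH152.AC

namespace Pool.Agent.TH766.MC

variable {n q c : ℕ} {ℓ : Fin q → Form n} {γ : Fin q → Fin c} {K : Type} [Field K] [Algebra ℂ K]

/-- no block is filled by the centre of `P`, and some multiplicity is large -/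
def GoodAt (ℓ : Fin q → Form n) (γ : Fin q → Fin c) (x : Fin (n + 1) → K) (s : ℕ)
    (P : Place ℂ K) : Prop :=
  ∀ (a : ℤ) (v : Fin q → ℕ), (∀ i, P.ord (lf (ℓ i) x) = a + v i) → (∃ i, v i = 0) →
    (∀ j, ∃ i, γ i = j ∧ v i = 0) ∧ (v = 0 ∨ ∃ i, s ≤ v i)

theorem GoodAt.eq {x : Fin (n + 1) → K} {s : ℕ} {P : Place ℂ K} (h : GoodAt ℓ γ x s P) {a : ℤ}
    {v v' : Fin q → ℕ} {m : Fin c → ℕ} (hord : ∀ i, P.ord (lf (ℓ i) x) = a + v i)
    (h0 : ∃ i, v i = 0) (hm : ∀ i, v i = v' i + m (γ i)) :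
    v' = v ∧ (v = 0 ∨ ∃ i, s ≤ v i) := by
  obtain ⟨h1, h2⟩ := h a v hord h0
  refine ⟨?_, h2⟩
  funext i
  obtain ⟨i', hi', hv⟩ := h1 (γ i)
  have h3 := hm i'
  rw [hi', hv] at h3
  have h4 := hm i
  omega

theorem kod0 (hB : Blocks ℓ γ) (hspan : Submodule.span ℂ (Set.range ℓ) = ⊤) {p : Bases ℓ → ℕ}
    {R : ℕ} (hR : 1 ≤ R) (hp : Wt ℓ (Fam ℓ γ) R p) {x : Fin (n + 1) → K}
    (hlx : ∀ i, lf (ℓ i) x ≠ 0) (hx0 : x 0 ≠ 0)
    (hbas : IsTranscendenceBasis ℂ (fun j : Fin n => x j.succ / x 0)) (Bd : Place ℂ K → Prop)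
    (hP : ∀ P : Place ℂ K, Divisorial n P → ¬ Bd P → GoodAt ℓ γ x R P) :
    KodGe ℂ K n Bd 0 := by
  obtain ⟨B0⟩ := exists_bases hspan
  have i0 : Fin q := B0.1 0
  have hN : (1 : ℤ) ≤ ∑ B, (p B : ℤ) := by exact_mod_cast hp.1
  have hp0 := hp.1
  obtain ⟨D, hD⟩ := (bwb n K).2.2 x hx0 hbas
  refine ⟨1 * ∑ B, p B, by omega, fun _ => pf ℓ x p 1, fun _ => ⟨pf_pluri x p 1, ?_, ?_⟩, D, ?_, ?_⟩
  · intro P _ D hD
    obtain ⟨a, v, -, -, -, c, hc, -, hc2, -⟩ :=
      pf_ord2' hp hspan 1 hlx P i0 D 0 (log0 P hD).1 (log0 P hD).2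
    refine hc.mono ?_
    simpa using hc2
  · intro P hPd hPB D hD
    obtain ⟨a, v, hv0, hv, -, c, hc, hc1, hc2, hc3⟩ :=
      pf_ord2' hp hspan 1 hlx P i0 D 1 (reg1 P hD).1 (reg1 P hD).2
    refine hc.mono ?_
    obtain ⟨v', m, hdec, hm, -⟩ := hB.dec hspan hlx P hv
    obtain ⟨h1, h2⟩ := (hP P hPd hPB).eq hv hv0 hm
    rcases h2 with h2 | ⟨i, hi⟩
    · exact hc1 h2
    · have h3 := hc3 v' hdec i
      rw [h1] at h3
      push_cast at h3
      have hi' : (R : ℤ) ≤ v i := by exact_mod_cast hi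
      have h4 : (∑ B, (p B : ℤ)) * R ≤ (∑ B, (p B : ℤ)) * v i :=
        mul_le_mul_of_nonneg_left hi' (by linarith)
      have hR' : (0 : ℤ) < R := by exact_mod_cast hR
      by_contra hneg
      push Not at hneg
      have h5 : (R : ℤ) * c < 0 := mul_neg_of_pos_of_neg hR' hneg
      linarith
  · unfold pf
    exact div_ne_zero (pow_ne_zero _ hD) (den_ne hlx p 1)
  · rw [algebraicIndependent_empty_type_iff]
    exact (algebraMap ℂ K).injective

/-- algebraically independent ratios inside the blocks -/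
theorem indep_u (B0 : Bases ℓ) {x : Fin (n + 1) → K}
    (hlx : ∀ i, lf (ℓ i) x ≠ 0) (hx0 : x 0 ≠ 0)
    (hbas : IsTranscendenceBasis ℂ (fun j : Fin n => x j.succ / x 0)) (rr : Fin c → Fin (n + 1))
    (hrr : ∀ j, γ (B0.1 (rr j)) = j) {h : ℕ} (hh : h + c = n + 1) :
    ∃ ι : Fin h → Fin (n + 1), AlgebraicIndependent ℂ fun i =>
      lf (ℓ (B0.1 (ι i))) x / lf (ℓ (B0.1 (rr (γ (B0.1 (ι i)))))) x := by
  classical
  set X : Fin (n + 1) → K := fun a => lf (ℓ (B0.1 a)) x with hX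
  have hX0 : ∀ a, X a ≠ 0 := fun a => hlx _
  set r : Fin (n + 1) → Fin (n + 1) := fun a => rr (γ (B0.1 a)) with hr
  have hrrr : ∀ j, r (rr j) = rr j := fun j => by simp only [hr, hrr]
  have hr2 : ∀ a, r (r a) = r a := fun a => hrrr _
  set a0 : Fin (n + 1) := r 0 with ha0
  have hra0 : r a0 = a0 := hr2 0
  let f : {a // a ≠ a0} → K := fun a => if r a = a then X a / X a0 else X a / X (r a)
  set E := IntermediateField.adjoin ℂ (Set.range f) with hE
  have hE1' : ∀ a, r a = a → X a / X a0 ∈ E := by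
    intro a ha
    by_cases haa : a = a0
    · rw [haa, div_self (hX0 _)]
      exact one_mem _
    · have h1 : f ⟨a, haa⟩ ∈ E := IntermediateField.subset_adjoin ℂ _ ⟨_, rfl⟩
      simp only [f, if_pos ha] at h1
      exact h1
  have hE1 : ∀ a, X a / X a0 ∈ E := by
    intro a
    by_cases ha : r a = a
    · exact hE1' a ha
    · have haa : a ≠ a0 := by
        rintro rfl
        exact ha hra0
      have h1 : f ⟨a, haa⟩ ∈ E := IntermediateField.subset_adjoin ℂ _ ⟨_, rfl⟩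
      simp only [f, if_neg ha] at h1
      have h2 := mul_mem h1 (hE1' (r a) (hr2 a))
      rwa [div_mul_div_cancel₀ (hX0 _)] at h2
  have hE2 : ∀ φ : Form n, lf φ x / X a0 ∈ E := by
    intro φ
    have hφ : φ ∈ Submodule.span ℂ (Set.range (bas B0)) := by
      rw [(bas B0).span_eq]; trivial
    induction hφ using Submodule.span_induction with
    | mem φ hφ =>
      obtain ⟨a, rfl⟩ := hφ
      rw [bas_apply]
      exact hE1 a
    | zero => rw [lf_zero, zero_div]; exact zero_mem _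
    | add φ ψ _ _ h1 h2 => rw [lf_add, add_div]; exact add_mem h1 h2
    | smul c φ _ h1 =>
      rw [lf_smul, mul_div_assoc]
      exact mul_mem (E.algebraMap_mem c) h1
  have hE3 : ∀ j, x j / X a0 ∈ E := fun j => by
    have := hE2 (LinearMap.proj j)
    rwa [lf_proj] at this
  have hle : Algebra.adjoin ℂ (Set.range fun j : Fin n => x j.succ / x 0) ≤ E.toSubalgebra := by
    rw [Algebra.adjoin_le_iff]
    rintro _ ⟨j, rfl⟩
    have h1 := div_mem (hE3 j.succ) (hE3 0)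
    rwa [div_div_div_cancel_right₀ (hX0 _)] at h1
  have halg : Algebra.IsAlgebraic E K := by
    have h1 := hbas.isAlgebraic
    constructor
    intro z
    have h2 := h1.isAlgebraic z
    obtain ⟨P, hP0, hP⟩ := h2
    refine ⟨P.map (Subalgebra.inclusion hle).toRingHom, ?_, ?_⟩
    · rw [Ne, Polynomial.map_eq_zero_iff]
      · exact hP0
      · exact Subalgebra.inclusion_injective hle
    · rw [Polynomial.aeval_def, Polynomial.eval₂_map]
      rw [Polynomial.aeval_def] at hP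
      exact hP
  have halg2 : Algebra.IsAlgebraic (Algebra.adjoin ℂ (Set.range f)) K := alg_adjoin halg
  have htr : Algebra.trdeg ℂ K = n := trdeg_of_basis hbas
  have hcard : Fintype.card {a : Fin (n + 1) // a ≠ a0} = n := by
    rw [Fintype.card_subtype_compl, Fintype.card_fin, Fintype.card_subtype_eq]
    omega
  have hbasf : IsTranscendenceBasis ℂ f := by
    apply Algebra.IsAlgebraic.isTranscendenceBasis_of_lift_le_trdeg_of_finite
    rw [htr, Cardinal.mk_fintype, hcard]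
  have hcard2 : Fintype.card {a : Fin (n + 1) // r a ≠ a} = h := by
    have h1 : Fintype.card {a : Fin (n + 1) // r a = a} = c := by
      rw [← Fintype.card_fin c]
      refine Fintype.card_congr
        { toFun := fun a => γ (B0.1 a)
          invFun := fun j => ⟨rr j, hrrr j⟩
          left_inv := fun a => Subtype.ext a.2
          right_inv := fun j => hrr j }
    rw [Fintype.card_subtype_compl, Fintype.card_fin, h1]
    omega
  let e : Fin h ≃ {a : Fin (n + 1) // r a ≠ a} := (Fintype.equivFinOfCardEq hcard2).symm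
  have hne : ∀ i, ((e i : {a : Fin (n + 1) // r a ≠ a}) : Fin (n + 1)) ≠ a0 := by
    intro i hi
    apply (e i).2
    rw [hi]
    exact hra0
  refine ⟨fun i => (e i).1, ?_⟩
  have h1 := hbasf.1.comp (fun i : Fin h => (⟨(e i).1, hne i⟩ : {a // a ≠ a0}))
    (fun i j hij => e.injective (Subtype.ext (by
      have h2 := congrArg Subtype.val hij
      exact h2)))
  convert h1 using 1
  funext i
  change X (e i).1 / X (r (e i).1) = f ⟨(e i).1, hne i⟩
  simp only [f, if_neg (e i).2]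

theorem kodc (hB : Blocks ℓ γ) (hspan : Submodule.span ℂ (Set.range ℓ) = ⊤) {p : Bases ℓ → ℕ}
    {R : ℕ} (hR : 1 ≤ R) (hp : Wt ℓ (Fam ℓ γ) R p) {x : Fin (n + 1) → K}
    (hlx : ∀ i, lf (ℓ i) x ≠ 0) (hx0 : x 0 ≠ 0)
    (hbas : IsTranscendenceBasis ℂ (fun j : Fin n => x j.succ / x 0)) (Bd : Place ℂ K → Prop)
    (hP : ∀ P : Place ℂ K, Divisorial n P → ¬ Bd P → GoodAt ℓ γ x (R + 1) P) {h : ℕ}
    (hh : h + c = n + 1) :
    KodGe ℂ K n Bd h := by
  obtain ⟨B0⟩ := exists_bases hspan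
  have i0 : Fin q := B0.1 0
  have hN : (1 : ℤ) ≤ ∑ B, (p B : ℤ) := by exact_mod_cast hp.1
  have hp0 := hp.1
  obtain ⟨D, hD⟩ := (bwb n K).2.2 x hx0 hbas
  obtain ⟨t, ht⟩ : ∃ t : ℕ, t = R * (R + 1) := ⟨_, rfl⟩
  have htz : (t : ℤ) = (R : ℤ) * (R + 1) := by
    rw [ht]
    push_cast
    ring
  have hR' : (0 : ℤ) < R := by exact_mod_cast hR
  have hA : (R : ℤ) * (R + 1) ≤ t * ∑ B, (p B : ℤ) := by
    rw [← htz]
    exact le_mul_of_one_le_right (by positivity) hN
  choose rr hrr using fun j => hB.cp_ne B0 j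
  have hrr' : ∀ j, γ (B0.1 (rr j)) = j := fun j => mem_cp.1 (hrr j)
  obtain ⟨ι, hι⟩ := indep_u B0 hlx hx0 hbas rr hrr' hh
  let u : Fin h → K := fun i => lf (ℓ (B0.1 (ι i))) x / lf (ℓ (B0.1 (rr (γ (B0.1 (ι i)))))) x
  let w : Fin (h + 1) → K := Fin.cons 1 u
  have hw : ∀ (P : Place ℂ K) (a : ℤ) (v v' : Fin q → ℕ) (m : Fin c → ℕ),
      (∀ i, P.ord (lf (ℓ i) x) = a + v i) → (∀ i, v i = v' i + m (γ i)) →
      ∀ j, ∃ i, Ge P (-(v' i : ℤ)) (w j) := by
    intro P a v v' m hord hm j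
    refine Fin.cases ?_ (fun i => ?_) j
    · refine ⟨i0, Or.inr ?_⟩
      change _ ≤ P.ord (1 : K)
      rw [P.ord_one]
      linarith [Int.natCast_nonneg (v' i0)]
    · refine ⟨B0.1 (rr (γ (B0.1 (ι i)))), Or.inr ?_⟩
      change _ ≤ P.ord (lf (ℓ (B0.1 (ι i))) x / lf (ℓ (B0.1 (rr (γ (B0.1 (ι i)))))) x)
      rw [P.ord_div (hlx _) (hlx _), hord, hord, hm (B0.1 (ι i)), hm (B0.1 (rr _)), hrr']
      push_cast
      linarith [Int.natCast_nonneg (v' (B0.1 (ι i)))]
  have hfin : ∀ (P : Place ℂ K) (D : Fin n → Derivation ℂ K K) (c' : ℤ) (v' : Fin q → ℕ)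
      (j : Fin (h + 1)), (∃ i, Ge P (-(v' i : ℤ)) (w j)) → (∀ i, (v' i : ℤ) ≤ c') →
      Ge P c' (pf ℓ x p t D) → P.Reg (pf ℓ x p t D * w j) := by
    rintro P D c' v' j ⟨i, hi⟩ h1 h2
    have h5 := h2.mul hi
    exact h5.mono (by linarith [h1 i])
  have hpf : pf ℓ x p t D ≠ 0 := by
    unfold pf
    exact div_ne_zero (pow_ne_zero _ hD) (den_ne hlx p t)
  refine ⟨t * ∑ B, p B, ?_, fun j D => pf ℓ x p t D * w j, fun j => ⟨?_, ?_, ?_⟩, D, ?_, ?_⟩
  · rw [ht]
    positivity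
  · intro A D'
    change pf ℓ x p t _ * w j = _
    rw [pf_pluri x p t A D']
    ring
  · intro P _ D hD
    obtain ⟨a, v, hv0, hv, -, c', hc, hc1, hc2, hc3⟩ :=
      pf_ord2' hp hspan t hlx P i0 D 0 (log0 P hD).1 (log0 P hD).2
    obtain ⟨v', m, hdec, hm, -⟩ := hB.dec hspan hlx P hv
    refine hfin P D c' v' j (hw P a v v' m hv hm j) (fun i => ?_) hc
    have h3 := hc3 v' hdec i
    push_cast at h3
    rw [zero_mul, add_zero] at h3
    have h4 : (R : ℤ) * (R + 1) * v' i ≤ (t * ∑ B, (p B : ℤ)) * v' i :=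
      mul_le_mul_of_nonneg_right hA (by positivity)
    have h5 : (R : ℤ) * v' i ≤ R * (R + 1) * v' i := by
      have : (0 : ℤ) ≤ R * R * v' i := by positivity
      nlinarith
    exact le_of_mul_le_mul_left (by linarith) hR'
  · intro P hPd hPB D hD
    obtain ⟨a, v, hv0, hv, -, c', hc, hc1, hc2, hc3⟩ :=
      pf_ord2' hp hspan t hlx P i0 D 1 (reg1 P hD).1 (reg1 P hD).2
    obtain ⟨v', m, hdec, hm, -⟩ := hB.dec hspan hlx P hv
    obtain ⟨h1, h2⟩ := (hP P hPd hPB).eq hv hv0 hm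
    refine hfin P D c' v' j (hw P a v v' m hv hm j) (fun i' => ?_) hc
    rcases h2 with h2 | ⟨i, hi⟩
    · rw [h1, h2]
      simpa using hc1 h2
    · have hi' : ((R : ℤ) + 1) ≤ v i := by exact_mod_cast hi
      set A : ℤ := t * ∑ B, (p B : ℤ) with hAdef
      have h3 : A * v i ≤ R * (c' + A) := by
        have := hc3 v' hdec i
        rw [h1] at this
        push_cast at this
        rw [one_mul] at this
        exact this
      have h0 : A * v i' ≤ R * (c' + A) := by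
        have := hc3 v' hdec i'
        rw [h1] at this
        push_cast at this
        rw [one_mul] at this
        exact this
      have hA0 : 0 < A := lt_of_lt_of_le (by positivity) hA
      rw [h1]
      refine le_of_mul_le_mul_left ?_ hR'
      rcases le_or_gt ((R : ℤ) + 1) (v i') with hcase | hcase
      · have h4 : ((R : ℤ) * (R + 1)) * (v i' - R) ≤ A * (v i' - R) :=
          mul_le_mul_of_nonneg_right hA (by linarith)
        have h5 : (0 : ℤ) ≤ (R : ℤ) * (R * (v i' - (R + 1))) := by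
          apply mul_nonneg (by positivity)
          exact mul_nonneg (by positivity) (by linarith)
        nlinarith
      · have h4 : A * (R + 1) ≤ A * v i := mul_le_mul_of_nonneg_left hi' hA0.le
        have h5 : (R : ℤ) * v i' ≤ R * (R + 1) :=
          mul_le_mul_of_nonneg_left hcase.le hR'.le
        nlinarith
  · change pf ℓ x p t D * w 0 ≠ 0
    refine mul_ne_zero hpf ?_
    change (1 : K) ≠ 0
    exact one_ne_zero
  · have e : (fun i : Fin h => pf ℓ x p t D * w i.succ / (pf ℓ x p t D * w 0)) = u := by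
      funext i
      have e1 : w 0 = 1 := rfl
      have e2 : w i.succ = u i := rfl
      rw [e1, e2, mul_one, mul_div_cancel_left₀ _ hpf]
    change AlgebraicIndependent ℂ (fun i : Fin h => pf ℓ x p t D * w i.succ /
        (pf ℓ x p t D * w 0))
    rw [e]
    exact hι

end Pool.Agent.TH766.MC
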